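import Pool.Agent.H606R2.CF.StubsZ
import Pool.Agent.NPC.Dec

/-!
# Algorithms computing a largest crossing family
-/

namespace Pool.Agent.H606R2.CF

open Pool.Agent.NPC Pool.Agent.NPC.H634R2

/-- The algorithm `V` (a function on bit strings) outputs, for every configuration (given as the
code of a list of distinct points), the code of a crossing family with the largest possible number
of segments, as a list of segments without repetition. -/
def ComputesLargest (V : List Bool → List Bool) : Prop :=
  ∀ S : List Pt, S.Nodup → ∃ G : List (Pt × Pt), V (bits S) = bits G ∧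
    (G.map (fun e => s(e.1, e.2))).Nodup ∧
    IsCrossingFamily S.toFinset (G.map (fun e => s(e.1, e.2))).toFinset ∧
    G.length = cf S.toFinset

/-- A polynomial-time algorithm on bit strings gives a polynomial-time function on data. -/
theorem poly_raw {α : Type} [TEnc α] {V : List Bool → List Bool} (hV : PolyTime V) :
    Poly (fun a : α => V (bits a)) := by
  have h1 : PC (fun x : List Bool => x) (fun x : List Bool => x) V :=
    H642R2.TMSim.polyTime_toPC hV
  have h2 : PC (fun x : List Bool => x) (bits : List Bool → List Bool) V :=
    PC.comp (g := fun x => x) (f := V) PC.rawIn h1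
  have h3 : PC (bits : α → List Bool) (fun x : List Bool => x) (fun a => bits a) := by
    obtain ⟨c, p, h⟩ := (PC.id : PC (bits : α → List Bool) (bits : α → List Bool) (fun a => a))
    exact ⟨c, p, h⟩
  exact PC.comp (g := V) (f := fun a : α => bits a) h2 h3

/-- A polynomial-time algorithm for a largest crossing family collapses `NP` to `P`. -/
theorem collapse_of_alg (h : S_Z9) (V : List Bool → List Bool) (hV : PolyTime V)
    (hS : ComputesLargest V) : ∀ L, InNP L → InP L := by
  refine HardPr.collapse (P := LargeCF) h
    (d := fun I => match unbits (List (Pt × Pt)) (V (bits I.1)) with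
      | none => false
      | some G => decide (I.2 ≤ G.length)) ?_ ?_
  · refine NPC.Poly.congr (NPC.Poly.optCases
      (o := fun I : List Pt × ℕ => unbits (List (Pt × Pt)) (V (bits I.1)))
      (g := fun _ => false) (h := fun I G => decide (I.2 ≤ G.length))
      (poly_unbits.comp ((poly_raw hV).comp (NPC.Poly.fst NPC.Poly.id))) (NPC.Poly.const _)
      (NPC.Poly.decide_le (NPC.Poly.snd (NPC.Poly.fst NPC.Poly.id))
        (NPC.Poly.length (NPC.Poly.snd NPC.Poly.id)))) ?_
    intro I
    cases unbits (List (Pt × Pt)) (V (bits I.1)) <;> rfl
  · intro I hI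
    obtain ⟨G, h1, _, _, h3⟩ := hS I.1 hI
    simp only [LargeCF, h1, unbits_bits, decide_eq_true_eq, h3]
    exact ⟨fun h => h.2, fun h => ⟨hI, h⟩⟩

end Pool.Agent.H606R2.CF
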