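import Mathlib

/-!
# Crossing families: definitions
-/

namespace Pool.Agent.H606R2.CF

/-- A point with integer coordinates. -/
abbrev Pt : Type := ℤ × ℤ

/-- The point as a point of the real plane. -/
def toR (p : Pt) : ℝ × ℝ := ((p.1 : ℝ), (p.2 : ℝ))

/-- The closed segments `ab` and `cd` cross properly: they have exactly one common point, and that
point is in the relative interior of both. -/
def CrossProperly (a b c d : ℝ × ℝ) : Prop :=
  ∃ x, segment ℝ a b ∩ segment ℝ c d = {x} ∧ x ∈ openSegment ℝ a b ∧ x ∈ openSegment ℝ c d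

/-- `F` is a crossing family in the configuration `S`: a set of segments (unordered pairs of two
different points) with endpoints in `S`, every two of which cross properly. -/
def IsCrossingFamily (S : Finset Pt) (F : Finset (Sym2 Pt)) : Prop :=
  (∀ e ∈ F, ¬ e.IsDiag ∧ ∀ p ∈ e, p ∈ S) ∧
  ∀ a b c d : Pt, s(a, b) ∈ F → s(c, d) ∈ F → s(a, b) ≠ s(c, d) →
    CrossProperly (toR a) (toR b) (toR c) (toR d)

/-- The largest number of segments of a crossing family in `S`. -/
noncomputable def cf (S : Finset Pt) : ℕ := sSup {m | ∃ F, IsCrossingFamily S F ∧ F.card = m}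

/-- The decision problem: given a list of distinct integer points and a number `k`, is there a
crossing family with at least `k` segments? -/
def LargeCF (I : List Pt × ℕ) : Prop := I.1.Nodup ∧ I.2 ≤ cf I.1.toFinset

/-- Orientation of three points: positive iff `r` is to the left of the directed line `pq`. -/
def orient (p q r : Pt) : ℤ := (q.1 - p.1) * (r.2 - p.2) - (q.2 - p.2) * (r.1 - p.1)

/-- Combinatorial version of proper crossing. -/
def Cr (a b c d : Pt) : Prop :=
  orient a b c * orient a b d < 0 ∧ orient c d a * orient c d b < 0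

/-! ### Points of a pair of lines `y = a (X - x) + h`, `y = - b (X - x) + h` -/

/-- The point dual to the rising line. -/
def up (x h a : ℤ) : Pt := (a, a * x - h)

/-- The point dual to the falling line. -/
def dn (x h b : ℤ) : Pt := (-b, -(b * x) - h)

/-! ### The layout: `n` slots separated by `n+1` bundles of `M` base pairs -/

/-- Data of the construction. -/
structure Lay where
  /-- number of slots -/
  n : ℕ
  /-- number of base pairs in each bundle -/
  M : ℕ
  /-- slope of the base lines -/
  A : ℤ
  /-- positions of base pairs -/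
  t : Fin (n + 1) → Fin M → ℤ
  /-- abscissas of the slots -/
  x : Fin n → ℤ
  /-- ordinates of the slots -/
  h : Fin n → ℤ
  /-- slopes of the rising lines -/
  a : Fin n → ℤ
  /-- minus the slopes of the falling lines -/
  b : Fin n → ℤ

namespace Lay

variable (L : Lay)

/-- Indices of the pairs: base pairs and slots. -/
abbrev Ix : Type := (Fin (L.n + 1) × Fin L.M) ⊕ Fin L.n

/-- The point of an index; `true` for the rising line. -/
def pt : L.Ix × Bool → Pt
  | (Sum.inl i, true) => up (L.t i.1 i.2) 0 L.A
  | (Sum.inl i, false) => dn (L.t i.1 i.2) 0 L.A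
  | (Sum.inr j, true) => up (L.x j) (L.h j) (L.a j)
  | (Sum.inr j, false) => dn (L.x j) (L.h j) (L.b j)

/-- The configuration. -/
noncomputable def S : Finset Pt := Finset.univ.image L.pt

/-- The conditions on the layout. -/
structure Good : Prop where
  hM : 2 * L.n + 1 ≤ L.M
  tlt : ∀ i i' k k', i < i' → L.t i k < L.t i' k'
  tinj : ∀ i k k', L.t i k = L.t i k' → k = k'
  xlt : ∀ i j, i < j → L.x i < L.x j
  apos : ∀ j, 0 < L.a j
  bpos : ∀ j, 0 < L.b j
  /-- slot `j` lies between bundle `j` and bundle `j + 1` -/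
  left : ∀ (j : Fin L.n) (i : Fin (L.n + 1)) (k : Fin L.M), i ≤ j.castSucc →
    L.a j * (L.t i k - L.x j) + L.h j < 0 ∧ 0 < -(L.b j * (L.t i k - L.x j)) + L.h j
  right : ∀ (j : Fin L.n) (i : Fin (L.n + 1)) (k : Fin L.M), j.castSucc < i →
    0 < L.a j * (L.t i k - L.x j) + L.h j ∧ -(L.b j * (L.t i k - L.x j)) + L.h j < 0
  /-- the base lines are steep -/
  Apos : 0 < L.A
  Ah : ∀ j, |L.h j| < L.A
  Aa : ∀ j, L.a j ≤ L.A
  Ab : ∀ j, L.b j ≤ L.A
  Abig : ∀ (v : L.Ix × Bool) (j : Fin L.n), v.1 = Sum.inr j → ∀ i k i' k', L.t i' k' < L.t i k →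
    |2 * (L.pt v).2 - (L.t i k + L.t i' k') * (L.pt v).1| < L.A * (L.t i k - L.t i' k')

/-- Two slots are compatible (their segments cross properly). -/
def Ok (i j : Fin L.n) : Prop :=
  -(min (L.b i) (L.b j) * (L.x j - L.x i)) < L.h j - L.h i ∧
    L.h j - L.h i < min (L.a i) (L.a j) * (L.x j - L.x i)

end Lay

end Pool.Agent.H606R2.CF
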