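import Pool.Agent.H606R2.CF.Stubs

/-!
# Task G10: crossing of slot segments
-/

set_option autoImplicit false

namespace Pool.Agent.H606R2.CF

namespace G10

theorem prod_neg {c u v : ℤ} (hc : 0 < c) (h : u < v) : (c * u) * (c * v) < 0 ↔ u < 0 ∧ 0 < v := by
  have hcc : 0 < c * c := mul_pos hc hc
  have e : (c * u) * (c * v) = (c * c) * (u * v) := by ring
  rw [e]
  constructor
  · intro hneg
    have h1 : u * v < 0 := by
      by_contra hcon
      push Not at hcon
      have := mul_nonneg hcc.le hcon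
      omega
    rcases mul_neg_iff.1 h1 with ⟨h2, h3⟩ | ⟨h2, h3⟩
    · omega
    · exact ⟨h2, h3⟩
  · rintro ⟨h1, h2⟩
    exact mul_neg_of_pos_of_neg hcc (mul_neg_of_neg_of_pos h1 h2)

theorem orient_up_dn (x h a b : ℤ) (r : Pt) :
    orient (up x h a) (dn x h b) r = (a + b) * (x * r.1 - r.2 - h) := by
  simp only [orient, up, dn]
  ring

end G10

theorem t_G10 : S_G10 := by
  intro L hL i j hij
  have hd : 0 < L.x j - L.x i := by
    have := hL.xlt i j hij
    omega
  have hai := hL.apos i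
  have haj := hL.apos j
  have hbi := hL.bpos i
  have hbj := hL.bpos j
  simp only [Lay.pt, Lay.Ok, Cr, G10.orient_up_dn]
  have e1 : L.x i * (up (L.x j) (L.h j) (L.a j)).1 - (up (L.x j) (L.h j) (L.a j)).2 - L.h i =
      (L.h j - L.h i) - L.a j * (L.x j - L.x i) := by
    simp only [up]; ring
  have e2 : L.x i * (dn (L.x j) (L.h j) (L.b j)).1 - (dn (L.x j) (L.h j) (L.b j)).2 - L.h i =
      (L.h j - L.h i) + L.b j * (L.x j - L.x i) := by
    simp only [dn]; ring
  have e3 : L.x j * (up (L.x i) (L.h i) (L.a i)).1 - (up (L.x i) (L.h i) (L.a i)).2 - L.h j =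
      L.a i * (L.x j - L.x i) - (L.h j - L.h i) := by
    simp only [up]; ring
  have e4 : L.x j * (dn (L.x i) (L.h i) (L.b i)).1 - (dn (L.x i) (L.h i) (L.b i)).2 - L.h j =
      -(L.b i * (L.x j - L.x i)) - (L.h j - L.h i) := by
    simp only [dn]; ring
  rw [e1, e2, e3, e4]
  have m1 : 0 < L.a j * (L.x j - L.x i) := mul_pos haj hd
  have m2 : 0 < L.b j * (L.x j - L.x i) := mul_pos hbj hd
  have m3 : 0 < L.a i * (L.x j - L.x i) := mul_pos hai hd
  have m4 : 0 < L.b i * (L.x j - L.x i) := mul_pos hbi hd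
  rw [G10.prod_neg (by omega) (by omega), mul_comm ((L.a j + L.b j) * _),
    G10.prod_neg (by omega) (by omega)]
  have hmin1 : min (L.b i) (L.b j) * (L.x j - L.x i) =
      min (L.b i * (L.x j - L.x i)) (L.b j * (L.x j - L.x i)) :=
    min_mul_of_nonneg _ _ hd.le
  have hmin2 : min (L.a i) (L.a j) * (L.x j - L.x i) =
      min (L.a i * (L.x j - L.x i)) (L.a j * (L.x j - L.x i)) :=
    min_mul_of_nonneg _ _ hd.le
  rw [hmin1, hmin2]
  omega

end Pool.Agent.H606R2.CF
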