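import Pool.Agent.H606R2.CF.Stubs

/-! Task G11: crossings with base pairs. -/

namespace Pool.Agent.H606R2.CF

theorem g11_tne (L : Lay) (hL : L.Good) (i i' : Fin (L.n + 1) × Fin L.M) (h : i ≠ i') :
    L.t i.1 i.2 ≠ L.t i'.1 i'.2 := by
  intro he
  rcases lt_trichotomy i.1 i'.1 with h1 | h1 | h1
  · exact absurd he (ne_of_lt (hL.tlt _ _ _ _ h1))
  · apply h
    apply Prod.ext h1
    apply hL.tinj i.1
    rw [he, h1]
  · exact absurd he.symm (ne_of_lt (hL.tlt _ _ _ _ h1))

theorem g11_orient_base (t A : ℤ) (r : Pt) :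
    orient (up t 0 A) (dn t 0 A) r = 2 * A * (t * r.1 - r.2) := by
  simp only [orient, up, dn]; ring

theorem g11_orient_slot (x h a b : ℤ) (r : Pt) :
    orient (up x h a) (dn x h b) r = (a + b) * (x * r.1 - r.2 - h) := by
  simp only [orient, up, dn]; ring

theorem g11_cr_base (t t' A : ℤ) (hA : 0 < A) (h : t ≠ t') :
    orient (up t 0 A) (dn t 0 A) (up t' 0 A) * orient (up t 0 A) (dn t 0 A) (dn t' 0 A) < 0 := by
  rw [g11_orient_base, g11_orient_base]
  have e : 2 * A * (t * (up t' 0 A).1 - (up t' 0 A).2) *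
      (2 * A * (t * (dn t' 0 A).1 - (dn t' 0 A).2)) = -((2 * A * A * (t - t')) ^ 2) := by
    simp only [up, dn]; ring
  rw [e]
  have : 2 * A * A * (t - t') ≠ 0 := by
    have h1 : t - t' ≠ 0 := sub_ne_zero.mpr h
    have h2 : A ≠ 0 := ne_of_gt hA
    positivity
  have := pow_pos (abs_pos.mpr this) 2
  rw [sq_abs] at this
  linarith

theorem t_G11 : S_G11 := by
  intro L hL
  constructor
  · intro i i' hne
    have h1 := g11_tne L hL i i' hne
    exact ⟨g11_cr_base _ _ _ hL.Apos h1, g11_cr_base _ _ _ hL.Apos h1.symm⟩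
  · rintro ⟨i, k⟩ j
    have hA := hL.Apos
    have ha := hL.apos j
    have hb := hL.bpos j
    have hAh := hL.Ah j
    have key : (L.a j * (L.t i k - L.x j) + L.h j) * (-(L.b j * (L.t i k - L.x j)) + L.h j) < 0 ∧
        L.t i k ≠ L.x j := by
      rcases le_or_gt i j.castSucc with hi | hi
      · obtain ⟨h1, h2⟩ := hL.left j i k hi
        refine ⟨mul_neg_of_neg_of_pos h1 h2, ?_⟩
        intro he
        rw [he] at h1 h2
        simp at h1 h2
        linarith
      · obtain ⟨h1, h2⟩ := hL.right j i k hi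
        refine ⟨mul_neg_of_pos_of_neg h1 h2, ?_⟩
        intro he
        rw [he] at h1 h2
        simp at h1 h2
        linarith
    obtain ⟨k1, k2⟩ := key
    constructor
    · show orient (up (L.t i k) 0 L.A) (dn (L.t i k) 0 L.A) (up (L.x j) (L.h j) (L.a j)) *
        orient (up (L.t i k) 0 L.A) (dn (L.t i k) 0 L.A) (dn (L.x j) (L.h j) (L.b j)) < 0
      rw [g11_orient_base, g11_orient_base]
      have e : 2 * L.A * (L.t i k * (up (L.x j) (L.h j) (L.a j)).1 -
          (up (L.x j) (L.h j) (L.a j)).2) *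
          (2 * L.A * (L.t i k * (dn (L.x j) (L.h j) (L.b j)).1 -
          (dn (L.x j) (L.h j) (L.b j)).2)) = (2 * L.A) ^ 2 *
          ((L.a j * (L.t i k - L.x j) + L.h j) * (-(L.b j * (L.t i k - L.x j)) + L.h j)) := by
        simp only [up, dn]; ring
      rw [e]
      exact mul_neg_of_pos_of_neg (by positivity) k1
    · show orient (up (L.x j) (L.h j) (L.a j)) (dn (L.x j) (L.h j) (L.b j))
          (up (L.t i k) 0 L.A) *
        orient (up (L.x j) (L.h j) (L.a j)) (dn (L.x j) (L.h j) (L.b j))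
          (dn (L.t i k) 0 L.A) < 0
      rw [g11_orient_slot, g11_orient_slot]
      have e : (L.a j + L.b j) * (L.x j * (up (L.t i k) 0 L.A).1 -
          (up (L.t i k) 0 L.A).2 - L.h j) *
          ((L.a j + L.b j) * (L.x j * (dn (L.t i k) 0 L.A).1 -
          (dn (L.t i k) 0 L.A).2 - L.h j)) = (L.a j + L.b j) ^ 2 *
          (L.h j ^ 2 - (L.A * (L.t i k - L.x j)) ^ 2) := by
        simp only [up, dn]; ring
      rw [e]
      apply mul_neg_of_pos_of_neg (by positivity)
      have h3 : 1 ≤ |L.t i k - L.x j| := Int.one_le_abs (sub_ne_zero.mpr k2)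
      have h4 : |L.h j| < |L.A * (L.t i k - L.x j)| := by
        rw [abs_mul, abs_of_pos hA]
        nlinarith
      have h5 := sq_lt_sq.mpr h4
      linarith

end Pool.Agent.H606R2.CF
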