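import Pool.Agent.H606R2.CF.Stubs

/-!
# The forcing theorem
-/

namespace Pool.Agent.H606R2.CF

open Finset

namespace G12

lemma orient_swap (p q r : Pt) : orient q p r = - orient p q r := by
  unfold orient; ring

lemma Cr_swap_left {a b c d : Pt} (h : Cr a b c d) : Cr b a c d := by
  unfold Cr at *
  rw [orient_swap a b c, orient_swap a b d]
  refine ⟨by nlinarith [h.1], ?_⟩
  rw [mul_comm]; exact h.2

lemma Cr_swap_right {a b c d : Pt} (h : Cr a b c d) : Cr a b d c := by
  unfold Cr at *
  rw [orient_swap c d a, orient_swap c d b]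
  refine ⟨?_, by nlinarith [h.2]⟩
  rw [mul_comm]; exact h.1

lemma Cr_comm {a b c d : Pt} (h : Cr a b c d) : Cr c d a b := ⟨h.2, h.1⟩

lemma forward (h2 : S_G2) (h4 : S_G4) (h5 : S_G5) (h6 : S_G6) (h7 : S_G7) (h8 : S_G8)
    (h9 : S_G9) (h10 : S_G10) (L : Lay) (hL : L.Good) (k : ℕ) (F : Finset (Sym2 Pt))
    (hF : IsCrossingFamily L.S F) (hk : (L.n + 1) * L.M + k ≤ F.card) :
    ∃ J : Finset (Fin L.n), k ≤ J.card ∧ ∀ i ∈ J, ∀ j ∈ J, i < j → L.Ok i j := by
  classical
  have ff := h2 L.S F hF
  have hc : (L.n + 1) * L.M ≤ F.card := le_trans (Nat.le_add_right _ _) hk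
  have hinj := (h5 L hL).1
  choose r hr using h7 L hL F ff hc
  have h8' := h8 L hL F ff r hr
  have h6' := h6 L hL F ff hc
  set R : ((Fin (L.n + 1) × Fin L.M) ⊕ Fin L.n) × Bool →
    ((Fin (L.n + 1) × Fin L.M) ⊕ Fin L.n) × Bool → Prop :=
    fun v w => s(L.pt v, L.pt w) ∈ F with hR
  set gap : (Fin (L.n + 1) × Fin L.M) → Fin L.n → Prop := fun i j =>
    L.t j.castSucc (r j.castSucc) < L.t i.1 i.2 ∧ L.t i.1 i.2 < L.t j.succ (r j.succ) with hgap
  have r1 : ∀ v w, R v w → R w v := by
    intro v w h
    simp only [hR] at *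
    rwa [Sym2.eq_swap]
  have r2 : ∀ v w w', R v w → R v w' → w = w' := by
    intro v w w' h h'
    exact hinj (ff.func _ _ _ h h')
  have r3 : ∀ v w, R v w → w.2 = !v.2 := by
    rintro ⟨v, β⟩ ⟨w, β'⟩ h
    rcases v with i | j
    · rcases w with i' | j'
      · exact (h6' i i' β β' h).2
      · have := (h8' j' β' (Sum.inl i, β) (r1 _ _ h)).1
        simp only at this ⊢
        rw [this, Bool.not_not]
    · exact (h8' j β (w, β') h).1
  have r5 : ∀ i j β β', R (Sum.inr i, β) (Sum.inr j, β') → i = j := by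
    intro i j β β' h
    rcases (h8' i β (Sum.inr j, β') h).2 with h | ⟨i', h, _⟩
    · exact (Sum.inr_injective h).symm
    · exact absurd h (by simp)
  have gaplt : ∀ t i j, gap t i → gap t j → ¬ i < j := by
    intro t i j hi hj hij
    simp only [hgap] at hi hj
    have hle : i.succ ≤ j.castSucc := by
      rw [Fin.le_def]
      simp only [Fin.val_succ, Fin.val_castSucc]
      exact hij
    rcases hle.eq_or_lt with e | e
    · have h1 := hi.2
      rw [e] at h1
      exact absurd (h1.trans hj.1) (lt_irrefl _)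
    · have h1 := hL.tlt _ _ (r i.succ) (r j.castSucc) e
      have := hi.2
      have := hj.1
      omega
  have r6 : ∀ t i j, gap t i → gap t j → i = j := by
    intro t i j hi hj
    rcases lt_trichotomy i j with h | h | h
    · exact absurd h (gaplt t i j hi hj)
    · exact h
    · exact absurd h (gaplt t j i hj hi)
  have r7 : ∀ t j β β', R (Sum.inr j, β) (Sum.inl t, β') → gap t j := by
    intro t j β β' h
    rcases (h8' j β (Sum.inl t, β') h).2 with h | ⟨i', h, h'⟩
    · exact absurd h (by simp)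
    · have : t = i' := Sum.inl_injective h
      rw [this]
      exact h'
  have r9 : ∃ U : Finset ((Fin (L.n + 1) × Fin L.M) ⊕ Fin L.n),
      Fintype.card (Fin (L.n + 1) × Fin L.M) + k ≤ U.card ∧ ∀ v ∈ U, ∃ w, R (v, true) w := by
    set Ms : Finset (((Fin (L.n + 1) × Fin L.M) ⊕ Fin L.n) × Bool) :=
      univ.filter (fun v => ∃ w, R v w) with hMs
    have hMc : Ms.card = 2 * F.card := by
      rw [← ff.card, ← Finset.card_image_of_injective Ms hinj]
      congr 1
      ext p
      simp only [hMs, mem_image, mem_filter, mem_univ, true_and, Lay.S]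
      constructor
      · rintro ⟨v, ⟨w, hw⟩, rfl⟩
        exact ⟨⟨v, rfl⟩, ⟨_, hw⟩⟩
      · rintro ⟨⟨v, rfl⟩, ⟨q, hq⟩⟩
        have := (ff.mem _ _ hq).2.1
        simp only [Lay.S, mem_image, mem_univ, true_and] at this
        obtain ⟨w, rfl⟩ := this
        exact ⟨v, ⟨w, hq⟩, rfl⟩
    have hsplit : (Ms.filter (fun v => v.2 = true)).card + (Ms.filter (fun v => ¬ v.2 = true)).card
        = Ms.card := Finset.card_filter_add_card_filter_not _
    have hle : (Ms.filter (fun v => ¬ v.2 = true)).card ≤ (Ms.filter (fun v => v.2 = true)).card := by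
      have hch : ∀ v : ((Fin (L.n + 1) × Fin L.M) ⊕ Fin L.n) × Bool, ∃ w, v ∈ Ms → R v w := by
        intro v
        by_cases hv : v ∈ Ms
        · have := (mem_filter.1 hv).2
          obtain ⟨w, hw⟩ := this
          exact ⟨w, fun _ => hw⟩
        · exact ⟨v, fun h => absurd h hv⟩
      choose g hg using hch
      refine Finset.card_le_card_of_injOn g ?_ ?_
      · intro v hv
        rw [mem_coe, mem_filter] at hv
        rw [mem_coe, mem_filter]
        have h1 := hg v hv.1
        refine ⟨?_, ?_⟩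
        · rw [hMs, mem_filter]
          exact ⟨mem_univ _, v, r1 _ _ h1⟩
        · rw [r3 _ _ h1]
          simpa using hv.2
      · intro v hv w hw he
        rw [mem_coe, mem_filter] at hv hw
        have h1 := hg v hv.1
        have h2 := hg w hw.1
        rw [he] at h1
        exact r2 _ _ _ (r1 _ _ h1) (r1 _ _ h2)
    have hF' : F.card ≤ (Ms.filter (fun v => v.2 = true)).card := by omega
    refine ⟨univ.filter (fun v => ∃ w, R (v, true) w), ?_, ?_⟩
    · have h3 : (Ms.filter (fun v => v.2 = true)).card ≤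
          (univ.filter (fun v => ∃ w, R (v, true) w)).card := by
        refine Finset.card_le_card_of_injOn (fun v => v.1) ?_ ?_
        · intro v hv
          rw [mem_coe, mem_filter] at hv
          rw [mem_coe, mem_filter]
          refine ⟨mem_univ _, ?_⟩
          have h4 := (mem_filter.1 hv.1).2
          obtain ⟨w, hw⟩ := h4
          refine ⟨w, ?_⟩
          have : v = (v.1, true) := Prod.ext rfl hv.2
          rw [this] at hw
          exact hw
        · intro v hv w hw he
          rw [mem_coe, mem_filter] at hv hw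
          exact Prod.ext he (hv.2.trans hw.2.symm)
      have h4 : Fintype.card (Fin (L.n + 1) × Fin L.M) = (L.n + 1) * L.M := by simp
      rw [h4]
      omega
    · intro v hv
      exact (mem_filter.1 hv).2
  obtain ⟨K, hK, hK'⟩ := h4 (Fin (L.n + 1) × Fin L.M) (Fin L.n) R gap k r1 r2 r3
    (fun t t' β β' h => (h6' t t' β β' h).1) r5 r6 r7 (fun t j => h9 L hL F ff t j) r9
  refine ⟨K, hK, ?_⟩
  intro i hi j hj hij
  refine (h10 L hL i j hij).1 (ff.cr _ _ _ _ (hK' i hi) (hK' j hj) ?_)
  intro he
  rw [Sym2.eq_iff] at he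
  rcases he with ⟨he, _⟩ | ⟨he, _⟩
  · have := hinj he
    simp only [Prod.mk.injEq, Sum.inr.injEq, and_true] at this
    exact absurd this hij.ne
  · have := hinj he
    simp at this

lemma backward (h1 : S_G1) (h5 : S_G5) (h10 : S_G10) (h11 : S_G11) (L : Lay) (hL : L.Good)
    (k : ℕ) (J : Finset (Fin L.n)) (hJ : k ≤ J.card)
    (hok : ∀ i ∈ J, ∀ j ∈ J, i < j → L.Ok i j) :
    ∃ F, IsCrossingFamily L.S F ∧ (L.n + 1) * L.M + k ≤ F.card := by
  classical
  have hinj := (h5 L hL).1
  set I : Finset L.Ix := Finset.disjSum (univ : Finset (Fin (L.n + 1) × Fin L.M)) J with hI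
  set g : L.Ix → Sym2 Pt := fun v => s(L.pt (v, true), L.pt (v, false)) with hg
  have hne : ∀ v : L.Ix, L.pt (v, true) ≠ L.pt (v, false) := by
    intro v he
    have := hinj he
    simp at this
  have hginj : Function.Injective g := by
    intro v w he
    simp only [hg] at he
    rw [Sym2.eq_iff] at he
    rcases he with ⟨he, _⟩ | ⟨he, _⟩
    · have := hinj he
      simpa using this
    · have := hinj he
      simp at this
  have hcr : ∀ v ∈ I, ∀ w ∈ I, v ≠ w →
      Cr (L.pt (v, true)) (L.pt (v, false)) (L.pt (w, true)) (L.pt (w, false)) := by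
    intro v hv w hw hvw
    rcases v with i | i
    · rcases w with j | j
      · exact (h11 L hL).1 i j (fun h => hvw (by rw [h]))
      · exact (h11 L hL).2 i j
    · rcases w with j | j
      · exact Cr_comm ((h11 L hL).2 j i)
      · have hi : i ∈ J := by simpa [hI] using hv
        have hj : j ∈ J := by simpa [hI] using hw
        rcases lt_trichotomy i j with h | h | h
        · exact (h10 L hL i j h).2 (hok i hi j hj h)
        · exact absurd (by rw [h]) hvw
        · exact Cr_comm ((h10 L hL j i h).2 (hok j hj i hi h))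
  refine ⟨I.image g, ⟨?_, ?_⟩, ?_⟩
  · intro e he
    obtain ⟨v, _, rfl⟩ := mem_image.1 he
    refine ⟨?_, ?_⟩
    · simp only [hg, Sym2.mk_isDiag_iff]
      exact hne v
    · intro p hp
      simp only [hg, Sym2.mem_iff] at hp
      rcases hp with rfl | rfl <;> exact mem_image_of_mem _ (mem_univ _)
  · intro a b c d hab hcd hne'
    obtain ⟨v, hv, hv'⟩ := mem_image.1 hab
    obtain ⟨w, hw, hw'⟩ := mem_image.1 hcd
    have hvw : v ≠ w := by
      rintro rfl
      exact hne' (hv'.symm.trans hw')
    have key := hcr v hv w hw hvw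
    simp only [hg] at hv' hw'
    have hab' : a ≠ b := by
      rintro rfl
      have h3 : (s(L.pt (v, true), L.pt (v, false)) : Sym2 Pt).IsDiag := by rw [hv']; simp
      exact hne v (by simpa using h3)
    have hcd' : c ≠ d := by
      rintro rfl
      have h3 : (s(L.pt (w, true), L.pt (w, false)) : Sym2 Pt).IsDiag := by rw [hw']; simp
      exact hne w (by simpa using h3)
    rw [h1 a b c d hab' hcd']
    rw [Sym2.eq_iff] at hv' hw'
    rcases hv' with ⟨rfl, rfl⟩ | ⟨rfl, rfl⟩
    · rcases hw' with ⟨rfl, rfl⟩ | ⟨rfl, rfl⟩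
      · exact key
      · exact Cr_swap_right key
    · rcases hw' with ⟨rfl, rfl⟩ | ⟨rfl, rfl⟩
      · exact Cr_swap_left key
      · exact Cr_swap_left (Cr_swap_right key)
  · rw [card_image_of_injective _ hginj, hI, Finset.card_disjSum]
    simp only [card_univ, Fintype.card_prod, Fintype.card_fin]
    omega

end G12

/-- The forcing theorem. -/
theorem t_G12 (h1 : S_G1) (h2 : S_G2) (h4 : S_G4) (h5 : S_G5) (h6 : S_G6) (h7 : S_G7)
    (h8 : S_G8) (h9 : S_G9) (h10 : S_G10) (h11 : S_G11) : S_G12 := by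
  intro L hL k
  constructor
  · rintro ⟨F, hF, hk⟩
    exact G12.forward h2 h4 h5 h6 h7 h8 h9 h10 L hL k F hF hk
  · rintro ⟨J, hJ, hok⟩
    exact G12.backward h1 h5 h10 h11 L hL k J hJ hok

end Pool.Agent.H606R2.CF
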