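import Pool.Agent.H606R2.CF.Stubs

/-! Task G2: combinatorial facts on crossing families. -/

namespace Pool.Agent.H606R2.CF

theorem g2_or1 (a b : Pt) : orient a b a = 0 := by unfold orient; ring

theorem g2_or2 (a b : Pt) : orient a b b = 0 := by unfold orient; ring

theorem g2_sign {x y : ℤ} (h : x * y < 0) : x.sign + y.sign = 0 := by
  rcases lt_trichotomy x 0 with hx | hx | hx
  · have hy : 0 < y := pos_of_mul_neg_right h hx.le
    rw [Int.sign_eq_neg_one_of_neg hx, Int.sign_eq_one_of_pos hy]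
    norm_num
  · rw [hx, zero_mul] at h
    exact absurd h (lt_irrefl 0)
  · have hy : y < 0 := neg_of_mul_neg_right h hx.le
    rw [Int.sign_eq_neg_one_of_neg hy, Int.sign_eq_one_of_pos hx]
    norm_num

theorem g2_abs_sign (x : ℤ) : |x.sign| ≤ 1 := by
  rcases lt_trichotomy x 0 with hx | hx | hx
  · rw [Int.sign_eq_neg_one_of_neg hx]; norm_num
  · rw [hx]; norm_num
  · rw [Int.sign_eq_one_of_pos hx]; norm_num

open Classical in
theorem t_G2 (hG1 : S_G1) : S_G2 := by
  intro S F hF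
  have mem : ∀ a b, s(a, b) ∈ F → a ∈ S ∧ b ∈ S ∧ a ≠ b := by
    intro a b h
    obtain ⟨h1, h2⟩ := hF.1 _ h
    refine ⟨h2 a (Sym2.mem_mk_left a b), h2 b (Sym2.mem_mk_right a b), ?_⟩
    rintro rfl
    exact h1 rfl
  have cr : ∀ a b c d, s(a, b) ∈ F → s(c, d) ∈ F → s(a, b) ≠ s(c, d) → Cr a b c d := by
    intro a b c d h1 h2 h3
    exact (hG1 a b c d (mem a b h1).2.2 (mem c d h2).2.2).1 (hF.2 a b c d h1 h2 h3)
  have func : ∀ a b c, s(a, b) ∈ F → s(a, c) ∈ F → b = c := by
    intro a b c h1 h2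
    by_contra hne
    have h3 : s(a, b) ≠ s(a, c) := fun h => hne (Sym2.congr_right.1 h)
    have h4 := (cr a b a c h1 h2 h3).1
    rw [g2_or1, zero_mul] at h4
    exact lt_irrefl 0 h4
  have hM : S.filter (fun p => ∃ q, s(p, q) ∈ F) = F.biUnion Sym2.toFinset := by
    ext p
    rw [Finset.mem_filter, Finset.mem_biUnion]
    constructor
    · rintro ⟨_, q, hq⟩
      exact ⟨s(p, q), hq, Sym2.mem_toFinset.2 (Sym2.mem_mk_left p q)⟩
    · rintro ⟨e, he, hp⟩
      rw [Sym2.mem_toFinset] at hp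
      obtain ⟨q, rfl⟩ := hp
      exact ⟨(mem p q he).1, q, he⟩
  have hdisj : ∀ e ∈ F, ∀ e' ∈ F, e ≠ e' → Disjoint (Sym2.toFinset e) (Sym2.toFinset e') := by
    intro e he e' he' hne
    rw [Finset.disjoint_left]
    intro p hp hp'
    rw [Sym2.mem_toFinset] at hp hp'
    obtain ⟨q, rfl⟩ := hp
    obtain ⟨q', rfl⟩ := hp'
    exact hne (by rw [func p q q' he he'])
  have hcard : (S.filter (fun p => ∃ q, s(p, q) ∈ F)).card = 2 * F.card := by
    rw [hM, Finset.card_biUnion hdisj,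
      Finset.sum_congr rfl (fun e he => Sym2.card_toFinset_of_not_isDiag e (hF.1 e he).1)]
    rw [Finset.sum_const, smul_eq_mul, mul_comm]
  refine ⟨mem, cr, func, hcard, ?_⟩
  intro a b hab
  have hzero : ∑ z ∈ S.filter (fun p => ∃ q, s(p, q) ∈ F), (orient a b z).sign = 0 := by
    rw [hM, Finset.sum_biUnion hdisj]
    refine Finset.sum_eq_zero fun e he => ?_
    induction e using Sym2.ind with
    | _ c d =>
      have hcd := (mem c d he).2.2
      rw [Sym2.toFinset_mk_eq, Finset.sum_pair hcd]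
      by_cases h : s(a, b) = s(c, d)
      · rcases Sym2.eq_iff.1 h with ⟨rfl, rfl⟩ | ⟨rfl, rfl⟩
        · rw [g2_or1, g2_or2]; rfl
        · rw [g2_or1, g2_or2]; rfl
      · exact g2_sign (cr a b c d hab he h).1
  rw [← Finset.sum_filter_add_sum_filter_not S (fun p => ∃ q, s(p, q) ∈ F), hzero, zero_add]
  have h1 : |∑ z ∈ S.filter (fun p => ¬ ∃ q, s(p, q) ∈ F), (orient a b z).sign| ≤
      ((S.filter (fun p => ¬ ∃ q, s(p, q) ∈ F)).card : ℤ) := by
    refine (Finset.abs_sum_le_sum_abs _ _).trans ?_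
    refine (Finset.sum_le_sum fun z _ => g2_abs_sign (orient a b z)).trans ?_
    simp
  refine h1.trans (le_of_eq ?_)
  have h2 := Finset.card_filter_add_card_filter_not (s := S) (fun p => ∃ q, s(p, q) ∈ F)
  rw [hcard] at h2
  omega

end Pool.Agent.H606R2.CF
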