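import Pool.Agent.H606R2.CF.Stubs

set_option autoImplicit false

namespace Pool.Agent.H606R2.CF

open Finset

theorem t_G3 : S_G3 := by
  classical
  intro S k
  have hne : {m | ∃ F, IsCrossingFamily S F ∧ F.card = m}.Nonempty :=
    ⟨0, ∅, ⟨fun e he => absurd he (notMem_empty e),
      fun a b c d h => absurd h (notMem_empty _)⟩, rfl⟩
  have hbd : BddAbove {m | ∃ F, IsCrossingFamily S F ∧ F.card = m} := by
    refine ⟨S.sym2.card, ?_⟩
    rintro m ⟨F, hF, rfl⟩
    apply card_le_card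
    intro e he
    rw [mem_sym2_iff]
    exact (hF.1 e he).2
  constructor
  · intro hk
    obtain ⟨F, hF, hc⟩ := Nat.sSup_mem hne hbd
    exact ⟨F, hF, by rw [hc]; exact hk⟩
  · rintro ⟨F, hF, hk⟩
    exact hk.trans (le_csSup hbd ⟨F, hF, rfl⟩)

end Pool.Agent.H606R2.CF
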