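import Pool.Agent.H606R2.CF.Stubs

set_option autoImplicit false

namespace Pool.Agent.H606R2.CF

open Classical in
theorem t_G4 : S_G4 := by
  intro T J _ _ _ _ R gap k hsym hfun hside hT hJ hgap hRg hex ⟨U, hU, hUm⟩
  let K : Finset J := Finset.univ.filter (fun j => R (Sum.inr j, true) (Sum.inr j, false))
  refine ⟨K, ?_, fun j hj => (Finset.mem_filter.mp hj).2⟩
  have key : ∀ j : J, ¬ R (Sum.inr j, true) (Sum.inr j, false) → ∃ v : T ⊕ J,
      (∀ w, ¬ R (v, true) w) ∧ (v = Sum.inr j ∨ ∃ t, v = Sum.inl t ∧ gap t j) := by
    intro j hj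
    by_cases h : ∃ w, R (Sum.inr j, true) w
    · obtain ⟨⟨x, b⟩, hw⟩ := h
      have hb := hside _ _ hw
      simp only [Bool.not_true] at hb
      subst hb
      rcases x with t | i
      · have hg := hRg t j _ _ hw
        refine ⟨Sum.inl t, ?_, Or.inr ⟨t, rfl, hg⟩⟩
        rintro ⟨y, b⟩ hy
        have hb := hside _ _ hy
        simp only [Bool.not_true] at hb
        subst hb
        rcases y with t' | i
        · have htt := hT _ _ _ _ hy
          subst htt
          have h1 := hsym _ _ hy
          have h2 := hsym _ _ hw
          have h3 := hfun _ _ _ h1 h2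
          simp at h3
        · have hi := hRg t i _ _ (hsym _ _ hy)
          have hij := hgap t i j hi hg
          subst hij
          exact hex t i ⟨hw, hy⟩
      · have := hJ _ _ _ _ hw
        subst this
        exact absurd hw hj
    · exact ⟨Sum.inr j, fun w hw => h ⟨w, hw⟩, Or.inl rfl⟩
  choose! phi hphi using key
  have hcard : (Finset.univ \ K).card ≤ (Finset.univ \ U).card := by
    apply Finset.card_le_card_of_injOn phi
    · intro j hj
      have hj' : ¬ R (Sum.inr j, true) (Sum.inr j, false) := by
        have := (Finset.mem_sdiff.mp (Finset.mem_coe.mp hj)).2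
        intro h
        exact this (Finset.mem_filter.mpr ⟨Finset.mem_univ _, h⟩)
      rw [Finset.mem_coe, Finset.mem_sdiff]
      refine ⟨Finset.mem_univ _, fun hU' => ?_⟩
      obtain ⟨w, hw⟩ := hUm _ hU'
      exact (hphi j hj').1 w hw
    · intro j hj j' hj' he
      have hb : ∀ j ∈ (↑(Finset.univ \ K) : Set J), ¬ R (Sum.inr j, true) (Sum.inr j, false) := by
        intro j hj h
        exact (Finset.mem_sdiff.mp (Finset.mem_coe.mp hj)).2
          (Finset.mem_filter.mpr ⟨Finset.mem_univ _, h⟩)
      have h1 := (hphi j (hb j hj)).2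
      have h2 := (hphi j' (hb j' hj')).2
      rw [he] at h1
      rcases h1 with h1 | ⟨t, h1, hg⟩ <;> rcases h2 with h2 | ⟨t', h2, hg'⟩
      · rw [h1] at h2
        exact Sum.inr.inj h2
      · rw [h1] at h2
        cases h2
      · rw [h1] at h2
        cases h2
      · rw [h1] at h2
        have := Sum.inl.inj h2
        subst this
        exact hgap _ _ _ hg hg'
  have h1 : (Finset.univ \ K).card = Fintype.card J - K.card := by
    rw [Finset.card_sdiff_of_subset (Finset.subset_univ _), Finset.card_univ]
  have h2 : (Finset.univ \ U).card = Fintype.card T + Fintype.card J - U.card := by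
    rw [Finset.card_sdiff_of_subset (Finset.subset_univ _), Finset.card_univ, Fintype.card_sum]
  have h3 : K.card ≤ Fintype.card J := Finset.card_le_univ K
  have h4 : U.card ≤ Fintype.card T + Fintype.card J := by
    have := Finset.card_le_univ U
    rwa [Fintype.card_sum] at this
  omega

end Pool.Agent.H606R2.CF
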