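import Pool.Agent.H606R2.CF.Stubs

/-! G5: the points are different. -/

set_option autoImplicit false

namespace Pool.Agent.H606R2.CF

namespace G5

theorem base_inj {L : Lay} (hL : L.Good) {i i' : Fin (L.n + 1)} {k k' : Fin L.M}
    (h : L.t i k = L.t i' k') : (i, k) = (i', k') := by
  rcases lt_trichotomy i i' with hi | hi | hi
  · exact absurd h (hL.tlt i i' k k' hi).ne
  · subst hi
    rw [hL.tinj i k k' h]
  · exact absurd h (hL.tlt i' i k' k hi).ne'

/-- the slots are not zero at the base positions -/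
theorem slot_ne {L : Lay} (hL : L.Good) (j : Fin L.n) (i : Fin (L.n + 1)) (k : Fin L.M) :
    L.a j * (L.t i k - L.x j) + L.h j ≠ 0 ∧ -(L.b j * (L.t i k - L.x j)) + L.h j ≠ 0 := by
  rcases le_or_gt i j.castSucc with hi | hi
  · exact ⟨(hL.left j i k hi).1.ne, (hL.left j i k hi).2.ne'⟩
  · exact ⟨(hL.right j i k hi).1.ne', (hL.right j i k hi).2.ne⟩

theorem up_slots {L : Lay} (hL : L.Good) {i j : Fin L.n} (hij : i < j)
    (h : up (L.x i) (L.h i) (L.a i) = up (L.x j) (L.h j) (L.a j)) : False := by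
  have hM : 0 < L.M := by
    have := hL.hM
    omega
  have h1 := (hL.right i j.castSucc ⟨0, hM⟩ (by simpa using hij)).1
  have h2 := (hL.left j j.castSucc ⟨0, hM⟩ le_rfl).1
  unfold up at h
  rw [Prod.mk.injEq] at h
  obtain ⟨e1, e2⟩ := h
  have e3 : L.a i * (L.t j.castSucc ⟨0, hM⟩ - L.x i) + L.h i =
      L.a j * (L.t j.castSucc ⟨0, hM⟩ - L.x j) + L.h j := by
    linear_combination (L.t j.castSucc ⟨0, hM⟩) * e1 - e2
  linarith

theorem dn_slots {L : Lay} (hL : L.Good) {i j : Fin L.n} (hij : i < j)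
    (h : dn (L.x i) (L.h i) (L.b i) = dn (L.x j) (L.h j) (L.b j)) : False := by
  have hM : 0 < L.M := by
    have := hL.hM
    omega
  have h1 := (hL.right i j.castSucc ⟨0, hM⟩ (by simpa using hij)).2
  have h2 := (hL.left j j.castSucc ⟨0, hM⟩ le_rfl).2
  unfold dn at h
  rw [Prod.mk.injEq] at h
  obtain ⟨e1, e2⟩ := h
  have e3 : -(L.b i * (L.t j.castSucc ⟨0, hM⟩ - L.x i)) + L.h i =
      -(L.b j * (L.t j.castSucc ⟨0, hM⟩ - L.x j)) + L.h j := by
    linear_combination (L.t j.castSucc ⟨0, hM⟩) * e1 - e2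
  linarith

theorem base_up {L : Lay} (hL : L.Good) (i : Fin (L.n + 1)) (k : Fin L.M) (j : Fin L.n)
    (h : up (L.t i k) 0 L.A = up (L.x j) (L.h j) (L.a j)) : False := by
  unfold up at h
  rw [Prod.mk.injEq] at h
  obtain ⟨e1, e2⟩ := h
  apply (slot_ne hL j i k).1
  linear_combination -(L.t i k) * e1 + e2

theorem base_dn {L : Lay} (hL : L.Good) (i : Fin (L.n + 1)) (k : Fin L.M) (j : Fin L.n)
    (h : dn (L.t i k) 0 L.A = dn (L.x j) (L.h j) (L.b j)) : False := by
  unfold dn at h
  rw [Prod.mk.injEq] at h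
  obtain ⟨e1, e2⟩ := h
  apply (slot_ne hL j i k).2
  linear_combination -(L.t i k) * e1 + e2

theorem up_dn {x h a x' h' b : ℤ} (ha : 0 < a) (hb : 0 < b) (e : up x h a = dn x' h' b) :
    False := by
  unfold up dn at e
  rw [Prod.mk.injEq] at e
  have := e.1
  linarith

theorem inj {L : Lay} (hL : L.Good) : Function.Injective L.pt := by
  rintro ⟨⟨i, k⟩ | j, β⟩ ⟨⟨i', k'⟩ | j', β'⟩ h
  · cases β <;> cases β'
    · have h' : dn (L.t i k) 0 L.A = dn (L.t i' k') 0 L.A := h
      unfold dn at h'
      rw [Prod.mk.injEq] at h'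
      have h2 : L.A * (L.t i k - L.t i' k') = 0 := by linear_combination -h'.2
      have h3 : L.t i k - L.t i' k' = 0 := by
        rcases mul_eq_zero.1 h2 with h4 | h4
        · exact absurd h4 hL.Apos.ne'
        · exact h4
      rw [base_inj hL (sub_eq_zero.1 h3)]
    · exact (up_dn hL.Apos hL.Apos h.symm).elim
    · exact (up_dn hL.Apos hL.Apos h).elim
    · have h' : up (L.t i k) 0 L.A = up (L.t i' k') 0 L.A := h
      unfold up at h'
      rw [Prod.mk.injEq] at h'
      have h2 : L.A * (L.t i k - L.t i' k') = 0 := by linear_combination h'.2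
      have h3 : L.t i k - L.t i' k' = 0 := by
        rcases mul_eq_zero.1 h2 with h4 | h4
        · exact absurd h4 hL.Apos.ne'
        · exact h4
      rw [base_inj hL (sub_eq_zero.1 h3)]
  · cases β <;> cases β'
    · exact (base_dn hL i k j' h).elim
    · exact (up_dn (hL.apos j') hL.Apos h.symm).elim
    · exact (up_dn hL.Apos (hL.bpos j') h).elim
    · exact (base_up hL i k j' h).elim
  · cases β <;> cases β'
    · exact (base_dn hL i' k' j h.symm).elim
    · exact (up_dn hL.Apos (hL.bpos j) h.symm).elim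
    · exact (up_dn (hL.apos j) hL.Apos h).elim
    · exact (base_up hL i' k' j h.symm).elim
  · cases β <;> cases β'
    · rcases lt_trichotomy j j' with hj | hj | hj
      · exact (dn_slots hL hj h).elim
      · rw [hj]
      · exact (dn_slots hL hj h.symm).elim
    · exact (up_dn (hL.apos j') (hL.bpos j) h.symm).elim
    · exact (up_dn (hL.apos j) (hL.bpos j') h).elim
    · rcases lt_trichotomy j j' with hj | hj | hj
      · exact (up_slots hL hj h).elim
      · rw [hj]
      · exact (up_slots hL hj h.symm).elim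

end G5

theorem t_G5 : S_G5 := by
  intro L hL
  refine ⟨G5.inj hL, ?_⟩
  unfold Lay.S
  rw [Finset.card_image_of_injective _ (G5.inj hL), Finset.card_univ]
  simp only [Fintype.card_prod, Fintype.card_sum, Fintype.card_fin, Fintype.card_bool]
  ring

end Pool.Agent.H606R2.CF
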