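import Pool.Agent.H606R2.CF.Stubs

/-! G6: base points are matched to twins only (helper708). -/

namespace Pool.Agent.H606R2.CF

open Finset

namespace G6

theorem sum_ix (L : Lay) (f : L.Ix × Bool → ℤ) :
    ∑ v, f v = (∑ i : Fin (L.n + 1) × Fin L.M, (f (Sum.inl i, true) + f (Sum.inl i, false))) +
      ∑ j : Fin L.n, (f (Sum.inr j, true) + f (Sum.inr j, false)) := by
  rw [Fintype.sum_prod_type]
  simp only [Fintype.sum_bool]
  rw [Fintype.sum_sum_type]

theorem sign_pos {z : ℤ} (h : 0 < z) : z.sign = 1 := Int.sign_eq_one_of_pos h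

theorem sign_neg {z : ℤ} (h : z < 0) : z.sign = -1 := Int.sign_eq_neg_one_of_neg h

theorem sign_nonneg {z : ℤ} (h : 0 ≤ z) : 0 ≤ z.sign := by
  rcases h.lt_or_eq with h1 | h1
  · rw [sign_pos h1]; norm_num
  · rw [← h1]; simp

theorem sign_le (z : ℤ) : z.sign ≤ 1 := by
  rcases lt_trichotomy z 0 with h1 | h1 | h1
  · rw [sign_neg h1]; norm_num
  · rw [h1]; simp
  · rw [sign_pos h1]

theorem sign_ge (z : ℤ) : -1 ≤ z.sign := by
  rcases lt_trichotomy z 0 with h1 | h1 | h1
  · rw [sign_neg h1]
  · rw [h1]; simp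
  · rw [sign_pos h1]; norm_num

/-- the total sign over the configuration -/
theorem total (hG5 : S_G5) (L : Lay) (hL : L.Good) (F : Finset (Sym2 Pt)) (hF : FamFacts L.S F)
    (hcard : (L.n + 1) * L.M ≤ F.card) (p q : Pt) (h : s(p, q) ∈ F) :
    |∑ v, (orient p q (L.pt v)).sign| ≤ 2 * L.n := by
  obtain ⟨hinj, hS⟩ := hG5 L hL
  have h1 := hF.halving p q h
  have h2 : ∑ z ∈ L.S, (orient p q z).sign = ∑ v, (orient p q (L.pt v)).sign := by
    unfold Lay.S
    rw [Finset.sum_image (fun a _ b _ hab => hinj hab)]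
  rw [h2, hS] at h1
  refine h1.trans ?_
  push_cast
  have : (((L.n + 1) * L.M : ℕ) : ℤ) ≤ F.card := by exact_mod_cast hcard
  push_cast at this
  linarith

/-- rising against falling -/
theorem up_dn (hG5 : S_G5) (L : Lay) (hL : L.Good) (F : Finset (Sym2 Pt)) (hF : FamFacts L.S F)
    (hcard : (L.n + 1) * L.M ≤ F.card) (i i' : Fin (L.n + 1) × Fin L.M)
    (ht : L.t i.1 i.2 ≠ L.t i'.1 i'.2)
    (h : s(L.pt (Sum.inl i, true), L.pt (Sum.inl i', false)) ∈ F) : False := by
  have htot := total hG5 L hL F hF hcard _ _ h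
  have hA := hL.Apos
  set A := L.A with hAdef
  set t := L.t i.1 i.2 with htdef
  set t' := L.t i'.1 i'.2 with ht'def
  have hor : ∀ r : Pt, orient (L.pt (Sum.inl i, true)) (L.pt (Sum.inl i', false)) r =
      A * (A * (t - t') + (t + t') * r.1 - 2 * r.2) := by
    intro r
    simp only [orient, Lay.pt, up, dn]
    ring
  have hbt : ∀ k : Fin (L.n + 1) × Fin L.M,
      orient (L.pt (Sum.inl i, true)) (L.pt (Sum.inl i', false)) (L.pt (Sum.inl k, true)) =
        2 * A ^ 2 * (t - L.t k.1 k.2) := by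
    intro k
    rw [hor]
    simp only [Lay.pt, up]
    ring
  have hbf : ∀ k : Fin (L.n + 1) × Fin L.M,
      orient (L.pt (Sum.inl i, true)) (L.pt (Sum.inl i', false)) (L.pt (Sum.inl k, false)) =
        2 * A ^ 2 * (L.t k.1 k.2 - t') := by
    intro k
    rw [hor]
    simp only [Lay.pt, dn]
    ring
  have hA2 : 0 < 2 * A ^ 2 := by positivity
  rcases lt_or_gt_of_ne ht with hlt | hgt
  · -- t < t'
    have hsl : ∀ (j : Fin L.n) (β : Bool),
        (orient (L.pt (Sum.inl i, true)) (L.pt (Sum.inl i', false)) (L.pt (Sum.inr j, β))).sign = -1 := by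
      intro j β
      apply sign_neg
      rw [hor]
      have hb := hL.Abig (Sum.inr j, β) j rfl i'.1 i'.2 i.1 i.2 hlt
      rw [abs_lt] at hb
      have : A * (t - t') + (t + t') * (L.pt (Sum.inr j, β)).1 - 2 * (L.pt (Sum.inr j, β)).2 < 0 := by
        linarith [hb.1]
      exact mul_neg_of_pos_of_neg hA this
    have hbase : ∀ k : Fin (L.n + 1) × Fin L.M,
        (orient (L.pt (Sum.inl i, true)) (L.pt (Sum.inl i', false)) (L.pt (Sum.inl k, true))).sign +
        (orient (L.pt (Sum.inl i, true)) (L.pt (Sum.inl i', false)) (L.pt (Sum.inl k, false))).sign ≤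
          (if k = i then -1 else 0) := by
      intro k
      rw [hbt, hbf]
      by_cases hk : k = i
      · subst hk
        rw [if_pos rfl]
        have e1 : 2 * A ^ 2 * (t - L.t k.1 k.2) = 0 := by rw [← htdef]; ring
        have e2 : 2 * A ^ 2 * (L.t k.1 k.2 - t') < 0 := by
          apply mul_neg_of_pos_of_neg hA2; linarith
        rw [e1, sign_neg e2]; simp
      · rw [if_neg hk]
        rcases lt_trichotomy (L.t k.1 k.2) t with h1 | h1 | h1
        · have e1 : 0 < 2 * A ^ 2 * (t - L.t k.1 k.2) := mul_pos hA2 (by linarith)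
          have e2 : 2 * A ^ 2 * (L.t k.1 k.2 - t') < 0 := mul_neg_of_pos_of_neg hA2 (by linarith)
          rw [sign_pos e1, sign_neg e2]; norm_num
        · have e1 : 2 * A ^ 2 * (t - L.t k.1 k.2) = 0 := by rw [h1]; ring
          have e2 : 2 * A ^ 2 * (L.t k.1 k.2 - t') < 0 := mul_neg_of_pos_of_neg hA2 (by linarith)
          rw [e1, sign_neg e2]; norm_num
        · have e1 : 2 * A ^ 2 * (t - L.t k.1 k.2) < 0 := mul_neg_of_pos_of_neg hA2 (by linarith)
          rw [sign_neg e1]
          have := sign_le (2 * A ^ 2 * (L.t k.1 k.2 - t'))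
          linarith
    rw [sum_ix] at htot
    have s1 : ∑ k : Fin (L.n + 1) × Fin L.M,
        ((orient (L.pt (Sum.inl i, true)) (L.pt (Sum.inl i', false)) (L.pt (Sum.inl k, true))).sign +
        (orient (L.pt (Sum.inl i, true)) (L.pt (Sum.inl i', false)) (L.pt (Sum.inl k, false))).sign) ≤ -1 := by
      refine (Finset.sum_le_sum fun k _ => hbase k).trans ?_
      rw [Finset.sum_ite_eq']
      simp
    have s2 : ∑ j : Fin L.n,
        ((orient (L.pt (Sum.inl i, true)) (L.pt (Sum.inl i', false)) (L.pt (Sum.inr j, true))).sign +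
        (orient (L.pt (Sum.inl i, true)) (L.pt (Sum.inl i', false)) (L.pt (Sum.inr j, false))).sign) =
          -(2 * L.n) := by
      rw [Finset.sum_congr rfl (fun j _ => by rw [hsl j true, hsl j false])]
      rw [Finset.sum_const, Finset.card_univ, Fintype.card_fin]
      simp
      ring
    rw [s2] at htot
    have := neg_abs_le (∑ k : Fin (L.n + 1) × Fin L.M,
        ((orient (L.pt (Sum.inl i, true)) (L.pt (Sum.inl i', false)) (L.pt (Sum.inl k, true))).sign +
        (orient (L.pt (Sum.inl i, true)) (L.pt (Sum.inl i', false)) (L.pt (Sum.inl k, false))).sign) +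
        -(2 * (L.n : ℤ)))
    linarith
  · -- t' < t
    have hsl : ∀ (j : Fin L.n) (β : Bool),
        (orient (L.pt (Sum.inl i, true)) (L.pt (Sum.inl i', false)) (L.pt (Sum.inr j, β))).sign = 1 := by
      intro j β
      apply sign_pos
      rw [hor]
      have hb := hL.Abig (Sum.inr j, β) j rfl i.1 i.2 i'.1 i'.2 hgt
      rw [abs_lt] at hb
      have : 0 < A * (t - t') + (t + t') * (L.pt (Sum.inr j, β)).1 - 2 * (L.pt (Sum.inr j, β)).2 := by
        linarith [hb.2]
      exact mul_pos hA this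
    have hbase : ∀ k : Fin (L.n + 1) × Fin L.M, (if k = i then 1 else 0) ≤
        (orient (L.pt (Sum.inl i, true)) (L.pt (Sum.inl i', false)) (L.pt (Sum.inl k, true))).sign +
        (orient (L.pt (Sum.inl i, true)) (L.pt (Sum.inl i', false)) (L.pt (Sum.inl k, false))).sign := by
      intro k
      rw [hbt, hbf]
      by_cases hk : k = i
      · subst hk
        rw [if_pos rfl]
        have e1 : 2 * A ^ 2 * (t - L.t k.1 k.2) = 0 := by rw [← htdef]; ring
        have e2 : 0 < 2 * A ^ 2 * (L.t k.1 k.2 - t') := mul_pos hA2 (by linarith)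
        rw [e1, sign_pos e2]; simp
      · rw [if_neg hk]
        rcases lt_trichotomy (L.t k.1 k.2) t with h1 | h1 | h1
        · have e1 : 0 < 2 * A ^ 2 * (t - L.t k.1 k.2) := mul_pos hA2 (by linarith)
          rw [sign_pos e1]
          have := sign_ge (2 * A ^ 2 * (L.t k.1 k.2 - t'))
          linarith
        · have e1 : 2 * A ^ 2 * (t - L.t k.1 k.2) = 0 := by rw [h1]; ring
          have e2 : 0 < 2 * A ^ 2 * (L.t k.1 k.2 - t') := mul_pos hA2 (by linarith)
          rw [e1, sign_pos e2]; norm_num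
        · have e1 : 2 * A ^ 2 * (t - L.t k.1 k.2) < 0 := mul_neg_of_pos_of_neg hA2 (by linarith)
          have e2 : 0 < 2 * A ^ 2 * (L.t k.1 k.2 - t') := mul_pos hA2 (by linarith)
          rw [sign_neg e1, sign_pos e2]; norm_num
    rw [sum_ix] at htot
    have s1 : 1 ≤ ∑ k : Fin (L.n + 1) × Fin L.M,
        ((orient (L.pt (Sum.inl i, true)) (L.pt (Sum.inl i', false)) (L.pt (Sum.inl k, true))).sign +
        (orient (L.pt (Sum.inl i, true)) (L.pt (Sum.inl i', false)) (L.pt (Sum.inl k, false))).sign) := by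
      refine le_trans ?_ (Finset.sum_le_sum fun k _ => hbase k)
      rw [Finset.sum_ite_eq']
      simp
    have s2 : ∑ j : Fin L.n,
        ((orient (L.pt (Sum.inl i, true)) (L.pt (Sum.inl i', false)) (L.pt (Sum.inr j, true))).sign +
        (orient (L.pt (Sum.inl i, true)) (L.pt (Sum.inl i', false)) (L.pt (Sum.inr j, false))).sign) =
          2 * L.n := by
      rw [Finset.sum_congr rfl (fun j _ => by rw [hsl j true, hsl j false])]
      rw [Finset.sum_const, Finset.card_univ, Fintype.card_fin]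
      simp
      ring
    rw [s2] at htot
    have := le_abs_self (∑ k : Fin (L.n + 1) × Fin L.M,
        ((orient (L.pt (Sum.inl i, true)) (L.pt (Sum.inl i', false)) (L.pt (Sum.inl k, true))).sign +
        (orient (L.pt (Sum.inl i, true)) (L.pt (Sum.inl i', false)) (L.pt (Sum.inl k, false))).sign) +
        (2 * (L.n : ℤ)))
    linarith

/-- a weighted count: if all signs agree with `s` weakly and the base signs of one kind strictly -/
theorem count (L : Lay) (hL : L.Good) (f : L.Ix × Bool → ℤ) (β : Bool)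
    (hnn : ∀ v, 0 ≤ f v) (hβ : ∀ i, 1 ≤ f (Sum.inl i, β)) : 2 * (L.n : ℤ) + 1 ≤ ∑ v, f v := by
  rw [sum_ix]
  have h1 : ∀ i : Fin (L.n + 1) × Fin L.M, 1 ≤ f (Sum.inl i, true) + f (Sum.inl i, false) := by
    intro i
    cases β with
    | true => linarith [hβ i, hnn (Sum.inl i, false)]
    | false => linarith [hβ i, hnn (Sum.inl i, true)]
  have h2 : ∑ i : Fin (L.n + 1) × Fin L.M, (1 : ℤ) ≤
      ∑ i : Fin (L.n + 1) × Fin L.M, (f (Sum.inl i, true) + f (Sum.inl i, false)) :=
    Finset.sum_le_sum fun i _ => h1 i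
  have h3 : 0 ≤ ∑ j : Fin L.n, (f (Sum.inr j, true) + f (Sum.inr j, false)) :=
    Finset.sum_nonneg fun j _ => add_nonneg (hnn _) (hnn _)
  rw [Finset.sum_const, Finset.card_univ, Fintype.card_prod, Fintype.card_fin, Fintype.card_fin,
    nsmul_eq_mul, mul_one] at h2
  have h4 : 2 * L.n + 1 ≤ (L.n + 1) * L.M := by
    have := hL.hM
    calc 2 * L.n + 1 ≤ L.M := this
      _ = 1 * L.M := (one_mul _).symm
      _ ≤ (L.n + 1) * L.M := Nat.mul_le_mul_right _ (by omega)
  have h5 : ((2 * L.n + 1 : ℕ) : ℤ) ≤ (((L.n + 1) * L.M : ℕ) : ℤ) := by exact_mod_cast h4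
  push_cast at h5 h2
  linarith

/-- first coordinates -/
theorem fst_le (L : Lay) (hL : L.Good) (v : L.Ix × Bool) : (L.pt v).1 ≤ L.A ∧ -L.A ≤ (L.pt v).1 := by
  have hA := hL.Apos
  obtain ⟨x, β⟩ := v
  cases x with
  | inl i =>
    cases β with
    | true => simp only [Lay.pt, up]; constructor <;> linarith
    | false => simp only [Lay.pt, dn]; constructor <;> linarith
  | inr j =>
    cases β with
    | true => simp only [Lay.pt, up]; constructor <;> linarith [hL.Aa j, hL.apos j]
    | false => simp only [Lay.pt, dn]; constructor <;> linarith [hL.Ab j, hL.bpos j]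

/-- same side -/
theorem same (hG5 : S_G5) (L : Lay) (hL : L.Good) (F : Finset (Sym2 Pt)) (hF : FamFacts L.S F)
    (hcard : (L.n + 1) * L.M ≤ F.card) (i i' : Fin (L.n + 1) × Fin L.M) (β : Bool)
    (ht : L.t i.1 i.2 ≠ L.t i'.1 i'.2)
    (h : s(L.pt (Sum.inl i, β), L.pt (Sum.inl i', β)) ∈ F) : False := by
  have htot := total hG5 L hL F hF hcard _ _ h
  have hA := hL.Apos
  -- a uniform description of the orientation
  obtain ⟨G, hG0, hG1, hG2⟩ : ∃ G : L.Ix × Bool → ℤ, (∀ v, 0 ≤ G v) ∧
      (∀ k, 0 < G (Sum.inl k, !β)) ∧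
      ∀ v, orient (L.pt (Sum.inl i, β)) (L.pt (Sum.inl i', β)) (L.pt v) =
        (L.t i'.1 i'.2 - L.t i.1 i.2) * (L.A * G v) := by
    cases β with
    | true =>
      refine ⟨fun v => L.A - (L.pt v).1, fun v => ?_, fun k => ?_, fun v => ?_⟩
      · linarith [(fst_le L hL v).1]
      · simp only [Lay.pt, dn, Bool.not_true]; linarith
      · simp only [orient, Lay.pt, up]; ring
    | false =>
      refine ⟨fun v => (L.pt v).1 + L.A, fun v => ?_, fun k => ?_, fun v => ?_⟩
      · linarith [(fst_le L hL v).2]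
      · simp only [Lay.pt, up, Bool.not_false]; linarith
      · simp only [orient, Lay.pt, dn]; ring
  rcases lt_or_gt_of_ne ht with hlt | hgt
  · have hc := count L hL (fun v => (orient (L.pt (Sum.inl i, β)) (L.pt (Sum.inl i', β)) (L.pt v)).sign)
      (!β) (fun v => ?_) (fun k => ?_)
    · have := le_abs_self (∑ v, (orient (L.pt (Sum.inl i, β)) (L.pt (Sum.inl i', β)) (L.pt v)).sign)
      linarith
    · apply sign_nonneg
      rw [hG2]
      exact mul_nonneg (by linarith) (mul_nonneg hA.le (hG0 v))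
    · have : 0 < orient (L.pt (Sum.inl i, β)) (L.pt (Sum.inl i', β)) (L.pt (Sum.inl k, !β)) := by
        rw [hG2]
        exact mul_pos (by linarith) (mul_pos hA (hG1 k))
      show 1 ≤ (orient _ _ _).sign
      rw [sign_pos this]
  · have hc := count L hL (fun v => -(orient (L.pt (Sum.inl i, β)) (L.pt (Sum.inl i', β)) (L.pt v)).sign)
      (!β) (fun v => ?_) (fun k => ?_)
    · rw [Finset.sum_neg_distrib] at hc
      have := neg_abs_le (∑ v, (orient (L.pt (Sum.inl i, β)) (L.pt (Sum.inl i', β)) (L.pt v)).sign)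
      linarith
    · rw [← Int.sign_neg]
      apply sign_nonneg
      rw [hG2, ← neg_mul]
      exact mul_nonneg (by linarith) (mul_nonneg hA.le (hG0 v))
    · have : orient (L.pt (Sum.inl i, β)) (L.pt (Sum.inl i', β)) (L.pt (Sum.inl k, !β)) < 0 := by
        rw [hG2]
        exact mul_neg_of_neg_of_pos (by linarith) (mul_pos hA (hG1 k))
      show 1 ≤ -(orient _ _ _).sign
      rw [sign_neg this]
      norm_num

end G6

open G6 in
theorem t_G6 (hG5 : S_G5) : S_G6 := by
  intro L hL F hF hcard i i' β β' h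
  by_cases hii : i = i'
  · refine ⟨hii, ?_⟩
    subst hii
    by_contra hne
    have : β' = β := by
      cases β <;> cases β' <;> simp_all
    rw [this] at h
    exact (hF.mem _ _ h).2.2 rfl
  · exfalso
    have ht : L.t i.1 i.2 ≠ L.t i'.1 i'.2 := by
      intro he
      rcases lt_trichotomy i.1 i'.1 with h1 | h1 | h1
      · exact absurd he (hL.tlt _ _ _ _ h1).ne
      · apply hii
        have he' : L.t i.1 i.2 = L.t i.1 i'.2 := by rw [he, h1]
        exact Prod.ext h1 (hL.tinj _ _ _ he')
      · exact absurd he.symm (hL.tlt _ _ _ _ h1).ne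
    cases β with
    | true =>
      cases β' with
      | true => exact same hG5 L hL F hF hcard i i' true ht h
      | false => exact up_dn hG5 L hL F hF hcard i i' ht h
    | false =>
      cases β' with
      | true =>
        rw [Sym2.eq_swap] at h
        exact up_dn hG5 L hL F hF hcard i' i ht.symm h
      | false => exact same hG5 L hL F hF hcard i i' false ht h

end Pool.Agent.H606R2.CF
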