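import Pool.Agent.H606R2.CF.Stubs

/-! Task G7 (helper672): each bundle contains a matched pair of twins. -/

namespace Pool.Agent.H606R2.CF

open Finset

open Classical in
theorem t_G7 (hG5 : S_G5) (hG6 : S_G6) : S_G7 := by
  intro L hL F hF hcard i
  obtain ⟨hinj, hS⟩ := hG5 L hL
  by_contra hno
  push Not at hno
  set f : Fin L.M × Bool → Pt := fun b => L.pt (Sum.inl (i, b.1), b.2) with hf
  have hfinj : Function.Injective f := by
    intro b b' h
    have h1 := hinj h
    rw [Prod.mk.injEq, Sum.inl.injEq, Prod.mk.injEq] at h1
    exact Prod.ext h1.1.2 h1.2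
  have hfS : ∀ b, f b ∈ L.S := fun b =>
    Finset.mem_image.2 ⟨(Sum.inl (i, b.1), b.2), Finset.mem_univ _, rfl⟩
  -- unmatched points
  have hU : ((univ : Finset (Fin L.M × Bool)).filter fun b => ¬ ∃ q, s(f b, q) ∈ F).card ≤
      2 * L.n := by
    have h1 : ((univ : Finset (Fin L.M × Bool)).filter fun b => ¬ ∃ q, s(f b, q) ∈ F).card ≤
        (L.S.filter fun p => ¬ ∃ q, s(p, q) ∈ F).card := by
      refine Finset.card_le_card_of_injOn f ?_ hfinj.injOn
      intro b hb
      have hb' := (Finset.mem_filter.1 (Finset.mem_coe.1 hb)).2
      exact Finset.mem_coe.2 (Finset.mem_filter.2 ⟨hfS b, hb'⟩)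
    have h2 := Finset.card_filter_add_card_filter_not (s := L.S) (fun p => ∃ q, s(p, q) ∈ F)
    have h3 := hF.card
    rw [hS] at h2
    have h4 : ((L.n + 1) * L.M + L.n) = (L.n + 1) * L.M + L.n := rfl
    generalize (L.n + 1) * L.M = P at *
    omega
  -- matched points
  have hM : ((univ : Finset (Fin L.M × Bool)).filter fun b => ∃ q, s(f b, q) ∈ F).card ≤
      2 * L.n := by
    have hpart : ∀ b : Fin L.M × Bool, (∃ q, s(f b, q) ∈ F) →
        ∃ w : Fin L.n × Bool, s(f b, L.pt (Sum.inr w.1, w.2)) ∈ F := by
      rintro b ⟨q, hq⟩
      have h1 := (hF.mem _ _ hq).2.1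
      obtain ⟨⟨w, β⟩, -, rfl⟩ := Finset.mem_image.1 h1
      rcases w with i' | j
      · exfalso
        obtain ⟨h2, h3⟩ := hG6 L hL F hF hcard (i, b.1) i' b.2 β hq
        subst h2
        subst h3
        rcases b with ⟨k, β⟩
        cases β
        · refine hno k ?_
          rw [Sym2.eq_swap]
          exact hq
        · exact hno k hq
      · exact ⟨(j, β), hq⟩
    choose g hg using hpart
    have h1 : ((univ : Finset (Fin L.M × Bool)).filter fun b => ∃ q, s(f b, q) ∈ F).card ≤
        (univ : Finset (Fin L.n × Bool)).card := by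
      refine Finset.card_le_card_of_injOn
        (fun b => if h : ∃ q, s(f b, q) ∈ F then g b h else if h' : ∃ w : Fin L.n × Bool, True
          then h'.choose else (False.elim (by
            obtain ⟨b0, hb0⟩ : ∃ b0, ∃ q, s(f b0, q) ∈ F := by
              by_contra hcon
              push Not at hcon
              exact hno ⟨0, by have := hL.hM; omega⟩ (by
                exfalso
                have h5 := Finset.card_filter_add_card_filter_not
                  (s := (univ : Finset (Fin L.M × Bool))) (fun b => ∃ q, s(f b, q) ∈ F)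
                have h6 : ((univ : Finset (Fin L.M × Bool)).filter
                    fun b => ∃ q, s(f b, q) ∈ F).card = 0 := by
                  rw [Finset.card_eq_zero, Finset.filter_eq_empty_iff]
                  intro b _ hb
                  obtain ⟨q, hq⟩ := hb
                  exact hcon b q hq
                have h7 : (univ : Finset (Fin L.M × Bool)).card = 2 * L.M := by
                  simp [mul_comm]
                have := hL.hM
                omega)
            exact h' ⟨g b0 hb0, trivial⟩))) ?_ ?_
      · intro b _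
        exact Finset.mem_coe.2 (Finset.mem_univ _)
      · intro b hb b' hb' heq
        have hb1 := (Finset.mem_filter.1 (Finset.mem_coe.1 hb)).2
        have hb1' := (Finset.mem_filter.1 (Finset.mem_coe.1 hb')).2
        simp only [dif_pos hb1, dif_pos hb1'] at heq
        have h2 := hg b hb1
        have h3 := hg b' hb1'
        rw [← heq] at h3
        rw [Sym2.eq_swap] at h2 h3
        exact hfinj (hF.func _ _ _ h2 h3)
    have h2 : (univ : Finset (Fin L.n × Bool)).card = 2 * L.n := by
      simp [mul_comm]
    omega
  have h5 := Finset.card_filter_add_card_filter_not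
    (s := (univ : Finset (Fin L.M × Bool))) (fun b => ∃ q, s(f b, q) ∈ F)
  have h7 : (univ : Finset (Fin L.M × Bool)).card = 2 * L.M := by
    simp [mul_comm]
  have := hL.hM
  omega

end Pool.Agent.H606R2.CF
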