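import Pool.Agent.H606R2.CF.Stubs

set_option autoImplicit false

namespace Pool.Agent.H606R2.CF

open Finset

namespace G8aux

theorem orient_base (t A : ℤ) (r : Pt) :
    orient (up t 0 A) (dn t 0 A) r = 2 * A * (t * r.1 - r.2) := by
  simp only [orient, up, dn]
  ring

theorem val_up (T x h a : ℤ) : T * (up x h a).1 - (up x h a).2 = a * (T - x) + h := by
  simp only [up]
  ring

theorem val_dn (T x h b : ℤ) : T * (dn x h b).1 - (dn x h b).2 = -(b * (T - x)) + h := by
  simp only [dn]
  ring

theorem fin_eq {n : ℕ} {j j' : Fin n} (h1 : ¬ j'.castSucc < j.castSucc)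
    (h2 : ¬ j.succ ≤ j'.castSucc) : j' = j := by
  simp only [Fin.lt_def, Fin.le_def, Fin.val_castSucc, Fin.val_succ] at h1 h2
  exact Fin.ext (by omega)

end G8aux

open G8aux in
theorem t_G8 (hG5 : S_G5) : S_G8 := by
  intro L hL F hF r hr j β w hw
  obtain ⟨hinj, -⟩ := hG5 L hL
  have hTT : L.t j.castSucc (r j.castSucc) < L.t j.succ (r j.succ) :=
    hL.tlt _ _ _ _ (Fin.castSucc_lt_succ)
  set T0 := L.t j.castSucc (r j.castSucc) with hT0
  set T1 := L.t j.succ (r j.succ) with hT1
  have hprod : ∀ i, (L.t i (r i) * (L.pt (Sum.inr j, β)).1 - (L.pt (Sum.inr j, β)).2) *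
      (L.t i (r i) * (L.pt w).1 - (L.pt w).2) < 0 := by
    intro i
    have hne : s(L.pt (Sum.inl (i, r i), true), L.pt (Sum.inl (i, r i), false)) ≠
        s(L.pt (Sum.inr j, β), L.pt w) := by
      intro h
      have hm : L.pt (Sum.inr j, β) ∈
          s(L.pt (Sum.inl (i, r i), true), L.pt (Sum.inl (i, r i), false)) := by
        rw [h]
        exact Sym2.mem_mk_left _ _
      rcases Sym2.mem_iff.1 hm with h1 | h1
      · simpa using hinj h1
      · simpa using hinj h1
    have hc := (hF.cr _ _ _ _ (hr i) hw hne).1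
    change orient (up (L.t i (r i)) 0 L.A) (dn (L.t i (r i)) 0 L.A) _ *
      orient (up (L.t i (r i)) 0 L.A) (dn (L.t i (r i)) 0 L.A) _ < 0 at hc
    rw [orient_base, orient_base] at hc
    have hA := hL.Apos
    by_contra hcon
    push Not at hcon
    have : 0 ≤ (2 * L.A) ^ 2 * ((L.t i (r i) * (L.pt (Sum.inr j, β)).1 -
      (L.pt (Sum.inr j, β)).2) * (L.t i (r i) * (L.pt w).1 - (L.pt w).2)) :=
      mul_nonneg (sq_nonneg _) hcon
    nlinarith
  have h0 := hprod j.castSucc
  have h1 := hprod j.succ
  rw [← hT0] at h0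
  rw [← hT1] at h1
  have hA := hL.Apos
  have hl := hL.left j j.castSucc (r j.castSucc) le_rfl
  have hri := hL.right j j.succ (r j.succ) (Fin.castSucc_lt_succ)
  rw [← hT0] at hl
  rw [← hT1] at hri
  cases β with
  | true =>
    have e0 : T0 * (L.pt (Sum.inr j, true)).1 - (L.pt (Sum.inr j, true)).2 < 0 := by
      have := val_up T0 (L.x j) (L.h j) (L.a j)
      change T0 * (up (L.x j) (L.h j) (L.a j)).1 - (up (L.x j) (L.h j) (L.a j)).2 < 0
      rw [this]
      exact hl.1
    have e1 : 0 < T1 * (L.pt (Sum.inr j, true)).1 - (L.pt (Sum.inr j, true)).2 := by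
      have := val_up T1 (L.x j) (L.h j) (L.a j)
      change 0 < T1 * (up (L.x j) (L.h j) (L.a j)).1 - (up (L.x j) (L.h j) (L.a j)).2
      rw [this]
      exact hri.1
    have w0 : 0 < T0 * (L.pt w).1 - (L.pt w).2 := pos_of_mul_neg_right h0 e0.le
    have w1 : T1 * (L.pt w).1 - (L.pt w).2 < 0 := neg_of_mul_neg_right h1 e1.le
    rcases w with ⟨i | j', γ⟩
    · cases γ with
      | true =>
        exfalso
        change 0 < T0 * (up (L.t i.1 i.2) 0 L.A).1 - (up (L.t i.1 i.2) 0 L.A).2 at w0
        change T1 * (up (L.t i.1 i.2) 0 L.A).1 - (up (L.t i.1 i.2) 0 L.A).2 < 0 at w1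
        rw [val_up] at w0 w1
        nlinarith
      | false =>
        refine ⟨rfl, Or.inr ⟨i, rfl, ?_, ?_⟩⟩
        · change 0 < T0 * (dn (L.t i.1 i.2) 0 L.A).1 - (dn (L.t i.1 i.2) 0 L.A).2 at w0
          rw [val_dn] at w0
          by_contra hcon
          push Not at hcon
          nlinarith
        · change T1 * (dn (L.t i.1 i.2) 0 L.A).1 - (dn (L.t i.1 i.2) 0 L.A).2 < 0 at w1
          rw [val_dn] at w1
          by_contra hcon
          push Not at hcon
          nlinarith
    · cases γ with
      | true =>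
        exfalso
        change 0 < T0 * (up (L.x j') (L.h j') (L.a j')).1 - (up (L.x j') (L.h j') (L.a j')).2 at w0
        change T1 * (up (L.x j') (L.h j') (L.a j')).1 - (up (L.x j') (L.h j') (L.a j')).2 < 0 at w1
        rw [val_up] at w0 w1
        have := hL.apos j'
        nlinarith
      | false =>
        refine ⟨rfl, Or.inl ?_⟩
        change 0 < T0 * (dn (L.x j') (L.h j') (L.b j')).1 - (dn (L.x j') (L.h j') (L.b j')).2 at w0
        change T1 * (dn (L.x j') (L.h j') (L.b j')).1 - (dn (L.x j') (L.h j') (L.b j')).2 < 0 at w1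
        rw [val_dn] at w0 w1
        have hj : j' = j := by
          refine fin_eq (fun hlt => ?_) (fun hle => ?_)
          · have := (hL.right j' j.castSucc (r j.castSucc) hlt).2
            rw [← hT0] at this
            linarith
          · have := (hL.left j' j.succ (r j.succ) hle).2
            rw [← hT1] at this
            linarith
        rw [hj]
  | false =>
    have e0 : 0 < T0 * (L.pt (Sum.inr j, false)).1 - (L.pt (Sum.inr j, false)).2 := by
      have := val_dn T0 (L.x j) (L.h j) (L.b j)
      change 0 < T0 * (dn (L.x j) (L.h j) (L.b j)).1 - (dn (L.x j) (L.h j) (L.b j)).2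
      rw [this]
      exact hl.2
    have e1 : T1 * (L.pt (Sum.inr j, false)).1 - (L.pt (Sum.inr j, false)).2 < 0 := by
      have := val_dn T1 (L.x j) (L.h j) (L.b j)
      change T1 * (dn (L.x j) (L.h j) (L.b j)).1 - (dn (L.x j) (L.h j) (L.b j)).2 < 0
      rw [this]
      exact hri.2
    have w0 : T0 * (L.pt w).1 - (L.pt w).2 < 0 := neg_of_mul_neg_right h0 e0.le
    have w1 : 0 < T1 * (L.pt w).1 - (L.pt w).2 := pos_of_mul_neg_right h1 e1.le
    rcases w with ⟨i | j', γ⟩
    · cases γ with
      | true =>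
        refine ⟨rfl, Or.inr ⟨i, rfl, ?_, ?_⟩⟩
        · change T0 * (up (L.t i.1 i.2) 0 L.A).1 - (up (L.t i.1 i.2) 0 L.A).2 < 0 at w0
          rw [val_up] at w0
          by_contra hcon
          push Not at hcon
          nlinarith
        · change 0 < T1 * (up (L.t i.1 i.2) 0 L.A).1 - (up (L.t i.1 i.2) 0 L.A).2 at w1
          rw [val_up] at w1
          by_contra hcon
          push Not at hcon
          nlinarith
      | false =>
        exfalso
        change T0 * (dn (L.t i.1 i.2) 0 L.A).1 - (dn (L.t i.1 i.2) 0 L.A).2 < 0 at w0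
        change 0 < T1 * (dn (L.t i.1 i.2) 0 L.A).1 - (dn (L.t i.1 i.2) 0 L.A).2 at w1
        rw [val_dn] at w0 w1
        nlinarith
    · cases γ with
      | true =>
        refine ⟨rfl, Or.inl ?_⟩
        change T0 * (up (L.x j') (L.h j') (L.a j')).1 - (up (L.x j') (L.h j') (L.a j')).2 < 0 at w0
        change 0 < T1 * (up (L.x j') (L.h j') (L.a j')).1 - (up (L.x j') (L.h j') (L.a j')).2 at w1
        rw [val_up] at w0 w1
        have hj : j' = j := by
          refine fin_eq (fun hlt => ?_) (fun hle => ?_)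
          · have := (hL.right j' j.castSucc (r j.castSucc) hlt).1
            rw [← hT0] at this
            linarith
          · have := (hL.left j' j.succ (r j.succ) hle).1
            rw [← hT1] at this
            linarith
        rw [hj]
      | false =>
        exfalso
        change T0 * (dn (L.x j') (L.h j') (L.b j')).1 - (dn (L.x j') (L.h j') (L.b j')).2 < 0 at w0
        change 0 < T1 * (dn (L.x j') (L.h j') (L.b j')).1 - (dn (L.x j') (L.h j') (L.b j')).2 at w1
        rw [val_dn] at w0 w1
        have := hL.bpos j'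
        nlinarith

end Pool.Agent.H606R2.CF
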