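import Pool.Agent.H606R2.CF.Stubs

set_option autoImplicit false

namespace Pool.Agent.H606R2.CF

theorem G9_aux (A a b h x t : ℤ) (hA : 0 < A) (ha : 0 < a) (hbA : b ≤ A)
    (hud : (a * (t - x) + h < 0 ∧ 0 < -(b * (t - x)) + h) ∨
      (0 < a * (t - x) + h ∧ -(b * (t - x)) + h < 0))
    (hcr : orient (up x h a) (dn t 0 A) (up t 0 A) * orient (up x h a) (dn t 0 A) (dn x h b) < 0) :
    False := by
  have e1 : orient (up x h a) (dn t 0 A) (up t 0 A) = -2 * A * (a * (t - x) + h) := by
    simp only [orient, up, dn]; ring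
  have e2 : orient (up x h a) (dn t 0 A) (dn x h b) =
      (A + a) * (-(b * (t - x)) + h) - (A - b) * (a * (t - x) + h) := by
    simp only [orient, up, dn]; ring
  rw [e1, e2] at hcr
  set u := a * (t - x) + h
  set d := -(b * (t - x)) + h
  rcases hud with ⟨hu, hd⟩ | ⟨hu, hd⟩
  · have h1 : 0 < -2 * A * u := by nlinarith
    have h2 : 0 < (A + a) * d - (A - b) * u := by
      have h3 : 0 < (A + a) * d := mul_pos (by linarith) hd
      have h4 : (A - b) * u ≤ 0 := mul_nonpos_of_nonneg_of_nonpos (by linarith) hu.le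
      linarith
    have := mul_pos h1 h2
    linarith
  · have h1 : -2 * A * u < 0 := by nlinarith
    have h2 : (A + a) * d - (A - b) * u < 0 := by
      have h3 : (A + a) * d < 0 := mul_neg_of_pos_of_neg (by linarith) hd
      have h4 : 0 ≤ (A - b) * u := mul_nonneg (by linarith) hu.le
      linarith
    have := mul_pos_of_neg_of_neg h1 h2
    linarith

theorem t_G9 (hG5 : S_G5) : S_G9 := by
  intro L hL F hF i j ⟨h1, h2⟩
  obtain ⟨i1, k⟩ := i
  have hinj := (hG5 L hL).1
  have hne : s(L.pt (Sum.inr j, true), L.pt (Sum.inl (i1, k), false)) ≠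
      s(L.pt (Sum.inl (i1, k), true), L.pt (Sum.inr j, false)) := by
    intro h
    rw [Sym2.eq_iff] at h
    rcases h with ⟨h, -⟩ | ⟨h, -⟩
    · have := hinj h; simp at this
    · have := hinj h; simp at this
  have hcr := hF.cr _ _ _ _ h1 h2 hne
  have hud : (L.a j * (L.t i1 k - L.x j) + L.h j < 0 ∧ 0 < -(L.b j * (L.t i1 k - L.x j)) + L.h j) ∨
      (0 < L.a j * (L.t i1 k - L.x j) + L.h j ∧ -(L.b j * (L.t i1 k - L.x j)) + L.h j < 0) := by
    rcases le_or_gt i1 j.castSucc with h | h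
    · exact Or.inl (hL.left j i1 k h)
    · exact Or.inr (hL.right j i1 k h)
  exact G9_aux L.A (L.a j) (L.b j) (L.h j) (L.x j) (L.t i1 k) hL.Apos (hL.apos j) (hL.Ab j) hud
    hcr.1

end Pool.Agent.H606R2.CF
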