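import Pool.Agent.H606R2.CF.Stubs

set_option autoImplicit false

namespace Pool.Agent.H606R2.CF

namespace M1x

/-- map on both stacks -/
def mp (f : ℕ → Bool) (s : List ℕ × List ℕ) : List Bool × List Bool := (s.1.map f, s.2.map f)

theorem keepL_map (f : ℕ → Bool) (m : List Bool) : ∀ l : List ℕ,
    keepL m (l.map f) = (keepL m l).map f := by
  induction m with
  | nil => intro l; cases l <;> rfl
  | cons b m ih =>
    intro l
    cases l with
    | nil => rfl
    | cons x l =>
      simp only [List.map_cons, keepL]
      split_ifs with h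
      · rw [ih, List.map_cons]
      · exact ih l

theorem pushL_map (f : ℕ → Bool) (b : Bool) (z : ℕ) (l : List ℕ) :
    pushL b (f z) (l.map f) = (pushL b z l).map f := by
  unfold pushL
  split_ifs <;> simp

theorem att_map (f : ℕ → Bool) (o : Op) (s : List ℕ × List ℕ) :
    att o (mp f s) = (att o s).map f := by
  unfold att mp
  split_ifs <;> simp [List.map_take]

theorem step_map (f : ℕ → Bool) (o : Op) (z : ℕ) (s : List ℕ × List ℕ) :
    step o (f z) (mp f s) = mp f (step o z s) := by
  unfold step mp
  split_ifs <;> simp only [keepL_map, pushL_map]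

theorem mem_keepL {m : List Bool} : ∀ {l : List ℕ} {x : ℕ}, x ∈ keepL m l → x ∈ l := by
  induction m with
  | nil => intro l x h; cases l <;> exact h
  | cons b m ih =>
    intro l x h
    cases l with
    | nil => exact h
    | cons y l =>
      simp only [keepL] at h
      split_ifs at h with hb
      · rcases List.mem_cons.1 h with h | h
        · exact List.mem_cons.2 (Or.inl h)
        · exact List.mem_cons.2 (Or.inr (ih h))
      · exact List.mem_cons.2 (Or.inr (ih h))

theorem mem_pushL {b : Bool} {z : ℕ} {l : List ℕ} {x : ℕ} (h : x ∈ pushL b z l) :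
    x = z ∨ x ∈ l := by
  unfold pushL at h
  split_ifs at h
  · exact List.mem_cons.1 h
  · exact Or.inr h

/-- entries below `k` -/
def Lt (k : ℕ) (s : List ℕ × List ℕ) : Prop := (∀ x ∈ s.1, x < k) ∧ ∀ x ∈ s.2, x < k

theorem lt_att {k : ℕ} {o : Op} {s : List ℕ × List ℕ} (h : Lt k s) {c : ℕ} (hc : c ∈ att o s) :
    c < k := by
  unfold att at hc
  split_ifs at hc
  · exact h.1 _ (List.mem_of_mem_take hc)
  · exact h.2 _ (List.mem_of_mem_take hc)
  · simp at hc

theorem lt_step {k : ℕ} {o : Op} {s : List ℕ × List ℕ} (h : Lt k s) : Lt (k + 1) (step o k s) := by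
  have hk : ∀ m : List Bool, ∀ l : List ℕ, (∀ x ∈ l, x < k) → ∀ x ∈ keepL m l, x < k + 1 := by
    intro m l hl x hx
    have := hl x (mem_keepL hx)
    omega
  have hp : ∀ b : Bool, ∀ l : List ℕ, (∀ x ∈ l, x < k) → ∀ x ∈ pushL b k l, x < k + 1 := by
    intro b l hl x hx
    rcases mem_pushL hx with h | h
    · omega
    · have := hl x h
      omega
  unfold step
  split_ifs
  · exact ⟨hk _ _ h.1, hp _ _ h.2⟩
  · exact ⟨hp _ _ h.1, hk _ _ h.2⟩
  · exact ⟨hp _ _ h.1, hp _ _ h.2⟩

theorem mp_congr {f g : ℕ → Bool} {k : ℕ} {s : List ℕ × List ℕ} (h : Lt k s)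
    (hfg : ∀ i < k, f i = g i) : mp f s = mp g s := by
  unfold mp
  rw [List.map_congr_left (fun x hx => hfg x (h.1 x hx)),
    List.map_congr_left (fun x hx => hfg x (h.2 x hx))]

theorem fwd (f : ℕ → Bool) (ops : List Op) : ∀ (k : ℕ) (s : List ℕ × List ℕ),
    (∀ p < ops.length, f (k + p) = true → ∀ c ∈ (atts ops k s).getD p [], f c = false) →
    ∃ s', Runs ops (mp f s) s' (∑ p ∈ Finset.range ops.length, (f (k + p)).toNat) := by
  induction ops with
  | nil => intro k s _; exact ⟨mp f s, rfl, by simp⟩
  | cons o os ih =>
    intro k s h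
    obtain ⟨s', hs'⟩ := ih (k + 1) (step o k s) (fun p hp hf c hc => by
      have h1 := h (p + 1) (by simpa using hp) (by rw [← hf]; congr 1; omega) c
      apply h1
      simpa [atts] using hc)
    refine ⟨s', f k, ?_, _, (step_map f o k s).symm ▸ hs', ?_⟩
    · intro hk c hc
      rw [att_map] at hc
      obtain ⟨x, hx, rfl⟩ := List.mem_map.1 hc
      exact h 0 (by simp) (by simpa using hk) x (by simpa [atts] using hx)
    · rw [List.length_cons, Finset.sum_range_succ']
      congr 1
      refine Finset.sum_congr rfl fun p _ => ?_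
      congr 2
      omega

theorem bwd (ops : List Op) : ∀ (f : ℕ → Bool) (k : ℕ) (s : List ℕ × List ℕ), Lt k s →
    ∀ s' v, Runs ops (mp f s) s' v →
    ∃ g : ℕ → Bool, (∀ i < k, g i = f i) ∧
      (∀ p < ops.length, g (k + p) = true → ∀ c ∈ (atts ops k s).getD p [], g c = false) ∧
      v = ∑ p ∈ Finset.range ops.length, (g (k + p)).toNat := by
  induction ops with
  | nil => intro f k s _ s' v h; exact ⟨f, fun _ _ => rfl, by simp, by simpa using h.2⟩
  | cons o os ih =>
    intro f k s hs s' v h
    obtain ⟨b, hb, v', hv', rfl⟩ := h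
    set f' : ℕ → Bool := Function.update f k b with hf'
    have hk : f' k = b := by simp [hf']
    have hff : ∀ i < k, f i = f' i := by
      intro i hi
      rw [hf', Function.update_of_ne (by omega)]
    rw [mp_congr hs hff, ← hk, step_map] at hv'
    obtain ⟨g, hg1, hg2, hg3⟩ := ih f' (k + 1) (step o k s) (lt_step hs) s' v' hv'
    have hgk : g k = b := by rw [hg1 k (by omega), hk]
    have hgf : ∀ i < k, g i = f i := by
      intro i hi
      rw [hg1 i (by omega), hff i hi]
    refine ⟨g, hgf, ?_, ?_⟩
    · intro p hp hgp c hc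
      cases p with
      | zero =>
        have hc' : c ∈ att o s := by simpa [atts] using hc
        have hbt : b = true := by rw [← hgk]; simpa using hgp
        rw [hgf c (lt_att hs hc')]
        apply hb hbt
        rw [att_map]
        exact List.mem_map_of_mem hc'
      | succ p =>
        refine hg2 p (by simpa using hp) (by rw [← hgp]; congr 1; omega) c ?_
        simpa [atts] using hc
    · rw [List.length_cons, Finset.sum_range_succ', hg3, show k + 0 = k from rfl, hgk]
      congr 1
      refine Finset.sum_congr rfl fun p _ => ?_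
      congr 2
      omega

end M1x

open M1x in
theorem t_M1 : S_M1 := by
  intro ops K
  constructor
  · rintro ⟨s', v, h, hK⟩
    obtain ⟨g, -, hg2, hg3⟩ := bwd ops (fun _ => false) 0 ([], []) ⟨by simp, by simp⟩ s' v h
    refine ⟨Finset.univ.filter (fun i : Fin ops.length => g i.val = true), ?_, ?_⟩
    · have hcard : (Finset.univ.filter (fun i : Fin ops.length => g i.val = true)).card = v := by
        rw [hg3, Finset.card_filter, ← Fin.sum_univ_eq_sum_range (fun p => (g (0 + p)).toNat)]
        refine Finset.sum_congr rfl fun i _ => ?_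
        rw [Nat.zero_add]
        cases g i.val <;> simp
      omega
    · intro i hi j hj hmem
      have h1 : g j.val = true := by simpa using hj
      have h2 : g i.val = true := by simpa using hi
      have h3 := hg2 j.val j.isLt (by rw [Nat.zero_add]; exact h1) i.val hmem
      rw [h2] at h3
      cases h3
  · rintro ⟨J, hJ, hind⟩
    set f : ℕ → Bool := fun i => if h : i < ops.length then decide ((⟨i, h⟩ : Fin ops.length) ∈ J)
      else false with hf
    have hfi : ∀ i : Fin ops.length, f i.val = decide (i ∈ J) := by
      intro i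
      simp [hf]
    obtain ⟨s', hs'⟩ := fwd f ops 0 ([], []) (fun p hp hfp c hc => by
      by_contra hcon
      have hct : f c = true := by simpa using hcon
      have hclt : c < ops.length := by
        by_contra hge
        simp [hf, hge] at hct
      have h1 := hfi ⟨c, hclt⟩
      have h2 := hfi ⟨p, hp⟩
      rw [Nat.zero_add] at hfp
      simp only at h1 h2
      rw [hct] at h1
      rw [hfp] at h2
      exact hind ⟨c, hclt⟩ (of_decide_eq_true h1.symm) ⟨p, hp⟩ (of_decide_eq_true h2.symm) hc)
    refine ⟨s', _, hs', ?_⟩
    have hcard : (∑ p ∈ Finset.range ops.length, (f (0 + p)).toNat) = J.card := by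
      rw [← Fin.sum_univ_eq_sum_range (fun p => (f (0 + p)).toNat)]
      have h1 : J.card = (Finset.univ.filter (fun i : Fin ops.length => i ∈ J)).card := by
        congr 1
        ext i
        simp
      rw [h1, Finset.card_filter]
      refine Finset.sum_congr rfl fun i _ => ?_
      rw [Nat.zero_add, hfi]
      by_cases h : i ∈ J <;> simp [h]
    omega

end Pool.Agent.H606R2.CF
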