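import Pool.Agent.H606R2.CF.Stubs

/-!
# Crossing families, task M2: the neighbours in terms of the reaches
-/

namespace Pool.Agent.H606R2.CF

namespace M2aux

/-- the default operation -/
def dOp : Op := (0, [], false, false)

/-- stacks before step `k + i`, starting with the stacks `s` before step `k` -/
def st (os : List Op) (k : ℕ) (s : List ℕ × List ℕ) : ℕ → List ℕ × List ℕ
  | 0 => s
  | i + 1 => step (os.getD i dOp) (k + i) (st os k s i)

lemma st_succ (os : List Op) (k : ℕ) (s : List ℕ × List ℕ) (i : ℕ) :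
    st os k s (i + 1) = step (os.getD i dOp) (k + i) (st os k s i) := rfl

lemma st_cons (o : Op) (os : List Op) (k : ℕ) (s : List ℕ × List ℕ) (i : ℕ) :
    st (o :: os) k s (i + 1) = st os (k + 1) (step o k s) i := by
  induction i with
  | zero => simp [st]
  | succ i ih =>
    rw [st_succ, ih, st_succ, List.getD_cons_succ]
    congr 1
    omega

lemma atts_getD (os : List Op) (k : ℕ) (s : List ℕ × List ℕ) (i : ℕ) :
    (atts os k s).getD i [] = att (os.getD i dOp) (st os k s i) := by
  induction os generalizing k s i with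
  | nil => simp [atts, att, dOp]
  | cons o os ih =>
    cases i with
    | zero => simp [atts, st]
    | succ i =>
      rw [st_cons, atts, List.getD_cons_succ, List.getD_cons_succ]
      exact ih (k + 1) (step o k s) i

lemma kd_eq (ops : List Op) (j : ℕ) : kd ops j = (ops.getD j dOp).1 := by
  unfold kd
  have h : (0 : ℕ) = Prod.fst dOp := rfl
  rw [h, List.getD_map]

lemma nb_eq (ops : List Op) (j : ℕ) : nb ops j = att (ops.getD j dOp) (st ops 0 ([], []) j) :=
  atts_getD ops 0 ([], []) j

lemma keepL_sublist {α : Type} (ms : List Bool) (l : List α) : (keepL ms l).Sublist l := by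
  induction ms generalizing l with
  | nil => exact List.Sublist.refl _
  | cons m ms ih =>
    cases l with
    | nil => exact List.Sublist.refl _
    | cons x l =>
      unfold keepL
      by_cases hm : m = true
      · rw [if_pos hm]
        exact (ih l).cons_cons x
      · rw [if_neg hm]
        exact (ih l).cons x

/-- decreasing lists of numbers smaller than `k` with the property `p` -/
def Dec (p : ℕ → Prop) (k : ℕ) (l : List ℕ) : Prop :=
  l.Pairwise (· > ·) ∧ ∀ x ∈ l, x < k ∧ p x

lemma Dec.push {p : ℕ → Prop} {k : ℕ} {l : List ℕ} (h : Dec p k l) (b : Bool) (hp : p k) :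
    Dec p (k + 1) (pushL b k l) := by
  unfold pushL
  by_cases hb : b = true
  · rw [if_pos hb]
    refine ⟨List.pairwise_cons.2 ⟨fun x hx => (h.2 x hx).1, h.1⟩, ?_⟩
    intro x hx
    rcases List.mem_cons.1 hx with rfl | hx
    · exact ⟨Nat.lt_succ_self _, hp⟩
    · exact ⟨(h.2 x hx).1.trans (Nat.lt_succ_self _), (h.2 x hx).2⟩
  · rw [if_neg hb]
    exact ⟨h.1, fun x hx => ⟨(h.2 x hx).1.trans (Nat.lt_succ_self _), (h.2 x hx).2⟩⟩

lemma Dec.keep {p : ℕ → Prop} {k : ℕ} {l : List ℕ} (h : Dec p k l) (ms : List Bool) :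
    Dec p (k + 1) (keepL ms l) :=
  ⟨h.1.sublist (keepL_sublist ms l), fun x hx =>
    have hx' := (keepL_sublist ms l).subset hx
    ⟨(h.2 x hx').1.trans (Nat.lt_succ_self _), (h.2 x hx').2⟩⟩

lemma inv (ops : List Op) (k : ℕ) :
    Dec (fun x => kd ops x ≠ 1) k (st ops 0 ([], []) k).1 ∧
    Dec (fun x => kd ops x ≠ 2) k (st ops 0 ([], []) k).2 := by
  induction k with
  | zero =>
    constructor
    · exact ⟨List.Pairwise.nil, fun x hx => absurd hx List.not_mem_nil⟩
    · exact ⟨List.Pairwise.nil, fun x hx => absurd hx List.not_mem_nil⟩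
  | succ k ih =>
    rw [st_succ, Nat.zero_add]
    have hk := kd_eq ops k
    unfold step
    by_cases h1 : (ops.getD k dOp).1 = 1
    · rw [if_pos h1]
      exact ⟨ih.1.keep _, ih.2.push _ (by rw [hk, h1]; decide)⟩
    · rw [if_neg h1]
      by_cases h2 : (ops.getD k dOp).1 = 2
      · rw [if_pos h2]
        exact ⟨ih.1.push _ (by rw [hk, h2]; decide), ih.2.keep _⟩
      · rw [if_neg h2]
        exact ⟨ih.1.push _ (by rw [hk]; exact h1), ih.2.push _ (by rw [hk]; exact h2)⟩

lemma mem_push {b : Bool} {k i : ℕ} {l : List ℕ} (h : i ∈ pushL b k l) : i = k ∨ i ∈ l := by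
  unfold pushL at h
  by_cases hb : b = true
  · rw [if_pos hb] at h
    exact List.mem_cons.1 h
  · rw [if_neg hb] at h
    exact Or.inr h

lemma back (ops : List Op) (k i : ℕ) :
    (i ∈ (st ops 0 ([], []) (k + 1)).1 → i = k ∨ i ∈ (st ops 0 ([], []) k).1) ∧
    (i ∈ (st ops 0 ([], []) (k + 1)).2 → i = k ∨ i ∈ (st ops 0 ([], []) k).2) := by
  rw [st_succ, Nat.zero_add]
  unfold step
  by_cases h1 : (ops.getD k dOp).1 = 1
  · rw [if_pos h1]
    exact ⟨fun h => Or.inr ((keepL_sublist _ _).subset h), mem_push⟩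
  · rw [if_neg h1]
    by_cases h2 : (ops.getD k dOp).1 = 2
    · rw [if_pos h2]
      exact ⟨mem_push, fun h => Or.inr ((keepL_sublist _ _).subset h)⟩
    · rw [if_neg h2]
      exact ⟨mem_push, mem_push⟩

lemma persist (ops : List Op) (i k m : ℕ) (hik : i < k) :
    (i ∈ (st ops 0 ([], []) (k + m)).1 → i ∈ (st ops 0 ([], []) k).1) ∧
    (i ∈ (st ops 0 ([], []) (k + m)).2 → i ∈ (st ops 0 ([], []) k).2) := by
  induction m with
  | zero => exact ⟨fun h => h, fun h => h⟩
  | succ m ih =>
    rw [← Nat.add_assoc]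
    constructor
    · intro h
      rcases (back ops (k + m) i).1 h with h1 | h1
      · omega
      · exact ih.1 h1
    · intro h
      rcases (back ops (k + m) i).2 h with h1 | h1
      · omega
      · exact ih.2 h1

/-- the last element of a decreasing list is the smallest one -/
lemma last_le {l : List ℕ} (h : l.Pairwise (· > ·)) (j : ℕ) {i : ℕ} (hi : i ∈ l) :
    l.getLastD j ≤ i := by
  have hne : l ≠ [] := List.ne_nil_of_mem hi
  rw [List.getLastD_eq_getLast?, List.getLast?_eq_some_getLast hne, Option.getD_some]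
  have h1 : l.dropLast ++ [l.getLast hne] = l := List.dropLast_append_getLast hne
  rw [← h1] at hi h
  rcases List.mem_append.1 hi with h2 | h2
  · have h3 := (List.pairwise_append.1 h).2.2 i h2 (l.getLast hne) (List.mem_singleton.2 rfl)
    exact le_of_lt h3
  · rw [List.mem_singleton.1 h2]

lemma last_mem {l : List ℕ} (hne : l ≠ []) (j : ℕ) : l.getLastD j ∈ l := by
  rw [List.getLastD_eq_getLast?, List.getLast?_eq_some_getLast hne, Option.getD_some]
  exact List.getLast_mem hne

lemma mem_take_iff {l : List ℕ} (h : l.Pairwise (· > ·)) (r j : ℕ) {i : ℕ} (hij : i < j) :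
    i ∈ l.take r ↔ i ∈ l ∧ (l.take r).getLastD j ≤ i := by
  constructor
  · intro hi
    exact ⟨List.mem_of_mem_take hi, last_le (h.sublist (List.take_sublist r l)) j hi⟩
  · rintro ⟨h1, h2⟩
    have h3 : l.take r ++ l.drop r = l := List.take_append_drop r l
    rw [← h3] at h h1
    rcases List.mem_append.1 h1 with h4 | h4
    · exact h4
    · exfalso
      by_cases hne : l.take r = []
      · rw [hne] at h2
        exact absurd hij (not_lt.2 h2)
      · have h5 := (List.pairwise_append.1 h).2.2 _ (last_mem hne j) i h4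
        exact absurd h5 (not_lt.2 h2)

/-- the fold over the first `m` indices -/
lemma fold_spec (Q : ℕ → Prop) [DecidablePred Q] (i : ℕ) (m : ℕ) :
    ((List.range m).foldl (fun r j => if Q j then j else r) i = i ∨
      ((List.range m).foldl (fun r j => if Q j then j else r) i < m ∧
        Q ((List.range m).foldl (fun r j => if Q j then j else r) i))) ∧
    ∀ j < m, Q j → (i < j) → j ≤ (List.range m).foldl (fun r j => if Q j then j else r) i := by
  induction m with
  | zero => exact ⟨Or.inl rfl, fun j hj => absurd hj (Nat.not_lt_zero _)⟩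
  | succ m ih =>
    rw [List.range_succ, List.foldl_append]
    simp only [List.foldl_cons, List.foldl_nil]
    by_cases hm : Q m
    · rw [if_pos hm]
      exact ⟨Or.inr ⟨Nat.lt_succ_self _, hm⟩, fun j hj _ _ => Nat.lt_succ_iff.1 hj⟩
    · rw [if_neg hm]
      refine ⟨?_, ?_⟩
      · rcases ih.1 with h | h
        · exact Or.inl h
        · exact Or.inr ⟨h.1.trans (Nat.lt_succ_self _), h.2⟩
      · intro j hj hQ hij
        rcases Nat.lt_succ_iff_lt_or_eq.1 hj with h | h
        · exact ih.2 j h hQ hij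
        · exact absurd (h ▸ hQ) hm

/-- membership in the list of neighbours -/
lemma mem_nb (ops : List Op) (i j : ℕ) (h : i ∈ nb ops j) :
    i < j ∧ lo ops j ≤ i ∧
      ((kd ops j = 1 ∧ i ∈ (st ops 0 ([], []) j).1 ∧ kd ops i ≠ 1) ∨
       (kd ops j = 2 ∧ i ∈ (st ops 0 ([], []) j).2 ∧ kd ops i ≠ 2)) := by
  have hi := inv ops j
  have hk := kd_eq ops j
  have hlo : lo ops j = (nb ops j).getLastD j := rfl
  rw [hlo]
  rw [nb_eq] at h ⊢
  unfold att at h ⊢
  by_cases h1 : (ops.getD j dOp).1 = 1
  · rw [if_pos h1] at h ⊢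
    have h2 := List.mem_of_mem_take h
    have h3 := hi.1.2 i h2
    exact ⟨h3.1, last_le (hi.1.1.sublist (List.take_sublist _ _)) j h,
      Or.inl ⟨by rw [hk, h1], h2, h3.2⟩⟩
  · rw [if_neg h1] at h ⊢
    by_cases h2 : (ops.getD j dOp).1 = 2
    · rw [if_pos h2] at h ⊢
      have h3 := List.mem_of_mem_take h
      have h4 := hi.2.2 i h3
      exact ⟨h4.1, last_le (hi.2.1.sublist (List.take_sublist _ _)) j h,
        Or.inr ⟨by rw [hk, h2], h3, h4.2⟩⟩
    · rw [if_neg h2] at h
      exact absurd h List.not_mem_nil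

lemma re_spec (ops : List Op) (c i : ℕ) :
    (re c ops i = i ∨ (re c ops i < ops.length ∧ kd ops (re c ops i) = c ∧
      i ∈ nb ops (re c ops i))) ∧
    ∀ j < ops.length, kd ops j = c → i ∈ nb ops j → j ≤ re c ops i := by
  have h := fold_spec (fun j => kd ops j = c ∧ i ∈ nb ops j) i ops.length
  refine ⟨h.1, fun j hj h1 h2 => h.2 j hj ⟨h1, h2⟩ (mem_nb ops i j h2).1⟩

lemma lo_le (ops : List Op) (j : ℕ) : lo ops j ≤ j := by
  unfold lo
  by_cases hne : nb ops j = []
  · rw [hne]
    exact le_rfl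
  · exact (mem_nb ops _ j (last_mem hne j)).1.le

lemma re_ge (ops : List Op) (c j : ℕ) (hj : j < ops.length) :
    j ≤ re c ops j ∧ re c ops j < ops.length := by
  rcases (re_spec ops c j).1 with h | h
  · rw [h]
    exact ⟨le_rfl, hj⟩
  · exact ⟨(mem_nb ops _ _ h.2.2).1.le, h.1⟩

end M2aux

open M2aux in
theorem t_M2 : S_M2 := by
  intro ops
  refine ⟨fun j hj => ⟨lo_le ops j, (re_ge ops 1 j hj).1, (re_ge ops 1 j hj).2,
    (re_ge ops 2 j hj).1, (re_ge ops 2 j hj).2⟩, ?_⟩
  intro i j hi hj
  constructor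
  · intro h
    obtain ⟨h1, h2, h3⟩ := mem_nb ops i j h
    refine ⟨h1, ?_⟩
    rcases h3 with h3 | h3
    · exact Or.inl ⟨h3.1, h3.2.2, h2, (re_spec ops 1 i).2 j hj h3.1 h⟩
    · exact Or.inr ⟨h3.1, h3.2.2, h2, (re_spec ops 2 i).2 j hj h3.1 h⟩
  · rintro ⟨hij, h⟩
    have hinv := inv ops j
    have hk := kd_eq ops j
    rcases h with ⟨h1, -, h3, h4⟩ | ⟨h1, -, h3, h4⟩
    · have h5 : i ∈ nb ops (re 1 ops i) ∧ kd ops (re 1 ops i) = 1 := by
        rcases (re_spec ops 1 i).1 with h | h
        · omega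
        · exact ⟨h.2.2, h.2.1⟩
      have h6 : i ∈ (st ops 0 ([], []) (re 1 ops i)).1 := by
        rcases (mem_nb ops i _ h5.1).2.2 with h | h
        · exact h.2.1
        · have := h.1
          omega
      obtain ⟨m, hm⟩ := Nat.exists_eq_add_of_le h4
      rw [hm] at h6
      have h7 := (persist ops i j m hij).1 h6
      unfold lo at h3
      rw [nb_eq] at h3 ⊢
      unfold att at h3 ⊢
      rw [hk] at h1
      rw [if_pos h1] at h3 ⊢
      exact (mem_take_iff hinv.1.1 _ j hij).2 ⟨h7, h3⟩
    · have h5 : i ∈ nb ops (re 2 ops i) ∧ kd ops (re 2 ops i) = 2 := by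
        rcases (re_spec ops 2 i).1 with h | h
        · omega
        · exact ⟨h.2.2, h.2.1⟩
      have h6 : i ∈ (st ops 0 ([], []) (re 2 ops i)).2 := by
        rcases (mem_nb ops i _ h5.1).2.2 with h | h
        · have := h.1
          omega
        · exact h.2.1
      obtain ⟨m, hm⟩ := Nat.exists_eq_add_of_le h4
      rw [hm] at h6
      have h7 := (persist ops i j m hij).2 h6
      unfold lo at h3
      rw [nb_eq] at h3 ⊢
      unfold att at h3 ⊢
      rw [hk] at h1
      rw [if_neg (by rw [h1]; decide), if_pos h1] at h3 ⊢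
      exact (mem_take_iff hinv.2.1 _ j hij).2 ⟨h7, h3⟩

end Pool.Agent.H606R2.CF
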