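import Pool.Agent.H606R2.CF.Stubs

/-! Task R2 (helper504): the conflicts of the explicit layout are the edges. -/

namespace Pool.Agent.H606R2.CF

/-- Signed height. -/
def r2h (P Q : Prop) [Decidable P] [Decidable Q] (X : ℤ) : ℤ := if P then X else if Q then -X else 0

lemma r2_slo_gt (n j r : ℕ) (s : Prop) [Decidable s] : 2 * (16 : ℤ) ^ n < slo n j r s := by
  have h1 : (0 : ℤ) < 16 ^ n := by positivity
  have h2 : (0 : ℤ) < 16 ^ (n + j - r) := by positivity
  unfold slo
  split_ifs <;> linarith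

lemma r2_page (P Q : ℕ → Prop) [DecidablePred P] [DecidablePred Q] (n : ℕ) (l r : ℕ → ℕ)
    (i j : ℕ) (hij : i < j) (hli : l i ≤ i) (hlj : l j ≤ j) (hri : i ≤ r i) (hrn : r i < n) :
    (r2h (P j) (Q j) (2 * 16 ^ n * ((2 * (n : ℤ) + 1) * (16 ^ (j + 1) - 4 * 16 ^ (l j)))) -
      r2h (P i) (Q i) (2 * 16 ^ n * ((2 * (n : ℤ) + 1) * (16 ^ (i + 1) - 4 * 16 ^ (l i)))) <
      min (slo n i (r i) (P i)) (slo n j (r j) (P j)) *
        ((2 * (n : ℤ) + 1) * 16 ^ (j + 1) - (2 * (n : ℤ) + 1) * 16 ^ (i + 1))) ↔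
      ¬ (P j ∧ ¬ P i ∧ l j ≤ i ∧ j ≤ r i) := by
  -- numbers
  obtain ⟨W, hW⟩ : ∃ W : ℤ, W = 2 * (n : ℤ) + 1 := ⟨_, rfl⟩
  have hWpos : 0 < W := by rw [hW]; positivity
  obtain ⟨u, hu⟩ : ∃ u : ℤ, u = 16 ^ (i + 1) := ⟨_, rfl⟩
  obtain ⟨v, hv⟩ : ∃ v : ℤ, v = 16 ^ (j + 1) := ⟨_, rfl⟩
  obtain ⟨E, hE⟩ : ∃ E : ℤ, E = 16 ^ n := ⟨_, rfl⟩
  obtain ⟨qi, hqi⟩ : ∃ q : ℤ, q = 16 ^ (l i) := ⟨_, rfl⟩
  obtain ⟨qj, hqj⟩ : ∃ q : ℤ, q = 16 ^ (l j) := ⟨_, rfl⟩
  have hupos : 0 < u := by rw [hu]; positivity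
  have hEpos : 0 < E := by rw [hE]; positivity
  have hqipos : 0 < qi := by rw [hqi]; positivity
  have hqjpos : 0 < qj := by rw [hqj]; positivity
  have huv : 16 * u ≤ v := by
    rw [hu, hv]
    calc (16 : ℤ) * 16 ^ (i + 1) = 16 ^ (i + 2) := by ring
      _ ≤ 16 ^ (j + 1) := pow_le_pow_right₀ (by norm_num) (by omega)
  have hqiu : 16 * qi ≤ u := by
    rw [hu, hqi]
    calc (16 : ℤ) * 16 ^ (l i) = 16 ^ (l i + 1) := by ring
      _ ≤ 16 ^ (i + 1) := pow_le_pow_right₀ (by norm_num) (by omega)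
  have hqjv : 16 * qj ≤ v := by
    rw [hv, hqj]
    calc (16 : ℤ) * 16 ^ (l j) = 16 ^ (l j + 1) := by ring
      _ ≤ 16 ^ (j + 1) := pow_le_pow_right₀ (by norm_num) (by omega)
  have hEu : 0 < E * u := mul_pos hEpos hupos
  have hEqi : 16 * (E * qi) ≤ E * u := by nlinarith
  have hEqj : 16 * (E * qj) ≤ E * v := by nlinarith
  have hEqj0 : 0 < E * qj := mul_pos hEpos hqjpos
  have hEqi0 : 0 < E * qi := mul_pos hEpos hqipos
  have hEuv : 16 * (E * u) ≤ E * v := by nlinarith
  -- heights divided by W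
  obtain ⟨ηi, hηi⟩ : ∃ η : ℤ, η = r2h (P i) (Q i) (2 * E * (u - 4 * qi)) := ⟨_, rfl⟩
  obtain ⟨ηj, hηj⟩ : ∃ η : ℤ, η = r2h (P j) (Q j) (2 * E * (v - 4 * qj)) := ⟨_, rfl⟩
  have hmulW : ∀ (A B : Prop) [Decidable A] [Decidable B] (X : ℤ),
      r2h A B (2 * E * (W * X)) = W * r2h A B (2 * E * X) := by
    intro A B _ _ X
    unfold r2h
    split_ifs <;> ring
  rw [← hW, ← hu, ← hv, ← hE, ← hqi, ← hqj, hmulW, hmulW, ← hηi, ← hηj]
  have hiff : (W * ηj - W * ηi < min (slo n i (r i) (P i)) (slo n j (r j) (P j)) *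
      (W * v - W * u)) ↔ (ηj - ηi < min (slo n i (r i) (P i)) (slo n j (r j) (P j)) * (v - u)) := by
    rw [show W * ηj - W * ηi = W * (ηj - ηi) by ring,
      show min (slo n i (r i) (P i)) (slo n j (r j) (P j)) * (W * v - W * u) =
        W * (min (slo n i (r i) (P i)) (slo n j (r j) (P j)) * (v - u)) by ring]
    exact mul_lt_mul_iff_right₀ hWpos
  rw [hiff]
  have hηi_lo : -(2 * (E * u)) ≤ ηi := by
    rw [hηi]; unfold r2h; split_ifs <;> nlinarith
  have hηj_hi : ηj ≤ 2 * (E * v) := by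
    rw [hηj]; unfold r2h; split_ifs <;> nlinarith
  have hsi : 2 * E < slo n i (r i) (P i) := by rw [hE]; exact r2_slo_gt _ _ _ _
  have hsj : 2 * E < slo n j (r j) (P j) := by rw [hE]; exact r2_slo_gt _ _ _ _
  by_cases hPj : P j
  · -- `c j = 1`
    have hsj' : slo n j (r j) (P j) = 4 * E := by
      unfold slo
      rw [if_pos hPj, hE]
    have hηj' : ηj = 2 * E * (v - 4 * qj) := by
      rw [hηj]; unfold r2h; rw [if_pos hPj]
    by_cases hPi : P i
    · have hsi' : slo n i (r i) (P i) = 4 * E := by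
        unfold slo
        rw [if_pos hPi, hE]
      rw [hsi', hsj', min_self]
      constructor
      · rintro _ ⟨_, h, _⟩
        exact h hPi
      · intro _
        nlinarith
    · obtain ⟨p, hp⟩ : ∃ p : ℤ, p = 16 ^ (n + i - r i) := ⟨_, rfl⟩
      have hppos : 0 < p := by rw [hp]; positivity
      have hpE : p ≤ E := by
        rw [hp, hE]
        exact pow_le_pow_right₀ (by norm_num) (by omega)
      have hsi' : slo n i (r i) (P i) = 2 * E + p := by
        unfold slo
        rw [if_neg hPi, hE, hp]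
      have hηi_hi : ηi ≤ 0 := by
        rw [hηi]; unfold r2h; rw [if_neg hPi]; split_ifs
        · nlinarith
        · exact le_rfl
      have hmin : min (2 * E + p) (4 * E) = 2 * E + p := min_eq_left (by linarith)
      rw [hsi', hsj', hmin]
      have hp1 : 0 < p * (v - u) := mul_pos hppos (by linarith)
      have hred : (ηj - ηi < (2 * E + p) * (v - u)) ↔
          (2 * (E * u) - 8 * (E * qj) - ηi < p * (v - u)) := by
        rw [hηj']
        constructor <;> intro h <;> nlinarith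
      rw [hred]
      by_cases hl : l j ≤ i
      · have hq : 16 * qj ≤ u := by
          rw [hu, hqj]
          calc (16 : ℤ) * 16 ^ (l j) = 16 ^ (l j + 1) := by ring
            _ ≤ 16 ^ (i + 1) := pow_le_pow_right₀ (by norm_num) (by omega)
        have hEq : 16 * (E * qj) ≤ E * u := by nlinarith
        by_cases hr : j ≤ r i
        · have hpv : p * v ≤ E * u := by
            rw [hp, hv, hE, hu, ← pow_add, ← pow_add]
            exact pow_le_pow_right₀ (by norm_num) (by omega)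
          have hpu : 0 < p * u := mul_pos hppos hupos
          constructor
          · intro h
            exfalso
            nlinarith
          · intro h
            exact absurd ⟨hPj, hPi, hl, hr⟩ h
        · have hpv : 16 * (E * u) ≤ p * v := by
            rw [hp, hv, hE, hu, ← pow_add, ← pow_add]
            calc (16 : ℤ) * 16 ^ (n + (i + 1)) = 16 ^ (n + (i + 1) + 1) := by ring
              _ ≤ 16 ^ (n + i - r i + (j + 1)) := pow_le_pow_right₀ (by norm_num) (by omega)
          have hpu : 16 * (p * u) ≤ p * v := by nlinarith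
          constructor
          · rintro _ ⟨_, _, _, h⟩
            exact hr h
          · intro _
            nlinarith
      · have hq : u ≤ qj := by
          rw [hu, hqj]
          exact pow_le_pow_right₀ (by norm_num) (by omega)
        have hEq : E * u ≤ E * qj := by nlinarith
        constructor
        · rintro _ ⟨_, _, h, _⟩
          exact hl h
        · intro _
          linarith
  · have hηj0 : ηj ≤ 0 := by
      rw [hηj]; unfold r2h; rw [if_neg hPj]; split_ifs
      · nlinarith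
      · exact le_rfl
    constructor
    · rintro _ ⟨h, _⟩
      exact hPj h
    · intro _
      have h1 : 2 * E * (v - u) < min (slo n i (r i) (P i)) (slo n j (r j) (P j)) * (v - u) :=
        mul_lt_mul_of_pos_right (lt_min hsi hsj) (by linarith)
      nlinarith

theorem t_R2 : S_R2 := by
  intro n c l ra rb hR i j hij
  have hi := hR i i.2
  have hj := hR j j.2
  have hij' : (i : ℕ) < (j : ℕ) := hij
  have hA := r2_page (fun k => c k = 1) (fun k => c k = 2) n l ra i j hij' hi.1 hj.1 hi.2.1 hi.2.2.1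
  have hB := r2_page (fun k => c k = 2) (fun k => c k = 1) n l rb i j hij' hi.1 hj.1
    hi.2.2.2.1 hi.2.2.2.2
  have hneg : ∀ (k : ℕ) (X : ℤ), r2h (c k = 2) (c k = 1) X = - r2h (c k = 1) (c k = 2) X := by
    intro k X
    unfold r2h
    split_ifs with h1 h2 h3
    · omega
    · ring
    · ring
    · ring
  have hh : ∀ k : Fin n, (lay n c l ra rb).h k = r2h (c k = 1) (c k = 2)
      (2 * 16 ^ n * ((2 * (n : ℤ) + 1) * (16 ^ ((k : ℕ) + 1) - 4 * 16 ^ (l k)))) := by
    intro k
    rfl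
  have hx : ∀ k : Fin n, (lay n c l ra rb).x k = (2 * (n : ℤ) + 1) * 16 ^ ((k : ℕ) + 1) := by
    intro k
    rfl
  have ha : ∀ k : Fin n, (lay n c l ra rb).a k = slo n k (ra k) (c k = 1) := fun k => rfl
  have hb : ∀ k : Fin n, (lay n c l ra rb).b k = slo n k (rb k) (c k = 2) := fun k => rfl
  unfold Lay.Ok
  erw [hh i, hh j, hx i, hx j, ha i, ha j, hb i, hb j]
  simp only [hneg] at hB
  unfold Edg
  rw [not_or]
  refine and_comm.trans (and_congr ?_ ?_)
  · exact hA
  · refine Iff.trans ?_ hB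
    constructor <;> intro h <;> linarith

end Pool.Agent.H606R2.CF
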