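import Pool.Agent.H606R2.CF.Stubs

namespace Pool.Agent.H606R2.CF

theorem t_W1 : S_W1 := by
  intro o₁
  induction o₁ with
  | nil =>
    intro o₂ s s'' v
    constructor
    · intro h
      exact ⟨s, 0, v, ⟨rfl, rfl⟩, h, by omega⟩
    · rintro ⟨s', v₁, v₂, ⟨h1, h2⟩, h3, h4⟩
      subst h1
      subst h2
      subst h4
      simpa using h3
  | cons o os ih =>
    intro o₂ s s'' v
    constructor
    · rintro ⟨b, hb, v', hr, hv⟩
      obtain ⟨s', v₁, v₂, h1, h2, h3⟩ := (ih o₂ _ _ _).1 hr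
      exact ⟨s', v₁ + b.toNat, v₂, ⟨b, hb, v₁, h1, rfl⟩, h2, by omega⟩
    · rintro ⟨s', v₁, v₂, ⟨b, hb, v', hr, hv⟩, h2, h3⟩
      exact ⟨b, hb, v' + v₂, (ih o₂ _ _ _).2 ⟨s', v', v₂, hr, h2, rfl⟩, by omega⟩

end Pool.Agent.H606R2.CF
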