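import Pool.Agent.H606R2.CF.Stubs

/-! Task W2: simulations compose. -/

namespace Pool.Agent.H606R2.CF

theorem W2_countP {α : Type} (p q r : α → Bool) (l : List α)
    (h : ∀ a, p a = true → q a = true ∨ r a = true) : l.countP p ≤ l.countP q + l.countP r := by
  induction l with
  | nil => simp
  | cons a l ih =>
    rw [List.countP_cons, List.countP_cons, List.countP_cons]
    have := h a
    split_ifs <;> first | omega | (exfalso; simp_all)

theorem t_W2 (h1 : S_W1) : S_W2 := by
  constructor
  · intro W a b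
    refine ⟨?_, fun x _ => ⟨rfl, rfl⟩⟩
    rintro x s' v ⟨rfl, rfl⟩
    refine ⟨x, x, rfl, fun i hi => ⟨hi, hi⟩, ?_⟩
    simp
  · intro W o₁ o₂ a b a' b' a'' b'' C₁ C₂ E₁ E₂ hs1 hs2
    refine ⟨?_, ?_⟩
    · intro x s'' v hr
      obtain ⟨s', v₁, v₂, r1, r2, rfl⟩ := (h1 _ _ _ _ _).1 hr
      obtain ⟨x', y₁, rfl, hy1, hv1⟩ := hs1.1 x s' v₁ r1
      obtain ⟨x'', y₂, rfl, hy2, hv2⟩ := hs2.1 x' s'' v₂ r2
      refine ⟨x'', fun i => y₁ i && y₂ i, rfl, ?_, ?_⟩
      · intro i hi
        rw [Bool.and_eq_true] at hi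
        exact ⟨(hy1 i hi.1).1, (hy2 i hi.2).2⟩
      · have c1 : W.countP (fun i => x i && !(y₁ i && y₂ i)) ≤
            W.countP (fun i => x i && !y₁ i) + W.countP (fun i => x' i && !y₂ i) := by
          apply W2_countP
          intro i hi
          rw [Bool.and_eq_true] at hi ⊢
          rw [Bool.and_eq_true]
          cases h : y₁ i
          · left; exact ⟨hi.1, rfl⟩
          · right
            refine ⟨(hy1 i h).2, ?_⟩
            have := hi.2
            rwa [h, Bool.true_and] at this
        have c2 : E₁.countP (fun e => (y₁ e.1 && y₂ e.1) && (y₁ e.2 && y₂ e.2)) ≤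
            E₁.countP (fun e => y₁ e.1 && y₁ e.2) := by
          apply List.countP_mono_left
          intro e _ he
          simp only [Bool.and_eq_true] at he ⊢
          exact ⟨he.1.1, he.2.1⟩
        have c3 : E₂.countP (fun e => (y₁ e.1 && y₂ e.1) && (y₁ e.2 && y₂ e.2)) ≤
            E₂.countP (fun e => y₂ e.1 && y₂ e.2) := by
          apply List.countP_mono_left
          intro e _ he
          simp only [Bool.and_eq_true] at he ⊢
          exact ⟨he.1.2, he.2.2⟩
        beta_reduce
        rw [List.countP_append]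
        omega
    · intro x hx
      refine (h1 _ _ _ _ _).2 ⟨(a'.map x, b'.map x), C₁, C₂, ?_, ?_, rfl⟩
      · exact hs1.2 x fun e he => hx e (List.mem_append_left _ he)
      · exact hs2.2 x fun e he => hx e (List.mem_append_right _ he)

end Pool.Agent.H606R2.CF
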