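import Pool.Agent.H606R2.CF.Stubs

/-! Task W3: the exchange gadget. -/

namespace Pool.Agent.H606R2.CF

/-- all runs -/
def W3_runs : List Op → List Bool × List Bool → List ((List Bool × List Bool) × ℕ)
  | [], s => [(s, 0)]
  | o :: os, s => W3_runs os (step o false s) ++
      (if (att o s).all (fun c => !c) then
        (W3_runs os (step o true s)).map (fun p => (p.1, p.2 + 1)) else [])

theorem W3_mem (ops : List Op) : ∀ s s' v, Runs ops s s' v ↔ (s', v) ∈ W3_runs ops s := by
  induction ops with
  | nil =>
    intro s s' v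
    simp only [Runs, W3_runs, List.mem_singleton, Prod.mk.injEq]
  | cons o os ih =>
    intro s s' v
    rw [Runs, W3_runs, List.mem_append]
    constructor
    · rintro ⟨b, hb, v', hr, rfl⟩
      cases b
      · left
        rw [← ih]
        simpa using hr
      · right
        rw [if_pos (List.all_eq_true.2 fun c hc => by rw [hb rfl c hc]; rfl), List.mem_map]
        exact ⟨(s', v'), (ih _ _ _).1 hr, rfl⟩
    · rintro (h | h)
      · exact ⟨false, by simp, v, (ih _ _ _).2 h, by simp⟩
      · split_ifs at h with hc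
        · obtain ⟨⟨s1, v1⟩, hp, he⟩ := List.mem_map.1 h
          simp only [Prod.mk.injEq] at he
          obtain ⟨rfl, rfl⟩ := he
          refine ⟨true, fun _ c hm => ?_, v1, (ih _ _ _).2 hp, rfl⟩
          have := List.all_eq_true.1 hc c hm
          simpa using this
        · simp at h

/-- no operation looks below the known parts of the stacks -/
def W3_ok : List Op → ℕ → ℕ → Bool
  | [], _, _ => true
  | o :: os, n1, n2 =>
    if o.1 = 1 then decide (o.2.1.length ≤ n1) &&
      W3_ok os (n1 - o.2.1.countP (fun c => !c)) (n2 + o.2.2.2.toNat)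
    else if o.1 = 2 then decide (o.2.1.length ≤ n2) &&
      W3_ok os (n1 + o.2.2.1.toNat) (n2 - o.2.1.countP (fun c => !c))
    else W3_ok os (n1 + o.2.2.1.toNat) (n2 + o.2.2.2.toNat)

theorem W3_keep (m : List Bool) : ∀ l A : List Bool, m.length ≤ l.length →
    keepL m (l ++ A) = keepL m l ++ A ∧
      (keepL m l).length = l.length - m.countP (fun c => !c) := by
  induction m with
  | nil => intro l A _; simp [keepL]
  | cons b m ih =>
    intro l A h
    cases l with
    | nil => simp at h
    | cons x l =>
      have h' : m.length ≤ l.length := by simpa using h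
      obtain ⟨h1, h2⟩ := ih l A h'
      have h3 : m.countP (fun c => !c) ≤ m.length := List.countP_le_length
      cases b
      · simp only [keepL, List.cons_append, Bool.false_eq_true, if_false]
        refine ⟨h1, ?_⟩
        rw [h2, List.countP_cons]
        simp
      · simp only [keepL, List.cons_append, if_true]
        refine ⟨by rw [h1], ?_⟩
        rw [List.length_cons, h2, List.countP_cons, List.length_cons]
        simp
        omega

theorem W3_push (b z : Bool) (l A : List Bool) : pushL b z (l ++ A) = pushL b z l ++ A ∧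
    (pushL b z l).length = l.length + b.toNat := by
  cases b <;> simp [pushL]

theorem W3_loc (ops : List Op) : ∀ l1 l2 A B : List Bool, W3_ok ops l1.length l2.length = true →
    W3_runs ops (l1 ++ A, l2 ++ B) =
      (W3_runs ops (l1, l2)).map (fun p => ((p.1.1 ++ A, p.1.2 ++ B), p.2)) := by
  induction ops with
  | nil => intro l1 l2 A B _; rfl
  | cons o os ih =>
    intro l1 l2 A B h
    have key : (att o (l1 ++ A, l2 ++ B) = att o (l1, l2)) ∧
        ∀ z, W3_ok os (step o z (l1, l2)).1.length (step o z (l1, l2)).2.length = true ∧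
          step o z (l1 ++ A, l2 ++ B) =
            ((step o z (l1, l2)).1 ++ A, (step o z (l1, l2)).2 ++ B) := by
      rw [W3_ok] at h
      unfold att step
      split_ifs at h ⊢ with c1 c2
      · rw [Bool.and_eq_true, decide_eq_true_eq] at h
        obtain ⟨k1, k2⟩ := W3_keep o.2.1 l1 A h.1
        refine ⟨List.take_append_of_le_length h.1, fun z => ?_⟩
        obtain ⟨p1, p2⟩ := W3_push o.2.2.2 z l2 B
        simp only
        rw [k1, k2, p1, p2]
        exact ⟨h.2, rfl⟩
      · rw [Bool.and_eq_true, decide_eq_true_eq] at h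
        obtain ⟨k1, k2⟩ := W3_keep o.2.1 l2 B h.1
        refine ⟨List.take_append_of_le_length h.1, fun z => ?_⟩
        obtain ⟨p1, p2⟩ := W3_push o.2.2.1 z l1 A
        simp only
        rw [k1, k2, p1, p2]
        exact ⟨h.2, rfl⟩
      · refine ⟨rfl, fun z => ?_⟩
        obtain ⟨p1, p2⟩ := W3_push o.2.2.1 z l1 A
        obtain ⟨p3, p4⟩ := W3_push o.2.2.2 z l2 B
        simp only
        rw [p1, p2, p3, p4]
        exact ⟨h, rfl⟩
    rw [W3_runs, W3_runs, key.1, (key.2 false).2, (key.2 true).2, ih _ _ A B (key.2 false).1,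
      ih _ _ A B (key.2 true).1, List.map_append]
    congr 1
    split_ifs
    · rw [List.map_map, List.map_map]
      rfl
    · rfl

/-- the finite check -/
theorem W3_fin : ∀ x y : Bool, (∀ p ∈ W3_runs gX ([x], [y]),
    p.1.1.length = 1 ∧ p.1.2.length = 1 ∧
      p.2 + (x && !(p.1.2.headD false)).toNat + (y && !(p.1.1.headD false)).toNat ≤ 4) ∧
    (([y], [x]), 4) ∈ W3_runs gX ([x], [y]) := by
  decide +kernel

theorem t_W3 : S_W3 := by
  intro x y A B
  have hl := W3_loc gX [x] [y] A B rfl
  obtain ⟨f1, f2⟩ := W3_fin x y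
  constructor
  · intro s' v hr
    rw [W3_mem] at hr
    change (s', v) ∈ W3_runs gX ([x] ++ A, [y] ++ B) at hr
    rw [hl, List.mem_map] at hr
    obtain ⟨⟨⟨l1, l2⟩, w⟩, hp, he⟩ := hr
    obtain ⟨g1, g2, g3⟩ := f1 _ hp
    simp only at g1 g2 g3
    obtain ⟨y', rfl⟩ := List.length_eq_one_iff.1 g1
    obtain ⟨x', rfl⟩ := List.length_eq_one_iff.1 g2
    simp only [Prod.mk.injEq] at he
    obtain ⟨he1, he2⟩ := he
    subst he2
    exact ⟨x', y', he1.symm, g3⟩
  · rw [W3_mem]
    change ((y :: A, x :: B), 4) ∈ W3_runs gX ([x] ++ A, [y] ++ B)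
    rw [hl, List.mem_map]
    exact ⟨_, f2, rfl⟩

end Pool.Agent.H606R2.CF
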