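import Pool.Agent.H606R2.CF.Stubs

/-!
# Crossing families: the edge gadget
-/

set_option autoImplicit false

namespace Pool.Agent.H606R2.CF

theorem W4_bool : ∀ x y z1 z2 p1 p2 n1 n2 : Bool,
    (p1 = true → z1 = false ∧ x = false) → (p2 = true → z1 = false ∧ x = false) →
    (n1 = true → p2 = false ∧ z2 = false ∧ y = false) → (n2 = true → z2 = false ∧ y = false) →
    (((((n2.toNat + n1.toNat) + p2.toNat) + p1.toNat) + z2.toNat) + z1.toNat) +
      (x && !z1).toNat + (y && !z2).toNat + ((x && z1) && (y && z2)).toNat ≤ 3 := by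
  intro x y z1 z2
  cases x <;> cases y <;> cases z1 <;> cases z2 <;> decide

theorem t_W4 : S_W4 := by
  intro x y A B
  constructor
  · intro s' v h
    simp only [gE, oZ1, oZ2, oP, oN, Runs] at h
    obtain ⟨z1, -, v1, ⟨z2, -, v2, ⟨p1, hp1, v3, ⟨p2, hp2, v4, ⟨n1, hn1, v5, ⟨n2, hn2, v6,
      ⟨hs, h6⟩, h5⟩, h4⟩, h3⟩, h2⟩, h1⟩, h0⟩ := h
    refine ⟨z1, z2, ?_, ?_⟩
    · rw [hs]
      simp [step, keepL, pushL]
    · simp [att, step, pushL, keepL] at hp1 hp2 hn1 hn2
      subst h6 h5 h4 h3 h2 h1 h0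
      have := W4_bool x y z1 z2 p1 p2 n1 n2 (by simpa using hp1) (by simpa using hp2)
        (by simpa using hn1) (by simpa using hn2)
      simpa using this
  · intro hxy
    simp only [gE, oZ1, oZ2, oP, oN, Runs]
    cases x <;> cases y <;> simp_all [att, step, keepL, pushL]

end Pool.Agent.H606R2.CF
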