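import Mathlib

/-!
# Crossing families: the combinatorial machine

A program is a list of operations creating vertices `0, 1, 2, …`. There are two stacks of vertices.
-/

namespace Pool.Agent.H606R2.CF

/-- An operation: kind, mask of kept entries, push on stack `A`, push on stack `B`.
* kind `1`: the new vertex is attached to the top entries of stack `A` (as many as the mask is
  long); those with mask `false` are removed from stack `A`; the new vertex is pushed on stack `B`
  if the last entry says so.
* kind `2`: the same with `A` and `B` exchanged.
* other kinds: the new vertex is attached to nothing; it may be pushed on both stacks. -/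
abbrev Op : Type := ℕ × List Bool × Bool × Bool

/-- Remove the entries with mask `false`. -/
def keepL {α : Type} : List Bool → List α → List α
  | [], l => l
  | _ :: _, [] => []
  | m :: ms, x :: l => if m then x :: keepL ms l else keepL ms l

/-- Push. -/
def pushL {α : Type} (b : Bool) (z : α) (l : List α) : List α := if b then z :: l else l

/-- The entries a new vertex gets attached to. -/
def att {α : Type} (o : Op) (s : List α × List α) : List α :=
  if o.1 = 1 then s.1.take o.2.1.length else if o.1 = 2 then s.2.take o.2.1.length else []

/-- One step; `z` is the new vertex. -/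
def step {α : Type} (o : Op) (z : α) (s : List α × List α) : List α × List α :=
  if o.1 = 1 then (keepL o.2.1 s.1, pushL o.2.2.2 z s.2)
  else if o.1 = 2 then (pushL o.2.2.1 z s.1, keepL o.2.1 s.2)
  else (pushL o.2.2.1 z s.1, pushL o.2.2.2 z s.2)

/-- The lists of attached vertices, starting with vertex `k` and stacks `s`. -/
def atts : List Op → ℕ → List ℕ × List ℕ → List (List ℕ)
  | [], _, _ => []
  | o :: os, k, s => att o s :: atts os (k + 1) (step o k s)

/-- The table of a program. -/
def tab (ops : List Op) : List (List ℕ) := atts ops 0 ([], [])

/-- The kinds of vertices. -/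
def kd (ops : List Op) (j : ℕ) : ℕ := (ops.map Prod.fst).getD j 0

/-- Vertices attached to vertex `j`. -/
def nb (ops : List Op) (j : ℕ) : List ℕ := (tab ops).getD j []

/-- Lowest vertex attached to `j`. -/
def lo (ops : List Op) (j : ℕ) : ℕ := (nb ops j).getLastD j

/-- The last vertex of kind `c` attached to `i` (or `i`). -/
def re (c : ℕ) (ops : List Op) (i : ℕ) : ℕ :=
  (List.range ops.length).foldl (fun r j => if kd ops j = c ∧ i ∈ nb ops j then j else r) i

/-- Runs: choose for each new vertex whether it is selected (`true`); a vertex attached to a
selected one must not be selected; `v` is the number of selected vertices. -/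
def Runs : List Op → List Bool × List Bool → List Bool × List Bool → ℕ → Prop
  | [], s, s', v => s' = s ∧ v = 0
  | o :: os, s, s', v => ∃ b : Bool, (b = true → ∀ c ∈ att o s, c = false) ∧
      ∃ v', Runs os (step o b s) s' v' ∧ v = v' + b.toNat

/-! ### The gadgets -/

/-- Initial push. -/
def oZ1 : Op := (0, [], true, false)
/-- Push on the second stack. -/
def oZ2 : Op := (0, [], false, true)
/-- Push on both stacks. -/
def oZ3 : Op := (0, [], true, true)
/-- Above. -/
def oP (m : List Bool) (p : Bool) : Op := (1, m, false, p)
/-- Below. -/
def oN (m : List Bool) (p : Bool) : Op := (2, m, p, false)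

/-- Exchange the top of the stacks. -/
def gX : List Op :=
  [oZ3, oZ3, oP [true, false, false] false, oN [true, false] true, oZ3,
   oN [false, true, false] false, oP [true, false, false] true, oN [false, false] true,
   oP [false] true]

/-- Edge. -/
def gE : List Op :=
  [oZ1, oZ2, oP [true, true] false, oP [true, false] true, oN [false, true, true] false,
   oN [true, false] false]

/-- Move from `A` to `B`. -/
def gAB : List Op := [oZ3, oP [false, false] false]

/-- Move from `B` to `A`. -/
def gBA : List Op := [oZ3, oN [false, false] false]

/-- Treat one other wire. -/
def inner (e : Bool) : List Op := (if e then gE else []) ++ gX ++ gAB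

/-- One round: the top wire `w` passes all other wires. -/
def round (adj : ℕ → ℕ → Bool) : List ℕ → List Op
  | [] => []
  | w :: l => gAB ++ l.flatMap (fun u => inner (adj u w)) ++ (w :: l).flatMap (fun _ => gBA)

/-- The rounds, the wires being stacked in the order `V` (top first). -/
def rounds (adj : ℕ → ℕ → Bool) (V : List ℕ) : List Op :=
  (List.range V.length).flatMap (fun i => round adj (V.drop i ++ V.take i))

/-- The whole program. -/
def prog (adj : ℕ → ℕ → Bool) (V : List ℕ) : List Op :=
  V.map (fun _ => oZ1) ++ rounds adj V

/-- The constant of one round. -/
def cRound (adj : ℕ → ℕ → Bool) : List ℕ → ℕ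
  | [] => 0
  | w :: l => 1 + (l.map (fun u => 5 + if adj u w then 3 else 0)).sum + (l.length + 1)

/-- The total constant. -/
def cTot (adj : ℕ → ℕ → Bool) (V : List ℕ) : ℕ :=
  ((List.range V.length).map (fun i => cRound adj (V.drop i ++ V.take i))).sum

end Pool.Agent.H606R2.CF
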