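import Pool.Agent.H606R2.CF.Defs
import Pool.Agent.H606R2.CF.Mach

/-!
# Statements of the tasks (group G: geometry, group R: coordinates, group M: machine,
group W: wires, group Z: complexity)
-/

namespace Pool.Agent.H606R2.CF

open Finset

/-! ### Group G: geometry -/

/-- Proper crossing in terms of orientations. -/
def S_G1 : Prop := ∀ a b c d : Pt, a ≠ b → c ≠ d →
  (CrossProperly (toR a) (toR b) (toR c) (toR d) ↔ Cr a b c d)

open Classical in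
/-- Combinatorial consequences for a crossing family. -/
structure FamFacts (S : Finset Pt) (F : Finset (Sym2 Pt)) : Prop where
  mem : ∀ a b, s(a, b) ∈ F → a ∈ S ∧ b ∈ S ∧ a ≠ b
  cr : ∀ a b c d, s(a, b) ∈ F → s(c, d) ∈ F → s(a, b) ≠ s(c, d) → Cr a b c d
  func : ∀ a b c, s(a, b) ∈ F → s(a, c) ∈ F → b = c
  card : (S.filter (fun p => ∃ q, s(p, q) ∈ F)).card = 2 * F.card
  halving : ∀ a b, s(a, b) ∈ F → |∑ z ∈ S, (orient a b z).sign| ≤ (S.card : ℤ) - 2 * F.card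

/-- Facts on crossing families. -/
def S_G2 : Prop := ∀ (S : Finset Pt) (F : Finset (Sym2 Pt)), IsCrossingFamily S F → FamFacts S F

/-- `cf` is attained. -/
def S_G3 : Prop := ∀ (S : Finset Pt) (k : ℕ), k ≤ cf S ↔ ∃ F, IsCrossingFamily S F ∧ k ≤ F.card

/-- The counting lemma (pure combinatorics). -/
def S_G4 : Prop := ∀ (T J : Type) [Fintype T] [Fintype J] [DecidableEq T] [DecidableEq J]
  (R : (T ⊕ J) × Bool → (T ⊕ J) × Bool → Prop) (gap : T → J → Prop) (k : ℕ),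
  (∀ v w, R v w → R w v) → (∀ v w w', R v w → R v w' → w = w') →
  (∀ v w, R v w → w.2 = !v.2) →
  (∀ t t' β β', R (Sum.inl t, β) (Sum.inl t', β') → t = t') →
  (∀ i j β β', R (Sum.inr i, β) (Sum.inr j, β') → i = j) →
  (∀ t i j, gap t i → gap t j → i = j) →
  (∀ t j β β', R (Sum.inr j, β) (Sum.inl t, β') → gap t j) →
  (∀ t j, ¬ (R (Sum.inr j, true) (Sum.inl t, false) ∧ R (Sum.inl t, true) (Sum.inr j, false))) →
  (∃ U : Finset (T ⊕ J), Fintype.card T + k ≤ U.card ∧ ∀ v ∈ U, ∃ w, R (v, true) w) →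
  ∃ K : Finset J, k ≤ K.card ∧ ∀ j ∈ K, R (Sum.inr j, true) (Sum.inr j, false)

/-- The points are different. -/
def S_G5 : Prop := ∀ L : Lay, L.Good → Function.Injective L.pt ∧
  L.S.card = 2 * ((L.n + 1) * L.M + L.n)

/-- Base points are only matched to their twins. -/
def S_G6 : Prop := ∀ (L : Lay), L.Good → ∀ F, FamFacts L.S F → (L.n + 1) * L.M ≤ F.card →
  ∀ i i' β β', s(L.pt (Sum.inl i, β), L.pt (Sum.inl i', β')) ∈ F → i = i' ∧ β' = !β

/-- Each bundle contains a matched pair of twins. -/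
def S_G7 : Prop := ∀ (L : Lay), L.Good → ∀ F, FamFacts L.S F → (L.n + 1) * L.M ≤ F.card →
  ∀ i, ∃ k, s(L.pt (Sum.inl (i, k), true), L.pt (Sum.inl (i, k), false)) ∈ F

/-- Partners of the points of a slot. -/
def S_G8 : Prop := ∀ (L : Lay), L.Good → ∀ F, FamFacts L.S F →
  ∀ r : Fin (L.n + 1) → Fin L.M,
  (∀ i, s(L.pt (Sum.inl (i, r i), true), L.pt (Sum.inl (i, r i), false)) ∈ F) →
  ∀ j β w, s(L.pt (Sum.inr j, β), L.pt w) ∈ F → w.2 = (!β) ∧
    (w.1 = Sum.inr j ∨ ∃ i, w.1 = Sum.inl i ∧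
      L.t j.castSucc (r j.castSucc) < L.t i.1 i.2 ∧ L.t i.1 i.2 < L.t j.succ (r j.succ))

/-- The two lines of a slot are not matched to the two lines of a base pair. -/
def S_G9 : Prop := ∀ (L : Lay), L.Good → ∀ F, FamFacts L.S F → ∀ i j,
  ¬ (s(L.pt (Sum.inr j, true), L.pt (Sum.inl i, false)) ∈ F ∧
     s(L.pt (Sum.inl i, true), L.pt (Sum.inr j, false)) ∈ F)

/-- Crossing of the segments of two slots. -/
def S_G10 : Prop := ∀ (L : Lay), L.Good → ∀ i j : Fin L.n, i < j →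
  (Cr (L.pt (Sum.inr i, true)) (L.pt (Sum.inr i, false)) (L.pt (Sum.inr j, true))
    (L.pt (Sum.inr j, false)) ↔ L.Ok i j)

/-- Crossing of base pairs with base pairs and with slots. -/
def S_G11 : Prop := ∀ (L : Lay), L.Good →
  (∀ i i', i ≠ i' → Cr (L.pt (Sum.inl i, true)) (L.pt (Sum.inl i, false))
    (L.pt (Sum.inl i', true)) (L.pt (Sum.inl i', false))) ∧
  (∀ i j, Cr (L.pt (Sum.inl i, true)) (L.pt (Sum.inl i, false))
    (L.pt (Sum.inr j, true)) (L.pt (Sum.inr j, false)))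

/-- The forcing theorem. -/
def S_G12 : Prop := ∀ (L : Lay), L.Good → ∀ k : ℕ,
  ((∃ F, IsCrossingFamily L.S F ∧ (L.n + 1) * L.M + k ≤ F.card) ↔
    ∃ J : Finset (Fin L.n), k ≤ J.card ∧ ∀ i ∈ J, ∀ j ∈ J, i < j → L.Ok i j)

/-! ### Group R: coordinates -/

/-- Slope of a rising (or falling) line. -/
def slo (n j r : ℕ) (steep : Prop) [Decidable steep] : ℤ :=
  if steep then 4 * 16 ^ n else 2 * 16 ^ n + 16 ^ (n + j - r)

/-- The explicit layout: `c` kinds, `l` lowest neighbour, `ra`, `rb` last neighbours. -/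
def lay (n : ℕ) (c l ra rb : ℕ → ℕ) : Lay where
  n := n
  M := 2 * n + 1
  A := 64 * (2 * n + 1) * 256 ^ n
  t := fun i k => 4 * (2 * n + 1) * 16 ^ (i : ℕ) + (k : ℕ)
  x := fun j => (2 * n + 1) * 16 ^ ((j : ℕ) + 1)
  h := fun j => if c j = 1 then 2 * 16 ^ n * ((2 * n + 1) * (16 ^ ((j : ℕ) + 1) - 4 * 16 ^ (l j)))
    else if c j = 2 then -(2 * 16 ^ n * ((2 * n + 1) * (16 ^ ((j : ℕ) + 1) - 4 * 16 ^ (l j)))) else 0
  a := fun j => slo n j (ra j) (c j = 1)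
  b := fun j => slo n j (rb j) (c j = 2)

/-- Adjacency of vertices `i < j`. -/
def Edg (c l ra rb : ℕ → ℕ) (i j : ℕ) : Prop :=
  (c j = 1 ∧ c i ≠ 1 ∧ l j ≤ i ∧ j ≤ ra i) ∨ (c j = 2 ∧ c i ≠ 2 ∧ l j ≤ i ∧ j ≤ rb i)

/-- Reaches are in the right ranges. -/
def Rng (n : ℕ) (l ra rb : ℕ → ℕ) : Prop :=
  ∀ j < n, l j ≤ j ∧ j ≤ ra j ∧ ra j < n ∧ j ≤ rb j ∧ rb j < n

/-- The layout is good. -/
def S_R1 : Prop := ∀ n c l ra rb, Rng n l ra rb → (lay n c l ra rb).Good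

/-- The conflicts are the edges. -/
def S_R2 : Prop := ∀ n c l ra rb, Rng n l ra rb → ∀ i j : Fin n, i < j →
  ((lay n c l ra rb).Ok i j ↔ ¬ Edg c l ra rb i j)

/-! ### Group M: the machine -/

/-- Selections and runs. -/
def S_M1 : Prop := ∀ (ops : List Op) (K : ℕ),
  (∃ s' v, Runs ops ([], []) s' v ∧ K ≤ v) ↔
    ∃ J : Finset (Fin ops.length), K ≤ J.card ∧ ∀ i ∈ J, ∀ j ∈ J, i.val ∉ nb ops j.val

/-- The neighbours in terms of the reaches. -/
def S_M2 : Prop := ∀ (ops : List Op),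
  Rng ops.length (lo ops) (re 1 ops) (re 2 ops) ∧
  ∀ i j, i < ops.length → j < ops.length →
    (i ∈ nb ops j ↔ i < j ∧ Edg (kd ops) (lo ops) (re 1 ops) (re 2 ops) i j)

/-! ### Group W: wires -/

/-- `ops` transports the wires `a, b` (top first) to `a', b'` at cost `C`, with penalties `E`.
`W` is the list of all wires. -/
def Sim (W : List ℕ) (ops : List Op) (a b a' b' : List ℕ) (C : ℕ) (E : List (ℕ × ℕ)) : Prop :=
  (∀ (x : ℕ → Bool) s' v, Runs ops (a.map x, b.map x) s' v →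
    ∃ x' y : ℕ → Bool, s' = (a'.map x', b'.map x') ∧
      (∀ i, y i = true → x i = true ∧ x' i = true) ∧
      v + W.countP (fun i => x i && !y i) + E.countP (fun e => y e.1 && y e.2) ≤ C) ∧
  (∀ x : ℕ → Bool, (∀ e ∈ E, ¬ (x e.1 = true ∧ x e.2 = true)) →
    Runs ops (a.map x, b.map x) (a'.map x, b'.map x) C)

/-- Runs of concatenated programs. -/
def S_W1 : Prop := ∀ (o₁ o₂ : List Op) s s'' v,
  Runs (o₁ ++ o₂) s s'' v ↔ ∃ s' v₁ v₂, Runs o₁ s s' v₁ ∧ Runs o₂ s' s'' v₂ ∧ v = v₁ + v₂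

/-- Simulations compose. -/
def S_W2 : Prop := (∀ W a b, Sim W [] a b a b 0 []) ∧
  ∀ W o₁ o₂ a b a' b' a'' b'' C₁ C₂ E₁ E₂, Sim W o₁ a b a' b' C₁ E₁ → Sim W o₂ a' b' a'' b'' C₂ E₂ →
    Sim W (o₁ ++ o₂) a b a'' b'' (C₁ + C₂) (E₁ ++ E₂)

/-- The exchange gadget. -/
def S_W3 : Prop := ∀ (x y : Bool) (A B : List Bool),
  (∀ s' v, Runs gX (x :: A, y :: B) s' v → ∃ x' y', s' = (y' :: A, x' :: B) ∧
    v + (x && !x').toNat + (y && !y').toNat ≤ 4) ∧
  Runs gX (x :: A, y :: B) (y :: A, x :: B) 4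

/-- The edge gadget. -/
def S_W4 : Prop := ∀ (x y : Bool) (A B : List Bool),
  (∀ s' v, Runs gE (x :: A, y :: B) s' v → ∃ x' y', s' = (x' :: A, y' :: B) ∧
    v + (x && !x').toNat + (y && !y').toNat + ((x && x') && (y && y')).toNat ≤ 3) ∧
  ((x && y) = false → Runs gE (x :: A, y :: B) (x :: A, y :: B) 3)

/-- The moves. -/
def S_W5 : Prop := ∀ (x : Bool) (A B : List Bool),
  (∀ s' v, Runs gAB (x :: A, B) s' v → ∃ x', s' = (A, x' :: B) ∧ v + (x && !x').toNat ≤ 1) ∧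
  Runs gAB (x :: A, B) (A, x :: B) 1 ∧
  (∀ s' v, Runs gBA (A, x :: B) s' v → ∃ x', s' = (x' :: A, B) ∧ v + (x && !x').toNat ≤ 1) ∧
  Runs gBA (A, x :: B) (x :: A, B) 1

/-- The gadgets as simulations. -/
def S_W6 : Prop := ∀ (W : List ℕ), W.Nodup →
  (∀ u w a b, ((u :: a) ++ (w :: b)).Perm W → Sim W gX (u :: a) (w :: b) (w :: a) (u :: b) 4 []) ∧
  (∀ u w a b, ((u :: a) ++ (w :: b)).Perm W →
    Sim W gE (u :: a) (w :: b) (u :: a) (w :: b) 3 [(u, w)]) ∧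
  (∀ u a b, ((u :: a) ++ b).Perm W → Sim W gAB (u :: a) b a (u :: b) 1 []) ∧
  (∀ w a b, (a ++ (w :: b)).Perm W → Sim W gBA a (w :: b) (w :: a) b 1 [])

/-- The pairs penalised in a round. -/
def eRound (adj : ℕ → ℕ → Bool) : List ℕ → List (ℕ × ℕ)
  | [] => []
  | w :: l => (l.filter (fun u => adj u w)).map (fun u => (u, w))

/-- One round. -/
def S_W7 : Prop := ∀ (W : List ℕ), W.Nodup → ∀ (adj : ℕ → ℕ → Bool) w l, (w :: l).Perm W →
  Sim W (round adj (w :: l)) (w :: l) [] (l ++ [w]) [] (cRound adj (w :: l)) (eRound adj (w :: l))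

/-- All rounds. -/
def S_W8 : Prop := ∀ (V : List ℕ), V.Nodup → ∀ (adj : ℕ → ℕ → Bool),
  Sim V (rounds adj V) V [] V [] (cTot adj V)
    ((List.range V.length).flatMap (fun i => eRound adj (V.drop i ++ V.take i)))

/-- The program computes the independence number. -/
def S_W9 : Prop := ∀ (V : List ℕ), V.Nodup → ∀ (adj : ℕ → ℕ → Bool) (k : ℕ),
  (∃ s' v, Runs (prog adj V) ([], []) s' v ∧ cTot adj V + k ≤ v) ↔
    ∃ K : Finset ℕ, (∀ v ∈ K, v ∈ V) ∧ k ≤ K.card ∧ ∀ u ∈ K, ∀ w ∈ K, u ≠ w → adj u w = false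

end Pool.Agent.H606R2.CF
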