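import Mathlib
import Pool.Agent.H606R2.CF.Stubs

/-! Task W5: the moves. -/

namespace Pool.Agent.H606R2.CF

theorem t_W5 : S_W5 := by
  intro x A B
  refine ⟨?_, ?_, ?_, ?_⟩
  · intro s' v h
    simp only [gAB, Runs, oZ3, oP, att, step, keepL, pushL] at h
    obtain ⟨b, -, v1, ⟨b2, hb2, v2, ⟨rfl, rfl⟩, rfl⟩, rfl⟩ := h
    refine ⟨b, by simp [keepL], ?_⟩
    revert hb2
    cases b <;> cases b2 <;> cases x <;> simp
  · refine ⟨x, by simp [att, oZ3], (!x).toNat, ⟨!x, ?_, 0, ⟨?_, rfl⟩, by simp⟩, ?_⟩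
    · cases x <;> simp [att, oP, step, oZ3, pushL]
    · simp [oP, step, oZ3, pushL, keepL]
    · cases x <;> rfl
  · intro s' v h
    simp only [gBA, Runs, oZ3, oN, att, step, keepL, pushL] at h
    obtain ⟨b, -, v1, ⟨b2, hb2, v2, ⟨rfl, rfl⟩, rfl⟩, rfl⟩ := h
    refine ⟨b, by simp [keepL], ?_⟩
    revert hb2
    cases b <;> cases b2 <;> cases x <;> simp
  · refine ⟨x, by simp [att, oZ3], (!x).toNat, ⟨!x, ?_, 0, ⟨?_, rfl⟩, by simp⟩, ?_⟩
    · cases x <;> simp [att, oN, step, oZ3, pushL]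
    · simp [oN, step, oZ3, pushL, keepL]
    · cases x <;> rfl

end Pool.Agent.H606R2.CF
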