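import Pool.Agent.H606R2.CF.Stubs

/-! W6: the gadgets as simulations.  helper329. -/

namespace Pool.Agent.H606R2.CF

private theorem w6_zero (p : ℕ → Bool) (l : List ℕ) (h : ∀ i ∈ l, p i = false) :
    l.countP p = 0 := by
  rw [List.countP_eq_zero]
  intro i hi
  rw [h i hi]
  simp

private theorem w6_one (W : List ℕ) (hW : W.Nodup) (u : ℕ) (a b : List ℕ)
    (hp : ((u :: a) ++ b).Perm W) (x : ℕ → Bool) (xu : Bool) :
    ∃ x' y : ℕ → Bool, x' u = xu ∧ a.map x' = a.map x ∧ b.map x' = b.map x ∧
      (∀ i, y i = true → x i = true ∧ x' i = true) ∧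
      W.countP (fun i => x i && !y i) = (x u && !xu).toNat := by
  have hn : ((u :: a) ++ b).Nodup := hp.nodup_iff.2 hW
  rw [List.cons_append, List.nodup_cons, List.mem_append] at hn
  obtain ⟨hu, -⟩ := hn
  push Not at hu
  obtain ⟨x', hx'⟩ : ∃ x' : ℕ → Bool, x' = Function.update x u xu := ⟨_, rfl⟩
  have h1 : x' u = xu := by rw [hx']; exact Function.update_self _ _ _
  have h2 : ∀ i, i ≠ u → x' i = x i := fun i hi => by
    rw [hx']; exact Function.update_of_ne hi _ _
  have ha : ∀ i ∈ a, x' i = x i := fun i hi => h2 i (fun e => hu.1 (e ▸ hi))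
  have hb : ∀ i ∈ b, x' i = x i := fun i hi => h2 i (fun e => hu.2 (e ▸ hi))
  refine ⟨x', fun i => x i && x' i, h1, List.map_congr_left ha, List.map_congr_left hb, ?_, ?_⟩
  · intro i hi
    simpa using hi
  · rw [← hp.countP_eq, List.countP_append, List.countP_cons]
    rw [w6_zero _ a, w6_zero _ b]
    · simp only [h1]
      cases x u <;> cases xu <;> simp
    · intro i hi
      simp only [hb i hi]
      cases x i <;> simp
    · intro i hi
      simp only [ha i hi]
      cases x i <;> simp

private theorem w6_two (W : List ℕ) (hW : W.Nodup) (u w : ℕ) (a b : List ℕ)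
    (hp : ((u :: a) ++ (w :: b)).Perm W) (x : ℕ → Bool) (xu xw : Bool) :
    ∃ x' y : ℕ → Bool, x' u = xu ∧ x' w = xw ∧ a.map x' = a.map x ∧ b.map x' = b.map x ∧
      (∀ i, y i = true → x i = true ∧ x' i = true) ∧
      W.countP (fun i => x i && !y i) = (x u && !xu).toNat + (x w && !xw).toNat ∧
      y u = (x u && xu) ∧ y w = (x w && xw) := by
  have hn : ((u :: a) ++ (w :: b)).Nodup := hp.nodup_iff.2 hW
  rw [List.nodup_append] at hn
  obtain ⟨hn1, hn2, hn3⟩ := hn
  rw [List.nodup_cons] at hn1 hn2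
  have huw : u ≠ w := hn3 u (by simp) w (by simp)
  have hub : u ∉ b := fun h => hn3 u (by simp) u (by simp [h]) rfl
  have hwa : w ∉ a := fun h => hn3 w (by simp [h]) w (by simp) rfl
  obtain ⟨x', hx'⟩ : ∃ x' : ℕ → Bool, x' = Function.update (Function.update x u xu) w xw :=
    ⟨_, rfl⟩
  have h1 : x' u = xu := by
    rw [hx', Function.update_of_ne huw]; exact Function.update_self _ _ _
  have h1' : x' w = xw := by rw [hx']; exact Function.update_self _ _ _
  have h2 : ∀ i, i ≠ u → i ≠ w → x' i = x i := fun i hi hi' => by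
    rw [hx', Function.update_of_ne hi', Function.update_of_ne hi]
  have ha : ∀ i ∈ a, x' i = x i := fun i hi => h2 i (fun e => hn1.1 (e ▸ hi)) (fun e => hwa (e ▸ hi))
  have hb : ∀ i ∈ b, x' i = x i := fun i hi => h2 i (fun e => hub (e ▸ hi)) (fun e => hn2.1 (e ▸ hi))
  refine ⟨x', fun i => x i && x' i, h1, h1', List.map_congr_left ha, List.map_congr_left hb, ?_, ?_,
    ?_, ?_⟩
  · intro i hi
    simpa using hi
  · rw [← hp.countP_eq, List.countP_append, List.countP_cons, List.countP_cons]
    rw [w6_zero _ a, w6_zero _ b]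
    · simp only [h1, h1']
      cases x u <;> cases xu <;> cases x w <;> cases xw <;> simp
    · intro i hi
      simp only [hb i hi]
      cases x i <;> simp
    · intro i hi
      simp only [ha i hi]
      cases x i <;> simp
  · simp only [h1]
  · simp only [h1']

theorem t_W6 (h3 : S_W3) (h4 : S_W4) (h5 : S_W5) : S_W6 := by
  intro W hW
  refine ⟨?_, ?_, ?_, ?_⟩
  · intro u w a b hp
    refine ⟨?_, ?_⟩
    · intro x s' v hr
      obtain ⟨x1, y1, rfl, hle⟩ := (h3 (x u) (x w) (a.map x) (b.map x)).1 s' v hr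
      obtain ⟨x', y, e1, e2, e3, e4, e5, e6, -, -⟩ := w6_two W hW u w a b hp x x1 y1
      refine ⟨x', y, ?_, e5, ?_⟩
      · simp only [List.map_cons, e1, e2, e3, e4]
      · rw [e6, List.countP_nil]
        omega
    · intro x _
      exact (h3 (x u) (x w) (a.map x) (b.map x)).2
  · intro u w a b hp
    refine ⟨?_, ?_⟩
    · intro x s' v hr
      obtain ⟨x1, y1, rfl, hle⟩ := (h4 (x u) (x w) (a.map x) (b.map x)).1 s' v hr
      obtain ⟨x', y, e1, e2, e3, e4, e5, e6, e7, e8⟩ := w6_two W hW u w a b hp x x1 y1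
      refine ⟨x', y, ?_, e5, ?_⟩
      · simp only [List.map_cons, e1, e2, e3, e4]
      · rw [e6, List.countP_cons, List.countP_nil]
        simp only [e7, e8]
        have : (if ((x u && x1) && (x w && y1)) = true then 1 else 0) =
            ((x u && x1) && (x w && y1)).toNat := by
          cases ((x u && x1) && (x w && y1)) <;> simp
        omega
    · intro x hx
      refine (h4 (x u) (x w) (a.map x) (b.map x)).2 ?_
      have := hx (u, w) (by simp)
      cases hxu : x u <;> cases hxw : x w <;> simp_all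
  · intro u a b hp
    refine ⟨?_, ?_⟩
    · intro x s' v hr
      obtain ⟨x1, rfl, hle⟩ := (h5 (x u) (a.map x) (b.map x)).1 s' v hr
      obtain ⟨x', y, e1, e3, e4, e5, e6⟩ := w6_one W hW u a b hp x x1
      refine ⟨x', y, ?_, e5, ?_⟩
      · simp only [List.map_cons, e1, e3, e4]
      · rw [e6, List.countP_nil]
        omega
    · intro x _
      exact (h5 (x u) (a.map x) (b.map x)).2.1
  · intro w a b hp
    have hp' : ((w :: a) ++ b).Perm W := (List.perm_middle.symm).trans hp
    refine ⟨?_, ?_⟩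
    · intro x s' v hr
      obtain ⟨x1, rfl, hle⟩ := (h5 (x w) (a.map x) (b.map x)).2.2.1 s' v hr
      obtain ⟨x', y, e1, e3, e4, e5, e6⟩ := w6_one W hW w a b hp' x x1
      refine ⟨x', y, ?_, e5, ?_⟩
      · simp only [List.map_cons, e1, e3, e4]
      · rw [e6, List.countP_nil]
        omega
    · intro x _
      exact (h5 (x w) (a.map x) (b.map x)).2.2.2

end Pool.Agent.H606R2.CF
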