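import Pool.Agent.H606R2.CF.Stubs

/-! Task W7: one round -/

set_option autoImplicit false

namespace Pool.Agent.H606R2.CF

theorem W7_back (hW2 : S_W2) (hW6 : S_W6) (W : List ℕ) (hW : W.Nodup) :
    ∀ (b a : List ℕ), (a ++ b).Perm W →
      Sim W (b.flatMap (fun _ => gBA)) a b (b.reverse ++ a) [] b.length [] := by
  intro b
  induction b with
  | nil =>
    intro a _
    simpa using hW2.1 W a []
  | cons v b ih =>
    intro a hp
    have h1 := (hW6 W hW).2.2.2 v a b hp
    have h2 := ih (v :: a) (by
      refine List.Perm.trans ?_ hp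
      simpa using (List.perm_middle (l₁ := a) (l₂ := b) (a := v)).symm)
    have h3 := hW2.2 W _ _ _ _ _ _ _ _ _ _ _ _ h1 h2
    have e1 : (v :: b).flatMap (fun _ => gBA) = gBA ++ b.flatMap (fun _ => gBA) := by simp
    have e2 : (v :: b).reverse ++ a = b.reverse ++ (v :: a) := by simp
    have e3 : (v :: b).length = 1 + b.length := by simp [Nat.add_comm]
    rw [e1, e2, e3]
    simpa using h3

theorem W7_inner (hW2 : S_W2) (hW6 : S_W6) (W : List ℕ) (hW : W.Nodup) (u w : ℕ) (a b : List ℕ)
    (e : Bool) (hp : ((u :: a) ++ (w :: b)).Perm W) :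
    Sim W (inner e) (u :: a) (w :: b) a (w :: u :: b) (5 + if e then 3 else 0)
      (if e then [(u, w)] else []) := by
  have hX := (hW6 W hW).1 u w a b hp
  have hA := (hW6 W hW).2.2.1 w a (u :: b) (by
    refine List.Perm.trans ?_ hp
    have h1 : ((w :: a) ++ (u :: b)).Perm (w :: u :: (a ++ b)) := by
      simpa using (List.perm_middle (l₁ := a) (l₂ := b) (a := u)).cons w
    have h2 : ((u :: a) ++ (w :: b)).Perm (u :: w :: (a ++ b)) := by
      simpa using (List.perm_middle (l₁ := a) (l₂ := b) (a := w)).cons u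
    exact h1.trans ((List.Perm.swap u w _).trans h2.symm))
  have hXA := hW2.2 W _ _ _ _ _ _ _ _ _ _ _ _ hX hA
  unfold inner
  cases e with
  | false => simpa using hXA
  | true =>
    have hE := (hW6 W hW).2.1 u w a b hp
    have h := hW2.2 W _ _ _ _ _ _ _ _ _ _ _ _ hE hXA
    simpa using h

theorem W7_loop (hW2 : S_W2) (hW6 : S_W6) (W : List ℕ) (hW : W.Nodup) (adj : ℕ → ℕ → Bool)
    (w : ℕ) : ∀ (l b : List ℕ), (l ++ (w :: b)).Perm W →
      Sim W (l.flatMap (fun u => inner (adj u w))) l (w :: b) [] (w :: (l.reverse ++ b))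
        ((l.map (fun u => 5 + if adj u w then 3 else 0)).sum)
        ((l.filter (fun u => adj u w)).map (fun u => (u, w))) := by
  intro l
  induction l with
  | nil =>
    intro b _
    simpa using hW2.1 W [] (w :: b)
  | cons u l ih =>
    intro b hp
    have h1 := W7_inner hW2 hW6 W hW u w l b (adj u w) hp
    have h2 := ih (u :: b) (by
      refine List.Perm.trans ?_ hp
      have h1 : (l ++ (w :: u :: b)).Perm (w :: u :: (l ++ b)) :=
        (List.perm_middle (l₁ := l) (l₂ := u :: b) (a := w)).trans
          ((List.perm_middle (l₁ := l) (l₂ := b) (a := u)).cons w)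
      have h2 : ((u :: l) ++ (w :: b)).Perm (u :: w :: (l ++ b)) := by
        simpa using (List.perm_middle (l₁ := l) (l₂ := b) (a := w)).cons u
      exact h1.trans ((List.Perm.swap u w _).trans h2.symm))
    have h3 := hW2.2 W _ _ _ _ _ _ _ _ _ _ _ _ h1 h2
    have e1 : (u :: l).flatMap (fun u => inner (adj u w)) =
        inner (adj u w) ++ l.flatMap (fun u => inner (adj u w)) := by simp
    have e2 : w :: ((u :: l).reverse ++ b) = w :: (l.reverse ++ (u :: b)) := by simp
    have e3 : ((u :: l).map (fun u => 5 + if adj u w then 3 else 0)).sum =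
        (5 + if adj u w then 3 else 0) + (l.map (fun u => 5 + if adj u w then 3 else 0)).sum := by
      simp
    have e4 : ((u :: l).filter (fun u => adj u w)).map (fun u => (u, w)) =
        (if adj u w then [(u, w)] else []) ++
          (l.filter (fun u => adj u w)).map (fun u => (u, w)) := by
      cases h : adj u w <;> simp [h]
    rw [e1, e2, e3, e4]
    exact h3

theorem W7_const (g : List Op) (l : List ℕ) :
    l.flatMap (fun _ => g) = (List.replicate l.length g).flatten := by
  induction l with
  | nil => simp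
  | cons a l ih => simp [ih, List.replicate_succ]

theorem t_W7 (hW2 : S_W2) (hW6 : S_W6) : S_W7 := by
  intro W hW adj w l hp
  have h1 := (hW6 W hW).2.2.1 w l [] (by simpa using hp)
  have h2 := W7_loop hW2 hW6 W hW adj w l [] (by
    refine List.Perm.trans ?_ hp
    simpa using (List.perm_middle (l₁ := l) (l₂ := []) (a := w)))
  have h3 := W7_back hW2 hW6 W hW (w :: (l.reverse ++ [])) [] (by
    refine List.Perm.trans ?_ hp
    simpa using (List.reverse_perm l).cons w)
  have h12 := hW2.2 W _ _ _ _ _ _ _ _ _ _ _ _ h1 h2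
  have h123 := hW2.2 W _ _ _ _ _ _ _ _ _ _ _ _ h12 h3
  have e1 : (w :: l).flatMap (fun _ => gBA) = (w :: (l.reverse ++ [])).flatMap (fun _ => gBA) := by
    rw [W7_const, W7_const]
    simp
  have e0 : round adj (w :: l) = gAB ++ l.flatMap (fun u => inner (adj u w)) ++
      (w :: l).flatMap (fun _ => gBA) := rfl
  rw [e0, e1]
  have e2 : (w :: (l.reverse ++ [])).reverse ++ [] = l ++ [w] := by simp
  have e3 : cRound adj (w :: l) = 1 + (l.map (fun u => 5 + if adj u w then 3 else 0)).sum +
      (w :: (l.reverse ++ [])).length := by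
    simp [cRound]
  have e4 : eRound adj (w :: l) = [] ++ (l.filter (fun u => adj u w)).map (fun u => (u, w)) ++
      [] := by simp [eRound]
  rw [e3, e4, ← e2]
  exact h123

end Pool.Agent.H606R2.CF
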