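import Pool.Agent.H606R2.CF.Stubs

/-! All rounds. -/

set_option autoImplicit false

namespace Pool.Agent.H606R2.CF

theorem t_W8 (h2 : S_W2) (h7 : S_W7) : S_W8 := by
  intro V hV adj
  have key : ∀ i, i ≤ V.length →
      Sim V ((List.range i).flatMap (fun i => round adj (V.drop i ++ V.take i))) V []
        (V.drop i ++ V.take i) []
        (((List.range i).map (fun i => cRound adj (V.drop i ++ V.take i))).sum)
        ((List.range i).flatMap (fun i => eRound adj (V.drop i ++ V.take i))) := by
    intro i
    induction i with
    | zero =>
      intro _
      simp only [List.range_zero, List.flatMap_nil, List.map_nil, List.sum_nil, List.drop_zero,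
        List.take_zero, List.append_nil]
      exact h2.1 V V []
    | succ i ih =>
      intro hi
      have hi' : i < V.length := hi
      have h := ih hi'.le
      have e1 : V.drop i ++ V.take i = V[i] :: (V.drop (i+1) ++ V.take i) := by
        rw [List.drop_eq_getElem_cons hi', List.cons_append]
      have e2 : V.drop (i+1) ++ V.take (i+1) = (V.drop (i+1) ++ V.take i) ++ [V[i]] := by
        rw [List.take_succ_eq_append_getElem hi', List.append_assoc]
      have hperm : (V[i] :: (V.drop (i+1) ++ V.take i)).Perm V := by
        rw [← e1]
        exact List.perm_append_comm.trans (by rw [List.take_append_drop])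
      have h3 := h7 V hV adj _ _ hperm
      rw [← e1, ← e2] at h3
      have h4 := h2.2 V _ _ _ _ _ _ _ _ _ _ _ _ h h3
      rw [List.range_succ, List.flatMap_append, List.flatMap_append, List.map_append,
        List.sum_append]
      simpa using h4
  have := key V.length le_rfl
  simpa [rounds, cTot] using this

end Pool.Agent.H606R2.CF
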