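import Pool.Agent.H606R2.CF.Stubs

/-! The program computes the independence number. -/

namespace Pool.Agent.H606R2.CF

namespace W9

lemma step_oZ1 {α : Type} (z : α) (a b : List α) : step oZ1 z (a, b) = (z :: a, b) := by
  simp [step, oZ1, pushL]

lemma runs_init (n : ℕ) : ∀ (a b : List Bool) (s' : List Bool × List Bool) (v : ℕ),
    Runs (List.replicate n oZ1) (a, b) s' v ↔
      ∃ bits : List Bool, bits.length = n ∧ s' = (bits ++ a, b) ∧ v = bits.countP id := by
  induction n with
  | zero =>
    intro a b s' v
    simp only [List.replicate_zero, Runs]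
    constructor
    · rintro ⟨rfl, rfl⟩
      exact ⟨[], rfl, rfl, rfl⟩
    · rintro ⟨bits, hl, rfl, rfl⟩
      rw [List.length_eq_zero_iff] at hl
      subst hl
      simp
  | succ n ih =>
    intro a b s' v
    rw [List.replicate_succ]
    simp only [Runs]
    constructor
    · rintro ⟨z, -, v', hr, rfl⟩
      rw [step_oZ1, ih] at hr
      obtain ⟨bits, hl, rfl, rfl⟩ := hr
      refine ⟨bits ++ [z], by simp [hl], by simp, ?_⟩
      rw [List.countP_append]
      cases z <;> simp
    · rintro ⟨bits, hl, rfl, rfl⟩
      have hne : bits ≠ [] := by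
        intro h
        rw [h] at hl
        simp at hl
      obtain ⟨b', z, rfl⟩ : ∃ b' z, bits = b' ++ [z] :=
        ⟨bits.dropLast, bits.getLast hne, (List.dropLast_append_getLast hne).symm⟩
      refine ⟨z, ?_, b'.countP id, ?_, ?_⟩
      · intro _ c hc
        simp [att, oZ1] at hc
      · rw [step_oZ1, ih]
        exact ⟨b', by simpa using hl, by simp, rfl⟩
      · rw [List.countP_append]
        cases z <;> simp

lemma exists_fun (V : List ℕ) (hV : V.Nodup) (bits : List Bool) (h : bits.length = V.length) :
    ∃ x : ℕ → Bool, V.map x = bits := by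
  refine ⟨fun i => bits.getD (V.idxOf i) false, ?_⟩
  apply List.ext_getElem
  · simp [h]
  · intro n h1 h2
    rw [List.getElem_map, hV.idxOf_getElem, List.getD_eq_getElem _ _ h2]

/-- removing one endpoint of each pair -/
lemma prune (Y : Finset ℕ) (E : List (ℕ × ℕ)) : ∃ K : Finset ℕ, K ⊆ Y ∧
    Y.card ≤ K.card + E.countP (fun e => decide (e.1 ∈ Y) && decide (e.2 ∈ Y)) ∧
    ∀ e ∈ E, ¬ (e.1 ∈ K ∧ e.2 ∈ K) := by
  induction E with
  | nil => exact ⟨Y, subset_rfl, by simp, by simp⟩
  | cons e E ih =>
    obtain ⟨K, hK, hc, hE⟩ := ih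
    by_cases h : e.1 ∈ K ∧ e.2 ∈ K
    · refine ⟨K.erase e.1, (Finset.erase_subset _ _).trans hK, ?_, ?_⟩
      · rw [List.countP_cons_of_pos (by simp [hK h.1, hK h.2]), Finset.card_erase_of_mem h.1]
        have := Finset.card_pos.mpr ⟨_, h.1⟩
        omega
      · intro f hf
        rcases List.mem_cons.mp hf with rfl | hf
        · simp
        · intro hh
          exact hE f hf ⟨Finset.mem_of_mem_erase hh.1, Finset.mem_of_mem_erase hh.2⟩
    · refine ⟨K, hK, ?_, ?_⟩
      · have : E.countP (fun e => decide (e.1 ∈ Y) && decide (e.2 ∈ Y)) ≤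
            (e :: E).countP (fun e => decide (e.1 ∈ Y) && decide (e.2 ∈ Y)) := by
          rw [List.countP_cons]
          omega
        omega
      · intro f hf
        rcases List.mem_cons.mp hf with rfl | hf
        · exact h
        · exact hE f hf

lemma countP_split (V : List ℕ) (x y : ℕ → Bool) (h : ∀ i, y i = true → x i = true) :
    V.countP x = V.countP (fun i => x i && !y i) + V.countP y := by
  induction V with
  | nil => rfl
  | cons a V ih =>
    rw [List.countP_cons, List.countP_cons, List.countP_cons, ih]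
    have := h a
    cases hx : x a <;> cases hy : y a <;> simp_all <;> omega

lemma drop_take (V : List ℕ) (i : ℕ) (hi : i < V.length) :
    V.drop i ++ V.take i = V[i] :: (V.drop (i + 1) ++ V.take i) := by
  rw [List.drop_eq_getElem_cons hi, List.cons_append]

/-- all pairs -/
lemma mem_E (V : List ℕ) (hV : V.Nodup) (adj : ℕ → ℕ → Bool) (u w : ℕ) :
    (u, w) ∈ (List.range V.length).flatMap (fun i => eRound adj (V.drop i ++ V.take i)) ↔
      u ∈ V ∧ w ∈ V ∧ u ≠ w ∧ adj u w = true := by
  rw [List.mem_flatMap]
  constructor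
  · rintro ⟨i, hi, h⟩
    have hi' := List.mem_range.mp hi
    rw [drop_take V i hi', eRound] at h
    rw [List.mem_map] at h
    obtain ⟨u', hu', he⟩ := h
    rw [Prod.mk.injEq] at he
    obtain ⟨rfl, hw⟩ := he
    rw [List.mem_filter] at hu'
    obtain ⟨hm, ha⟩ := hu'
    have hperm : (V.drop i ++ V.take i).Perm V := by
      have h1 : (V.drop i ++ V.take i).Perm (V.take i ++ V.drop i) := List.perm_append_comm
      rwa [List.take_append_drop] at h1
    have hnd : (V.drop i ++ V.take i).Nodup := hperm.nodup_iff.mpr hV
    rw [drop_take V i hi', List.nodup_cons] at hnd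
    refine ⟨?_, ?_, ?_, ?_⟩
    · apply hperm.subset
      rw [drop_take V i hi']
      exact List.mem_cons_of_mem _ hm
    · rw [← hw]
      exact List.getElem_mem _
    · rintro rfl
      rw [hw] at hnd
      exact hnd.1 hm
    · rw [← hw]
      exact ha
  · rintro ⟨hu, hw, hne, ha⟩
    obtain ⟨i, hi, rfl⟩ := List.getElem_of_mem hw
    refine ⟨i, List.mem_range.mpr hi, ?_⟩
    rw [drop_take V i hi, eRound, List.mem_map]
    refine ⟨u, ?_, rfl⟩
    rw [List.mem_filter]
    refine ⟨?_, ha⟩
    have hperm : (V.drop i ++ V.take i).Perm V := by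
      have h1 : (V.drop i ++ V.take i).Perm (V.take i ++ V.drop i) := List.perm_append_comm
      rwa [List.take_append_drop] at h1
    have h2 := hperm.symm.subset hu
    rw [drop_take V i hi, List.mem_cons] at h2
    exact h2.resolve_left hne

lemma countP_card (V : List ℕ) (hV : V.Nodup) (x : ℕ → Bool) :
    V.countP x = (V.toFinset.filter (fun i => x i = true)).card := by
  rw [List.countP_eq_length_filter, ← List.toFinset_card_of_nodup (hV.filter _),
    List.toFinset_filter]

end W9

open W9

theorem t_W9 (h1 : S_W1) (h8 : S_W8) : S_W9 := by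
  intro V hV adj k
  obtain ⟨hs1, hs2⟩ := h8 V hV adj
  unfold prog
  have hmap : V.map (fun _ => oZ1) = List.replicate V.length oZ1 := List.map_const' ..
  rw [hmap]
  constructor
  · rintro ⟨s', v, hr, hk⟩
    rw [h1] at hr
    obtain ⟨s1, v1, v2, hr1, hr2, rfl⟩ := hr
    rw [runs_init] at hr1
    obtain ⟨bits, hl, rfl, rfl⟩ := hr1
    obtain ⟨x, rfl⟩ := exists_fun V hV bits hl
    have hr2' : Runs (rounds adj V) (V.map x, ([] : List ℕ).map x) s' v2 := by
      simpa using hr2
    obtain ⟨x', y, -, hy, hc⟩ := hs1 x s' v2 hr2'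
    have hcx : (V.map x).countP id = V.countP x := by
      rw [List.countP_map]
      rfl
    rw [hcx] at hk
    have hsp := countP_split V x y (fun i hi => (hy i hi).1)
    obtain ⟨K, hKY, hcard, hE⟩ := prune (V.toFinset.filter (fun i => y i = true))
      ((List.range V.length).flatMap (fun i => eRound adj (V.drop i ++ V.take i)))
    have hle : ((List.range V.length).flatMap
        (fun i => eRound adj (V.drop i ++ V.take i))).countP
          (fun e => decide (e.1 ∈ V.toFinset.filter (fun i => y i = true)) &&
            decide (e.2 ∈ V.toFinset.filter (fun i => y i = true))) ≤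
        ((List.range V.length).flatMap
        (fun i => eRound adj (V.drop i ++ V.take i))).countP (fun e => y e.1 && y e.2) := by
      apply List.countP_mono_left
      intro e _ he
      simp only [Finset.mem_filter, Bool.and_eq_true, decide_eq_true_eq] at he ⊢
      exact ⟨he.1.2, he.2.2⟩
    rw [← countP_card V hV y] at hcard
    refine ⟨K, ?_, by omega, ?_⟩
    · intro v hv
      have := hKY hv
      rw [Finset.mem_filter, List.mem_toFinset] at this
      exact this.1
    · intro u hu w hw hne
      by_contra ha
      rw [Bool.not_eq_false] at ha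
      have hu' := hKY hu
      have hw' := hKY hw
      rw [Finset.mem_filter, List.mem_toFinset] at hu' hw'
      exact hE (u, w) ((mem_E V hV adj u w).mpr ⟨hu'.1, hw'.1, hne, ha⟩) ⟨hu, hw⟩
  · rintro ⟨K, hKV, hk, hind⟩
    have hr := hs2 (fun i => decide (i ∈ K)) (by
      rintro ⟨u, w⟩ he ⟨h3, h4⟩
      rw [mem_E V hV] at he
      simp only [decide_eq_true_eq] at h3 h4
      have := hind u h3 w h4 he.2.2.1
      rw [he.2.2.2] at this
      exact Bool.noConfusion this)
    have hr1 : Runs (List.replicate V.length oZ1) ([], [])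
        (V.map (fun i => decide (i ∈ K)), []) (V.countP (fun i => decide (i ∈ K))) := by
      rw [runs_init]
      refine ⟨V.map (fun i => decide (i ∈ K)), by simp, by simp, ?_⟩
      rw [List.countP_map]
      rfl
    have hr2 : Runs (rounds adj V) (V.map (fun i => decide (i ∈ K)), [])
        (V.map (fun i => decide (i ∈ K)), []) (cTot adj V) := by
      simpa using hr
    refine ⟨(V.map (fun i => decide (i ∈ K)), []),
      V.countP (fun i => decide (i ∈ K)) + cTot adj V,
      (h1 _ _ _ _ _).mpr ⟨_, _, _, hr1, hr2, rfl⟩, ?_⟩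
    have : V.toFinset.filter (fun i => (decide (i ∈ K)) = true) = K := by
      ext i
      simp only [Finset.mem_filter, List.mem_toFinset, decide_eq_true_eq]
      exact ⟨fun h => h.2, fun h => ⟨hKV i h, h⟩⟩
    rw [countP_card V hV, this]
    omega

end Pool.Agent.H606R2.CF
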