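import Pool.Agent.H606R2.CF.StubsZ

/-!
# The program is computable in polynomial time
-/

namespace Pool.Agent.H606R2.CF

namespace Z2

open Pool.Agent.NPC

theorem take_eq {β : Type} (l : List β) (n k : ℕ) :
    ((l.zipIdx k).filter (fun p => decide (p.2 < k + n))).map Prod.fst = l.take n := by
  induction l generalizing n k with
  | nil => simp
  | cons b l ih =>
    rw [List.zipIdx_cons]
    cases n with
    | zero =>
      simp only [add_zero, List.take_zero, List.map_eq_nil_iff, List.filter_eq_nil_iff,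
        decide_eq_true_eq, not_lt]
      intro p hp
      rcases List.mem_cons.1 hp with rfl | hp
      · exact le_refl _
      · have := List.le_snd_of_mem_zipIdx hp
        omega
    | succ n =>
      rw [List.filter_cons_of_pos (by simp), List.map_cons, List.take_succ_cons]
      congr 1
      rw [← ih n (k + 1)]
      congr 2
      funext p
      congr 1
      rw [show k + (n + 1) = k + 1 + n by omega]

theorem drop_eq {β : Type} (l : List β) (n k : ℕ) :
    ((l.zipIdx k).filter (fun p => decide (k + n ≤ p.2))).map Prod.fst = l.drop n := by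
  induction l generalizing n k with
  | nil => simp
  | cons b l ih =>
    rw [List.zipIdx_cons]
    cases n with
    | zero =>
      rw [List.filter_eq_self.2, List.drop_zero, List.map_cons]
      · congr 1
        have := ih 0 (k + 1)
        rw [List.filter_eq_self.2, List.drop_zero] at this
        · exact this
        · intro p hp
          have := List.le_snd_of_mem_zipIdx hp
          simpa using this
      · intro p hp
        rcases List.mem_cons.1 hp with rfl | hp
        · simp
        · have := List.le_snd_of_mem_zipIdx hp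
          simp only [add_zero, decide_eq_true_eq]
          omega
    | succ n =>
      rw [List.filter_cons_of_neg (by simp), List.drop_succ_cons]
      rw [← ih n (k + 1)]
      congr 2
      funext p
      congr 1
      rw [show k + (n + 1) = k + 1 + n by omega]

variable {α β : Type} [TEnc α] [TEnc β]

theorem poly_take {l : α → List β} {n : α → ℕ} (hl : Poly l) (hn : Poly n) :
    Poly (fun a => (l a).take (n a)) := by
  refine (NPC.Poly.map (F := fun (_ : α) (p : β × ℕ) => p.1)
    (NPC.Poly.filter (p := fun (a : α) (p : β × ℕ) => decide (p.2 < n a)) (NPC.Poly.zipIdx hl)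
      (NPC.Poly.decide_lt (NPC.Poly.snd (NPC.Poly.snd NPC.Poly.id)) (hn.comp (NPC.Poly.fst NPC.Poly.id))))
    (NPC.Poly.fst (NPC.Poly.snd NPC.Poly.id))).congr fun a => ?_
  have := take_eq (l a) (n a) 0
  simp only [zero_add] at this
  exact this

theorem poly_drop {l : α → List β} {n : α → ℕ} (hl : Poly l) (hn : Poly n) :
    Poly (fun a => (l a).drop (n a)) := by
  refine (NPC.Poly.map (F := fun (_ : α) (p : β × ℕ) => p.1)
    (NPC.Poly.filter (p := fun (a : α) (p : β × ℕ) => decide (n a ≤ p.2)) (NPC.Poly.zipIdx hl)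
      (NPC.Poly.decide_le (hn.comp (NPC.Poly.fst NPC.Poly.id)) (NPC.Poly.snd (NPC.Poly.snd NPC.Poly.id))))
    (NPC.Poly.fst (NPC.Poly.snd NPC.Poly.id))).congr fun a => ?_
  have := drop_eq (l a) (n a) 0
  simp only [zero_add] at this
  exact this

theorem poly_adjC {E : α → List (ℕ × ℕ)} {u w : α → ℕ} (hE : Poly E) (hu : Poly u) (hw : Poly w) :
    Poly (fun a => adjC (E a) (u a) (w a)) := by
  refine (NPC.Poly.and (NPC.Poly.and (NPC.Poly.not (NPC.Poly.decide_eq hu hw))
    (NPC.Poly.not (NPC.Poly.decide_mem (NPC.Poly.pair hu hw) hE)))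
    (NPC.Poly.not (NPC.Poly.decide_mem (NPC.Poly.pair hw hu) hE))).congr fun a => ?_
  unfold adjC
  congr

theorem poly_inner {e : α → Bool} (he : Poly e) : Poly (fun a => inner (e a)) := by
  unfold inner
  exact NPC.Poly.append (NPC.Poly.append (NPC.Poly.ite (NPC.Poly.decide_bool he) (NPC.Poly.const gE)
    (NPC.Poly.const [])) (NPC.Poly.const gX)) (NPC.Poly.const gAB)

theorem poly_round {E : α → List (ℕ × ℕ)} {V : α → List ℕ} (hE : Poly E) (hV : Poly V) :
    Poly (fun a => round (adjC (E a)) (V a)) := by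
  have h : Poly (fun x : α × ℕ × List ℕ => gAB ++ x.2.2.flatMap
      (fun u => inner (adjC (E x.1) u x.2.1)) ++ (x.2.1 :: x.2.2).flatMap (fun _ => gBA)) := by
    refine NPC.Poly.append (NPC.Poly.append (NPC.Poly.const gAB) ?_) ?_
    · exact NPC.Poly.flatMap (F := fun (x : α × ℕ × List ℕ) (u : ℕ) =>
        inner (adjC (E x.1) u x.2.1)) (NPC.Poly.snd (NPC.Poly.snd NPC.Poly.id))
        (poly_inner (poly_adjC (hE.comp (NPC.Poly.fst (NPC.Poly.fst NPC.Poly.id))) (NPC.Poly.snd NPC.Poly.id)
          (NPC.Poly.fst (NPC.Poly.snd (NPC.Poly.fst NPC.Poly.id)))))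
    · exact NPC.Poly.flatMap (F := fun (_ : α × ℕ × List ℕ) (_ : ℕ) => gBA)
        (NPC.Poly.cons (NPC.Poly.fst (NPC.Poly.snd NPC.Poly.id)) (NPC.Poly.snd (NPC.Poly.snd NPC.Poly.id)))
        (NPC.Poly.const gBA)
  refine (NPC.Poly.listCases (g := fun _ => ([] : List Op)) (h := fun a w l => gAB ++ l.flatMap
      (fun u => inner (adjC (E a) u w)) ++ (w :: l).flatMap (fun _ => gBA)) hV
      (NPC.Poly.const _) h).congr fun a => ?_
  cases V a <;> rfl

theorem poly_cRound {E : α → List (ℕ × ℕ)} {V : α → List ℕ} (hE : Poly E) (hV : Poly V) :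
    Poly (fun a => cRound (adjC (E a)) (V a)) := by
  have h : Poly (fun x : α × ℕ × List ℕ =>
      1 + (x.2.2.map (fun u => 5 + if adjC (E x.1) u x.2.1 then 3 else 0)).sum +
        (x.2.2.length + 1)) := by
    refine NPC.Poly.add (NPC.Poly.add (NPC.Poly.const 1) (NPC.Poly.sum ?_))
      (NPC.Poly.add (NPC.Poly.length (NPC.Poly.snd (NPC.Poly.snd NPC.Poly.id))) (NPC.Poly.const 1))
    exact NPC.Poly.map (F := fun (x : α × ℕ × List ℕ) (u : ℕ) =>
        5 + if adjC (E x.1) u x.2.1 then 3 else 0) (NPC.Poly.snd (NPC.Poly.snd NPC.Poly.id))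
        (NPC.Poly.add (NPC.Poly.const 5) (NPC.Poly.ite (NPC.Poly.decide_bool
          (poly_adjC (hE.comp (NPC.Poly.fst (NPC.Poly.fst NPC.Poly.id))) (NPC.Poly.snd NPC.Poly.id)
          (NPC.Poly.fst (NPC.Poly.snd (NPC.Poly.fst NPC.Poly.id))))) (NPC.Poly.const 3) (NPC.Poly.const 0)))
  refine (NPC.Poly.listCases (g := fun _ => 0) (h := fun a w l =>
      1 + (l.map (fun u => 5 + if adjC (E a) u w then 3 else 0)).sum + (l.length + 1)) hV
      (NPC.Poly.const _) h).congr fun a => ?_
  cases V a <;> rfl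

abbrev In : Type := List ℕ × List (ℕ × ℕ)

theorem poly_rot : Poly (fun x : In × ℕ => x.1.1.drop x.2 ++ x.1.1.take x.2) :=
  NPC.Poly.append (poly_drop (NPC.Poly.fst (NPC.Poly.fst NPC.Poly.id)) (NPC.Poly.snd NPC.Poly.id))
    (poly_take (NPC.Poly.fst (NPC.Poly.fst NPC.Poly.id)) (NPC.Poly.snd NPC.Poly.id))

end Z2

open Pool.Agent.NPC Z2

/-- The program is computable in polynomial time. -/
theorem t_Z2 : S_Z2 := by
  constructor
  · unfold prog rounds
    refine NPC.Poly.append ?_ ?_
    · exact NPC.Poly.map (F := fun (_ : In) (_ : ℕ) => oZ1) (NPC.Poly.fst NPC.Poly.id) (NPC.Poly.const oZ1)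
    · exact NPC.Poly.flatMap (F := fun (I : In) (i : ℕ) =>
        round (adjC I.2) (I.1.drop i ++ I.1.take i)) (NPC.Poly.range_length (NPC.Poly.fst NPC.Poly.id))
        (poly_round (NPC.Poly.snd (NPC.Poly.fst NPC.Poly.id)) poly_rot)
  · unfold cTot
    exact NPC.Poly.sum (NPC.Poly.map (F := fun (I : In) (i : ℕ) =>
        cRound (adjC I.2) (I.1.drop i ++ I.1.take i)) (NPC.Poly.range_length (NPC.Poly.fst NPC.Poly.id))
        (poly_cRound (NPC.Poly.snd (NPC.Poly.fst NPC.Poly.id)) poly_rot))

end Pool.Agent.H606R2.CF
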