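import Pool.Agent.H606R2.CF.StubsZ
import Pool.Agent.H612.TmPoly

/-!
# Task Z3: the table is computable in polynomial time
-/

namespace Pool.Agent.H606R2.CF

open Pool.Agent.NPC Pool.Agent.NPC.H634R2

namespace TZ3

theorem keepL_eq {α : Type} : ∀ (N : ℕ) (m : List Bool) (l : List α), l.length ≤ N →
    keepL m l = (((m ++ List.replicate N true).zip l).filter (fun p => p.1)).map Prod.snd := by
  intro N m l
  induction m generalizing l with
  | nil =>
    intro h
    have h1 : ∀ (l : List α) (N : ℕ), l.length ≤ N →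
        (((List.replicate N true).zip l).filter (fun p => p.1)).map Prod.snd = l := by
      intro l
      induction l with
      | nil => intro N _; simp
      | cons a l ih =>
        intro N hN
        obtain ⟨M, rfl⟩ : ∃ M, N = M + 1 := ⟨N - 1, by simp at hN; omega⟩
        rw [List.replicate_succ, List.zip_cons_cons, List.filter_cons_of_pos (by rfl),
          List.map_cons, ih M (by simpa using hN)]
    rw [List.nil_append, h1 l N h]
    cases l <;> rfl
  | cons b m ih =>
    intro h
    cases l with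
    | nil => rfl
    | cons x l =>
      have h2 := ih l (by simp at h; omega)
      rw [List.cons_append, List.zip_cons_cons]
      cases b
      · rw [List.filter_cons_of_neg (by simp)]
        change keepL m l = _
        exact h2
      · rw [List.filter_cons_of_pos (by rfl), List.map_cons]
        change x :: keepL m l = _
        rw [h2]

theorem keepL_sub {α : Type} (m : List Bool) (l : List α) : (keepL m l).Sublist l := by
  induction m generalizing l with
  | nil => cases l <;> exact List.Sublist.refl _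
  | cons b m ih =>
    cases l with
    | nil => exact List.Sublist.refl _
    | cons x l =>
      cases b
      · change (keepL m l).Sublist (x :: l)
        exact (ih l).cons x
      · change (x :: keepL m l).Sublist (x :: l)
        exact (ih l).cons_cons x

section

variable {α : Type} [TEnc α]

theorem poly_keepL {β : Type} [TEnc β] {m : α → List Bool} {l : α → List β} (hm : Poly m)
    (hl : Poly l) : Poly (fun a => keepL (m a) (l a)) := by
  refine (NPC.Poly.map (F := fun _ (p : Bool × β) => p.2)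
    (NPC.Poly.filter (p := fun _ (p : Bool × β) => p.1)
      (NPC.Poly.zip (NPC.Poly.append hm (Pool.Agent.NPC.H612.poly_replicate hl true)) hl)
      (NPC.Poly.fst (NPC.Poly.snd NPC.Poly.id))) (NPC.Poly.snd (NPC.Poly.snd NPC.Poly.id))).congr
    fun a => ?_
  rw [keepL_eq (l a).length (m a) (l a) le_rfl]

theorem poly_takeLen {β γ : Type} [TEnc β] [TEnc γ] {m : α → List γ} {l : α → List β}
    (hm : Poly m) (hl : Poly l) : Poly (fun a => (l a).take (m a).length) := by
  refine (NPC.Poly.map (F := fun _ (p : β × γ) => p.1) (NPC.Poly.zip hl hm)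
    (NPC.Poly.fst (NPC.Poly.snd NPC.Poly.id))).congr fun a => ?_
  have : ∀ (l : List β) (m : List γ), (l.zip m).map Prod.fst = l.take m.length := by
    intro l
    induction l with
    | nil => intro m; simp
    | cons x l ih =>
      intro m
      cases m with
      | nil => simp
      | cons y m => simp [ih]
  exact this _ _

theorem poly_pushL {β : Type} [TEnc β] {b : α → Bool} {z : α → β} {l : α → List β} (hb : Poly b)
    (hz : Poly z) (hl : Poly l) : Poly (fun a => pushL (b a) (z a) (l a)) := by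
  unfold pushL
  exact NPC.Poly.ite (NPC.Poly.decide_bool hb) (NPC.Poly.cons hz hl) hl

theorem poly_att {o : α → Op} {s : α → List ℕ × List ℕ} (ho : Poly o) (hs : Poly s) :
    Poly (fun a => att (o a) (s a)) := by
  have h1 : Poly (fun a => (o a).1) := NPC.Poly.fst ho
  have hm : Poly (fun a => (o a).2.1) := NPC.Poly.fst (NPC.Poly.snd ho)
  unfold att
  exact NPC.Poly.ite (NPC.Poly.decide_eq h1 (NPC.Poly.const 1))
    (poly_takeLen hm (NPC.Poly.fst hs))
    (NPC.Poly.ite (NPC.Poly.decide_eq h1 (NPC.Poly.const 2)) (poly_takeLen hm (NPC.Poly.snd hs))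
      (NPC.Poly.const []))

theorem poly_step {o : α → Op} {z : α → ℕ} {s : α → List ℕ × List ℕ} (ho : Poly o)
    (hz : Poly z) (hs : Poly s) : Poly (fun a => step (o a) (z a) (s a)) := by
  have h1 : Poly (fun a => (o a).1) := NPC.Poly.fst ho
  have hm : Poly (fun a => (o a).2.1) := NPC.Poly.fst (NPC.Poly.snd ho)
  have ha : Poly (fun a => (o a).2.2.1) := NPC.Poly.fst (NPC.Poly.snd (NPC.Poly.snd ho))
  have hb : Poly (fun a => (o a).2.2.2) := NPC.Poly.snd (NPC.Poly.snd (NPC.Poly.snd ho))
  have hs1 : Poly (fun a => (s a).1) := NPC.Poly.fst hs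
  have hs2 : Poly (fun a => (s a).2) := NPC.Poly.snd hs
  unfold step
  exact NPC.Poly.ite (NPC.Poly.decide_eq h1 (NPC.Poly.const 1))
    (NPC.Poly.pair (poly_keepL hm hs1) (poly_pushL hb hz hs2))
    (NPC.Poly.ite (NPC.Poly.decide_eq h1 (NPC.Poly.const 2))
      (NPC.Poly.pair (poly_pushL ha hz hs1) (poly_keepL hm hs2))
      (NPC.Poly.pair (poly_pushL ha hz hs1) (poly_pushL hb hz hs2)))

end

/-- One step of the fold. -/
def F (s : ℕ × (List ℕ × List ℕ) × List (List ℕ)) (o : Op) :
    ℕ × (List ℕ × List ℕ) × List (List ℕ) :=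
  (s.1 + 1, step o s.1 s.2.1, att o s.2.1 :: s.2.2)

theorem foldl_F (ops : List Op) : ∀ (k : ℕ) (s : List ℕ × List ℕ) (acc : List (List ℕ)),
    (ops.foldl F (k, s, acc)).2.2 = (atts ops k s).reverse ++ acc := by
  induction ops with
  | nil => intro k s acc; rfl
  | cons o ops ih =>
    intro k s acc
    rw [List.foldl_cons]
    change (ops.foldl F (k + 1, step o k s, att o s :: acc)).2.2 = _
    rw [ih]
    change _ = (att o s :: atts ops (k + 1) (step o k s)).reverse ++ acc
    simp

/-- Small lists. -/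
def Sm (j : ℕ) (l : List ℕ) : Prop := l.length ≤ j ∧ ∀ x ∈ l, x < j

theorem Sm.mono {i j : ℕ} (h : i ≤ j) {l : List ℕ} (hl : Sm i l) : Sm j l :=
  ⟨hl.1.trans h, fun x hx => (hl.2 x hx).trans_le h⟩

theorem Sm.sub {j : ℕ} {l l' : List ℕ} (h : l'.Sublist l) (hl : Sm j l) : Sm j l' :=
  ⟨h.length_le.trans hl.1, fun x hx => hl.2 x (h.subset hx)⟩

theorem Sm.push {j : ℕ} {l : List ℕ} (b : Bool) (hl : Sm j l) : Sm (j + 1) (pushL b j l) := by
  unfold pushL
  split_ifs
  · refine ⟨by simpa using hl.1, ?_⟩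
    intro x hx
    rcases List.mem_cons.1 hx with rfl | h
    · omega
    · exact (hl.2 x h).trans (by omega)
  · exact hl.mono (by omega)

/-- The invariant. -/
def Inv (j : ℕ) (s : ℕ × (List ℕ × List ℕ) × List (List ℕ)) : Prop :=
  s.1 = j ∧ Sm j s.2.1.1 ∧ Sm j s.2.1.2 ∧ s.2.2.length ≤ j ∧ ∀ x ∈ s.2.2, Sm j x

theorem inv_F {j : ℕ} {s : ℕ × (List ℕ × List ℕ) × List (List ℕ)} (h : Inv j s) (o : Op) :
    Inv (j + 1) (F s o) := by
  obtain ⟨k, ⟨A, B⟩, acc⟩ := s
  obtain ⟨h1, h2, h3, h4, h5⟩ := h
  change k = j at h1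
  subst h1
  have hatt : Sm (k + 1) (att o (A, B)) := by
    unfold att
    split_ifs
    · exact (h2.sub (List.take_sublist _ _)).mono (by omega)
    · exact (h3.sub (List.take_sublist _ _)).mono (by omega)
    · exact ⟨by simp, by simp⟩
  refine ⟨rfl, ?_, ?_, ?_, ?_⟩
  · change Sm (k + 1) (step o k (A, B)).1
    unfold step
    split_ifs
    · exact (h2.sub (keepL_sub _ _)).mono (by omega)
    · exact h2.push _
    · exact h2.push _
  · change Sm (k + 1) (step o k (A, B)).2
    unfold step
    split_ifs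
    · exact h3.push _
    · exact (h3.sub (keepL_sub _ _)).mono (by omega)
    · exact h3.push _
  · change (att o (A, B) :: acc).length ≤ k + 1
    simpa using h4
  · intro x hx
    rcases List.mem_cons.1 hx with rfl | h
    · exact hatt
    · exact (h5 x h).mono (by omega)

theorem inv_foldl (l : List Op) : ∀ (j : ℕ) (s : ℕ × (List ℕ × List ℕ) × List (List ℕ)),
    Inv j s → Inv (j + l.length) (l.foldl F s) := by
  induction l with
  | nil => intro j s h; exact h
  | cons o l ih =>
    intro j s h
    rw [List.foldl_cons, List.length_cons, show j + (l.length + 1) = j + 1 + l.length by ring]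
    exact ih _ _ (inv_F h o)

theorem sz_nat_le' {n N : ℕ} (h : n ≤ N) : sz n ≤ 4 * N + 1 := by
  have h1 := sz_nat_le n
  have h2 := NPC.Poly.size_le_self n
  omega

theorem sz_Sm {j N : ℕ} (h : j ≤ N) {l : List ℕ} (hl : Sm j l) : sz l ≤ N * (4 * N + 2) + 1 := by
  have h1 := sz_le_length_mul l (4 * N + 1) (fun a ha => sz_nat_le' ((hl.2 a ha).le.trans h))
  have h2 : l.length * (4 * N + 1 + 1) ≤ N * (4 * N + 2) :=
    Nat.mul_le_mul (hl.1.trans h) le_rfl
  omega

theorem sz_inv {j N : ℕ} (h : j ≤ N) {s : ℕ × (List ℕ × List ℕ) × List (List ℕ)}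
    (hs : Inv j s) : sz s ≤ (4 * N + 1) + ((N * (4 * N + 2) + 1) + (N * (4 * N + 2) + 1) + 1 +
      (N * (N * (4 * N + 2) + 2) + 1) + 1) + 1 := by
  obtain ⟨k, ⟨A, B⟩, acc⟩ := s
  obtain ⟨h1, h2, h3, h4, h5⟩ := hs
  change k = j at h1
  subst h1
  have e1 : sz k ≤ 4 * N + 1 := sz_nat_le' h
  have e2 := sz_Sm h h2
  have e3 := sz_Sm h h3
  have e4 := sz_le_length_mul acc (N * (4 * N + 2) + 1) (fun a ha => sz_Sm h (h5 a ha))
  have e5 : acc.length * (N * (4 * N + 2) + 1 + 1) ≤ N * (N * (4 * N + 2) + 2) :=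
    Nat.mul_le_mul (h4.trans h) le_rfl
  simp only [sz_pair]
  change sz A ≤ _ at e2
  change sz B ≤ _ at e3
  omega

end TZ3

open TZ3 in
theorem t_Z3 : S_Z3 := by
  have h1 : Poly (fun ops : List Op =>
      ops.foldl (fun s o => F s o) ((0, ([], []), []) : ℕ × (List ℕ × List ℕ) × List (List ℕ))) := by
    refine NPC.Poly.foldl (l := fun ops : List Op => ops)
      (s := fun _ => ((0, ([], []), []) : ℕ × (List ℕ × List ℕ) × List (List ℕ)))
      (F := fun _ s o => F s o) NPC.Poly.id (NPC.Poly.const _) ?_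
      ((4 * Polynomial.X + 1) + ((Polynomial.X * (4 * Polynomial.X + 2) + 1) +
        (Polynomial.X * (4 * Polynomial.X + 2) + 1) + 1 +
        (Polynomial.X * (Polynomial.X * (4 * Polynomial.X + 2) + 2) + 1) + 1) + 1) ?_
    · have hs : Poly (fun p : List Op × (ℕ × (List ℕ × List ℕ) × List (List ℕ)) × Op => p.2.1) :=
        NPC.Poly.fst (NPC.Poly.snd NPC.Poly.id)
      have ho : Poly (fun p : List Op × (ℕ × (List ℕ × List ℕ) × List (List ℕ)) × Op => p.2.2) :=
        NPC.Poly.snd (NPC.Poly.snd NPC.Poly.id)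
      exact NPC.Poly.pair (NPC.Poly.succ (NPC.Poly.fst hs))
        (NPC.Poly.pair (poly_step ho (NPC.Poly.fst hs) (NPC.Poly.fst (NPC.Poly.snd hs)))
          (NPC.Poly.cons (poly_att ho (NPC.Poly.fst (NPC.Poly.snd hs)))
            (NPC.Poly.snd (NPC.Poly.snd hs))))
    · intro ops k hk
      have h2 := inv_foldl (ops.take k) 0 (0, ([], []), [])
        ⟨rfl, ⟨by simp, by simp⟩, ⟨by simp, by simp⟩, by simp, by simp⟩
      have h3 := length_lt_sz ops
      have h4 : 0 + (ops.take k).length ≤ sz ops := by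
        rw [List.length_take]
        omega
      have h5 := sz_inv h4 h2
      simp only [Polynomial.eval_add, Polynomial.eval_mul, Polynomial.eval_X,
        Polynomial.eval_one, Polynomial.eval_ofNat]
      exact h5
  refine (NPC.Poly.reverse (NPC.Poly.snd (NPC.Poly.snd h1))).congr fun ops => ?_
  have h2 := foldl_F ops 0 ([], []) []
  unfold tab
  rw [h2]
  simp

end Pool.Agent.H606R2.CF
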