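import Pool.Agent.H606R2.CF.StubsZ

/-!
# Z4: reaches in polynomial time
-/

set_option autoImplicit false

namespace Pool.Agent.H606R2.CF

open Pool.Agent.NPC Pool.Agent.NPC.H634R2

private theorem Z4_kd : Poly (fun p : List Op × ℕ => kd p.1 p.2) := by
  have h1 : Poly (fun p : List Op × ℕ => p.1.map Prod.fst) :=
    NPC.Poly.map (F := fun (_ : List Op × ℕ) (o : Op) => o.1) (NPC.Poly.fst NPC.Poly.id)
      (NPC.Poly.fst (NPC.Poly.snd NPC.Poly.id))
  exact NPC.Poly.getD h1 (NPC.Poly.snd NPC.Poly.id) (NPC.Poly.const 0)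

private theorem Z4_nb (hZ3 : S_Z3) : Poly (fun p : List Op × ℕ => nb p.1 p.2) := by
  have h1 : Poly (fun p : List Op × ℕ => tab p.1) := NPC.Poly.comp hZ3 (NPC.Poly.fst NPC.Poly.id)
  exact NPC.Poly.getD h1 (NPC.Poly.snd NPC.Poly.id) (NPC.Poly.const [])

private theorem Z4_lo (hZ3 : S_Z3) : Poly (fun p : List Op × ℕ => lo p.1 p.2) := by
  have h1 : Poly (fun p : List Op × ℕ => (nb p.1 p.2).reverse.head?) :=
    NPC.Poly.head? (NPC.Poly.reverse (Z4_nb hZ3))
  refine (NPC.Poly.optCases (h := fun _ b => b) h1 (NPC.Poly.snd NPC.Poly.id) (NPC.Poly.snd NPC.Poly.id)).congr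
    fun p => ?_
  unfold lo
  rw [List.getLastD_eq_getLast?, List.head?_reverse]
  cases (nb p.1 p.2).getLast? <;> rfl

private theorem Z4_mem (P : ℕ → Prop) [DecidablePred P] : ∀ (l : List ℕ) (i : ℕ),
    l.foldl (fun r j => if P j then j else r) i = i ∨
      l.foldl (fun r j => if P j then j else r) i ∈ l
  | [], i => Or.inl rfl
  | x :: l, i => by
    rw [List.foldl_cons]
    rcases Z4_mem P l (if P x then x else i) with h | h
    · by_cases hx : P x
      · rw [if_pos hx] at h ⊢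
        right
        rw [h]
        exact List.mem_cons_self
      · rw [if_neg hx] at h ⊢
        exact Or.inl h
    · exact Or.inr (List.mem_cons_of_mem _ h)

private theorem Z4_re (hZ3 : S_Z3) (c : ℕ) : Poly (fun p : List Op × ℕ => re c p.1 p.2) := by
  have h1 : Poly (fun p : List Op × ℕ => List.range p.1.length) :=
    NPC.Poly.range_length (NPC.Poly.fst NPC.Poly.id)
  have hF : Poly (fun p : (List Op × ℕ) × ℕ × ℕ =>
      if kd p.1.1 p.2.2 = c ∧ p.1.2 ∈ nb p.1.1 p.2.2 then p.2.2 else p.2.1) := by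
    have hsel : Poly (fun p : (List Op × ℕ) × ℕ × ℕ => (p.1.1, p.2.2)) :=
      NPC.Poly.pair (NPC.Poly.fst (NPC.Poly.fst NPC.Poly.id)) (NPC.Poly.snd (NPC.Poly.snd NPC.Poly.id))
    have hk : Poly (fun p : (List Op × ℕ) × ℕ × ℕ => kd p.1.1 p.2.2) :=
      NPC.Poly.comp (g := fun p : List Op × ℕ => kd p.1 p.2) Z4_kd hsel
    have hn : Poly (fun p : (List Op × ℕ) × ℕ × ℕ => nb p.1.1 p.2.2) :=
      NPC.Poly.comp (g := fun p : List Op × ℕ => nb p.1 p.2) (Z4_nb hZ3) hsel
    refine NPC.Poly.ite ?_ (NPC.Poly.snd (NPC.Poly.snd NPC.Poly.id)) (NPC.Poly.fst (NPC.Poly.snd NPC.Poly.id))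
    exact NPC.Poly.decide_and (NPC.Poly.decide_eq hk (NPC.Poly.const c))
      (NPC.Poly.decide_mem (NPC.Poly.snd (NPC.Poly.fst NPC.Poly.id)) hn)
  obtain ⟨r, hr⟩ := h1.sz_le
  exact NPC.Poly.foldl (F := fun (p : List Op × ℕ) (s j : ℕ) =>
      if kd p.1 j = c ∧ p.2 ∈ nb p.1 j then j else s)
    h1 (NPC.Poly.snd NPC.Poly.id) hF (Polynomial.X + r) (by
      intro p k _
      rw [Polynomial.eval_add, Polynomial.eval_X]
      rcases Z4_mem (fun j => kd p.1 j = c ∧ p.2 ∈ nb p.1 j)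
        ((List.range p.1.length).take k) p.2 with h | h
      · rw [h]
        have h2 : sz p.2 ≤ sz p := by
          obtain ⟨a, b⟩ := p
          rw [sz_pair]
          simp only
          omega
        omega
      · have h2 := sz_le_of_mem h
        have h3 := NPC.Poly.sz_take_le (List.range p.1.length) k
        have h4 := hr p
        omega)

theorem t_Z4 (hZ3 : S_Z3) : S_Z4 := ⟨Z4_kd, Z4_lo hZ3, Z4_re hZ3 1, Z4_re hZ3 2⟩

end Pool.Agent.H606R2.CF
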