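import Pool.Agent.H606R2.CF.StubsZ
import Pool.Agent.NPC.Num

set_option autoImplicit false

namespace Pool.Agent.H606R2.CF

open Pool.Agent.NPC Pool.Agent.NPC.H634R2

namespace Z5x

theorem valB_repl (n : ℕ) : valB (List.replicate n false) = 0 := by
  induction n with
  | zero => rfl
  | succ n ih => simp [List.replicate_succ, ih]

theorem pow_nat {α : Type} [TEnc α] (e : α → ℕ) (he : UPoly e) :
    Poly (fun a => (16 : ℕ) ^ (e a)) := by
  have h1 : UPoly (fun a => 4 * e a) := UPoly.mul (UPoly.const 4) he
  have h2 : Poly (fun a => (List.replicate (4 * e a) ()).map (fun _ => false)) :=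
    NPC.Poly.map h1 (F := fun _ _ => false) (NPC.Poly.const false)
  have h3 : Poly (fun a => (List.replicate (4 * e a) ()).map (fun _ => false) ++ [true]) :=
    NPC.Poly.append h2 (NPC.Poly.const [true])
  refine (NPC.Poly.valBits h3).congr fun a => ?_
  rw [List.map_replicate, valB_append, valB_repl, List.length_replicate, pow_mul]
  simp

end Z5x

theorem t_Z5 : S_Z5 := by
  intro α _ e he
  have h1 : Poly (fun a => (false, (16 : ℕ) ^ (e a))) := NPC.Poly.pair (NPC.Poly.const false) (Z5x.pow_nat e he)
  have h2 : Poly (fun a => (decide ((16 : ℤ) ^ (e a) < 0), ((16 : ℤ) ^ (e a)).natAbs)) := by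
    refine h1.congr fun a => ?_
    have h3 : ¬ ((16 : ℤ) ^ (e a) < 0) := not_lt.2 (by positivity)
    rw [decide_eq_false h3, Int.natAbs_pow]
    rfl
  exact h2

end Pool.Agent.H606R2.CF
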