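import Pool.Agent.H606R2.CF.StubsZ
import Pool.Agent.H532R2.IntPoly

/-! Z6: integer arithmetic in polynomial time. -/

set_option autoImplicit false

namespace Pool.Agent.H606R2.CF

open Pool.Agent.NPC

theorem t_Z6 : S_Z6 := by
  intro α _ f g hf hg
  exact ⟨H532.Poly_mulZ hf hg, H532.Poly_addZ hf hg, H532.Poly_subZ hf hg, H532.Poly_neg hf⟩

end Pool.Agent.H606R2.CF
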