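import Pool.Agent.H606R2.CF.StubsZ
import Pool.Agent.H671R2.PolyAuto

/-!
# Task Z7: the points are computable in polynomial time
-/

namespace Pool.Agent.H606R2.CF

open Pool.Agent.NPC Pool.Agent.NPC.H634R2

namespace TZ7

/-- truncated powers -/
def g (n e : ℕ) : ℤ := 16 ^ (min e (2 * n))

theorem g_eq {n e : ℕ} (h : e ≤ 2 * n) : g n e = 16 ^ e := by
  unfold g
  rw [min_eq_left h]

/-- base pair -/
def baseP (n i k : ℕ) : List Pt :=
  [up (4 * (2 * (n : ℤ) + 1) * g n i + (k : ℤ)) 0 (64 * (2 * (n : ℤ) + 1) * g n (2 * n)),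
   dn (4 * (2 * (n : ℤ) + 1) * g n i + (k : ℤ)) 0 (64 * (2 * (n : ℤ) + 1) * g n (2 * n))]

/-- slope -/
def slo' (n j r : ℕ) (s : Bool) : ℤ :=
  if s = true then 4 * g n n else 2 * g n n + g n (n + j - r)

/-- abscissa -/
def xP (n j : ℕ) : ℤ := (2 * (n : ℤ) + 1) * g n (j + 1)

/-- absolute height -/
def hA (n j lj : ℕ) : ℤ := 2 * g n n * ((2 * (n : ℤ) + 1) * (g n (j + 1) - 4 * g n lj))

/-- ordinate -/
def hP (n j lj cj : ℕ) : ℤ := if cj = 1 then hA n j lj else if cj = 2 then -(hA n j lj) else 0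

/-- slot pair -/
def slotP (n j lj cj raj rbj : ℕ) : List Pt :=
  [up (xP n j) (hP n j lj cj) (slo' n j raj (decide (cj = 1))),
   dn (xP n j) (hP n j lj cj) (slo' n j rbj (decide (cj = 2)))]

theorem flatMap_congr' {α β : Type} {l : List α} {f f' : α → List β} (h : ∀ a ∈ l, f a = f' a) :
    l.flatMap f = l.flatMap f' := by
  induction l with
  | nil => rfl
  | cons a l ih =>
    rw [List.flatMap_cons, List.flatMap_cons, h a (by simp),
      ih fun b hb => h b (List.mem_cons_of_mem _ hb)]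

theorem ptsL_eq (n : ℕ) (c l ra rb : ℕ → ℕ) (hl : ∀ j < n, l j ≤ j) :
    ptsL n c l ra rb =
    ((List.range (n + 1)).flatMap (fun i => (List.range (2 * n + 1)).flatMap (baseP n i))) ++
    (List.range n).flatMap (fun j => slotP n j (l j) (c j) (ra j) (rb j)) := by
  have h256 : (256 : ℤ) ^ n = g n (2 * n) := by
    rw [g_eq le_rfl, pow_mul]
    norm_num
  have hn : g n n = 16 ^ n := g_eq (by omega)
  unfold ptsL
  congr 1
  · apply flatMap_congr'
    intro i hi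
    rw [List.mem_range] at hi
    change List.flatMap _ (List.flatMap (fun a : ℕ => [(a : ℤ)]) (List.range (2 * n + 1))) = _
    rw [List.flatMap_assoc]
    apply flatMap_congr'
    intro k _
    unfold baseP
    rw [h256, g_eq (show i ≤ 2 * n by omega)]
    rfl
  · apply flatMap_congr'
    intro j hj
    rw [List.mem_range] at hj
    have h1 := hl j hj
    have e1 : g n (j + 1) = 16 ^ (j + 1) := g_eq (by omega)
    have e2 : g n (l j) = 16 ^ (l j) := g_eq (by omega)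
    have e3 : g n (n + j - ra j) = 16 ^ (n + j - ra j) := g_eq (by omega)
    have e4 : g n (n + j - rb j) = 16 ^ (n + j - rb j) := g_eq (by omega)
    unfold slotP xP hP hA slo' slo
    simp only [e1, e2, e3, e4, hn, decide_eq_true_eq]

section

variable {α : Type} [TEnc α]

theorem p_g (h5 : S_Z5) {n e : α → ℕ} (hn : UPoly n) (he : Poly e) :
    Poly (fun a => g (n a) (e a)) := by
  have h1 : UPoly (fun a => 2 * n a) := UPoly.mul (UPoly.const 2) hn
  exact h5 _ (UPoly.of_le (NPC.Poly.min he h1.toPoly) h1 (fun a => min_le_right _ _))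

theorem p_mul (h6 : S_Z6) {f f' : α → ℤ} (hf : Poly f) (hf' : Poly f') :
    Poly (fun a => f a * f' a) := (h6 f f' hf hf').1

theorem p_add (h6 : S_Z6) {f f' : α → ℤ} (hf : Poly f) (hf' : Poly f') :
    Poly (fun a => f a + f' a) := (h6 f f' hf hf').2.1

theorem p_sub (h6 : S_Z6) {f f' : α → ℤ} (hf : Poly f) (hf' : Poly f') :
    Poly (fun a => f a - f' a) := (h6 f f' hf hf').2.2.1

theorem p_neg (h6 : S_Z6) {f : α → ℤ} (hf : Poly f) : Poly (fun a => -(f a)) :=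
  (h6 f f hf hf).2.2.2

theorem p_c (c : ℤ) : Poly (fun _ : α => c) := NPC.Poly.const c

theorem p_2n1 (h6 : S_Z6) {n : α → ℕ} (hn : Poly n) : Poly (fun a => 2 * (n a : ℤ) + 1) :=
  p_add h6 (p_mul h6 (p_c 2) (NPC.Poly.natCast_int hn)) (p_c 1)

theorem p_up (h6 : S_Z6) {x h a : α → ℤ} (hx : Poly x) (hh : Poly h) (ha : Poly a) :
    Poly (fun t => up (x t) (h t) (a t)) :=
  NPC.Poly.pair ha (p_sub h6 (p_mul h6 ha hx) hh)

theorem p_dn (h6 : S_Z6) {x h a : α → ℤ} (hx : Poly x) (hh : Poly h) (ha : Poly a) :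
    Poly (fun t => dn (x t) (h t) (a t)) :=
  NPC.Poly.pair (p_neg h6 ha) (p_sub h6 (p_neg h6 (p_mul h6 ha hx)) hh)

theorem p_base (h5 : S_Z5) (h6 : S_Z6) {n i k : α → ℕ} (hn : UPoly n) (hi : Poly i)
    (hk : Poly k) : Poly (fun a => baseP (n a) (i a) (k a)) := by
  have e1 : Poly (fun a => 4 * (2 * (n a : ℤ) + 1) * g (n a) (i a) + (k a : ℤ)) :=
    p_add h6 (p_mul h6 (p_mul h6 (p_c 4) (p_2n1 h6 hn.toPoly)) (p_g h5 hn hi))
      (NPC.Poly.natCast_int hk)
  have e2 : Poly (fun a => 64 * (2 * (n a : ℤ) + 1) * g (n a) (2 * n a)) :=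
    p_mul h6 (p_mul h6 (p_c 64) (p_2n1 h6 hn.toPoly))
      (p_g h5 hn (NPC.Poly.mul (NPC.Poly.const 2) hn.toPoly))
  exact NPC.Poly.cons (p_up h6 e1 (p_c 0) e2)
    (NPC.Poly.cons (p_dn h6 e1 (p_c 0) e2) (NPC.Poly.const []))

theorem p_slo (h5 : S_Z5) (h6 : S_Z6) {n j r : α → ℕ} {s : α → Bool} (hn : UPoly n) (hj : Poly j)
    (hr : Poly r) (hs : Poly s) : Poly (fun a => slo' (n a) (j a) (r a) (s a)) := by
  unfold slo'
  have e1 := p_g h5 hn hn.toPoly
  exact NPC.Poly.ite (NPC.Poly.decide_bool hs) (p_mul h6 (p_c 4) e1)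
    (p_add h6 (p_mul h6 (p_c 2) e1)
      (p_g h5 hn (NPC.Poly.sub (NPC.Poly.add hn.toPoly hj) hr)))

theorem p_x (h5 : S_Z5) (h6 : S_Z6) {n j : α → ℕ} (hn : UPoly n) (hj : Poly j) :
    Poly (fun a => xP (n a) (j a)) :=
  p_mul h6 (p_2n1 h6 hn.toPoly) (p_g h5 hn (NPC.Poly.succ hj))

theorem p_hA (h5 : S_Z5) (h6 : S_Z6) {n j lj : α → ℕ} (hn : UPoly n) (hj : Poly j)
    (hl : Poly lj) : Poly (fun a => hA (n a) (j a) (lj a)) :=
  p_mul h6 (p_mul h6 (p_c 2) (p_g h5 hn hn.toPoly)) (p_mul h6 (p_2n1 h6 hn.toPoly)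
    (p_sub h6 (p_g h5 hn (NPC.Poly.succ hj)) (p_mul h6 (p_c 4) (p_g h5 hn hl))))

theorem p_hP (h5 : S_Z5) (h6 : S_Z6) {n j lj cj : α → ℕ} (hn : UPoly n) (hj : Poly j)
    (hl : Poly lj) (hc : Poly cj) : Poly (fun a => hP (n a) (j a) (lj a) (cj a)) := by
  unfold hP
  have e1 := p_hA h5 h6 hn hj hl
  exact NPC.Poly.ite (NPC.Poly.decide_eq hc (NPC.Poly.const 1)) e1
    (NPC.Poly.ite (NPC.Poly.decide_eq hc (NPC.Poly.const 2)) (p_neg h6 e1) (p_c 0))

theorem p_slot (h5 : S_Z5) (h6 : S_Z6) {n j lj cj raj rbj : α → ℕ} (hn : UPoly n) (hj : Poly j)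
    (hl : Poly lj) (hc : Poly cj) (ha : Poly raj) (hb : Poly rbj) :
    Poly (fun a => slotP (n a) (j a) (lj a) (cj a) (raj a) (rbj a)) := by
  have e1 := p_x h5 h6 hn hj
  have e2 := p_hP h5 h6 hn hj hl hc
  have e3 := p_slo h5 h6 hn hj ha (NPC.Poly.decide_eq hc (NPC.Poly.const 1))
  have e4 := p_slo h5 h6 hn hj hb (NPC.Poly.decide_eq hc (NPC.Poly.const 2))
  exact NPC.Poly.cons (p_up h6 e1 e2 e3) (NPC.Poly.cons (p_dn h6 e1 e2 e4) (NPC.Poly.const []))

end

end TZ7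

open TZ7 in
theorem t_Z7 (hM2 : S_M2) (h4 : S_Z4) (h5 : S_Z5) (h6 : S_Z6) : S_Z7 := by
  have hn : UPoly (fun ops : List Op => ops.length) := UPoly.length NPC.Poly.id
  have hb : Poly (fun ops : List Op => (List.range (ops.length + 1)).flatMap
      (fun i => (List.range (2 * ops.length + 1)).flatMap (baseP ops.length i))) := by
    refine NPC.Poly.flatMap (F := fun (ops : List Op) i =>
      (List.range (2 * ops.length + 1)).flatMap (baseP ops.length i))
      (UPoly.add hn (UPoly.const 1)).range ?_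
    have hn2 : UPoly (fun p : List Op × ℕ => p.1.length) := UPoly.length (NPC.Poly.fst NPC.Poly.id)
    refine NPC.Poly.flatMap (F := fun (p : List Op × ℕ) k => baseP p.1.length p.2 k)
      (UPoly.add (UPoly.mul (UPoly.const 2) hn2) (UPoly.const 1)).range ?_
    exact p_base h5 h6 (UPoly.length (NPC.Poly.fst (NPC.Poly.fst NPC.Poly.id)))
      (NPC.Poly.snd (NPC.Poly.fst NPC.Poly.id)) (NPC.Poly.snd NPC.Poly.id)
  have hs : Poly (fun ops : List Op => (List.range ops.length).flatMap (fun j =>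
      slotP ops.length j (lo ops j) (kd ops j) (re 1 ops j) (re 2 ops j))) := by
    refine NPC.Poly.flatMap (F := fun (ops : List Op) j =>
      slotP ops.length j (lo ops j) (kd ops j) (re 1 ops j) (re 2 ops j)) hn.range ?_
    exact p_slot h5 h6 (UPoly.length (NPC.Poly.fst NPC.Poly.id)) (NPC.Poly.snd NPC.Poly.id)
      h4.2.1 h4.1 h4.2.2.1 h4.2.2.2
  refine (NPC.Poly.append hb hs).congr fun ops => ?_
  unfold ptsP
  rw [ptsL_eq ops.length (kd ops) (lo ops) (re 1 ops) (re 2 ops)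
    fun j hj => ((hM2 ops).1 j hj).1]

end Pool.Agent.H606R2.CF
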