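import Pool.Agent.H606R2.CF.StubsZ

set_option autoImplicit false

namespace Pool.Agent.H606R2.CF

open Pool.Agent.NPC Pool.Agent.NPC.H634R2

theorem t_Z8 (hZ2 : S_Z2) (hZ7 : S_Z7) : S_Z8 := by
  have hfst : Poly (fun I : (List ℕ × List (ℕ × ℕ)) × ℕ => I.1) := Poly.fst Poly.id
  have hprog : Poly (fun I : (List ℕ × List (ℕ × ℕ)) × ℕ => prog (adjC I.1.2) I.1.1) :=
    Poly.comp (g := fun I : List ℕ × List (ℕ × ℕ) => prog (adjC I.2) I.1) hZ2.1 hfst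
  have hc : Poly (fun I : (List ℕ × List (ℕ × ℕ)) × ℕ => cTot (adjC I.1.2) I.1.1) :=
    Poly.comp (g := fun I : List ℕ × List (ℕ × ℕ) => cTot (adjC I.2) I.1) hZ2.2 hfst
  have hp : Poly (fun I : (List ℕ × List (ℕ × ℕ)) × ℕ => ptsP (prog (adjC I.1.2) I.1.1)) :=
    Poly.comp hZ7 hprog
  have hlen := Poly.length hprog
  exact Poly.pair hp (Poly.add
    (Poly.mul (Poly.succ hlen) (Poly.succ (Poly.mul (NPC.Poly.const 2) hlen)))
    (Poly.add hc (Poly.snd Poly.id)))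

end Pool.Agent.H606R2.CF
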