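import Pool.Agent.H606R2.CF.StubsZ

/-!
# Task Z9: hardness
-/

namespace Pool.Agent.H606R2.CF

open Pool.Agent.NPC Pool.Agent.NPC.H634R2

theorem Z9_adjC {E : List (ℕ × ℕ)} {u w : ℕ} (h : u ≠ w) :
    adjC E u w = false ↔ (u, w) ∈ E ∨ (w, u) ∈ E := by
  unfold adjC
  by_cases h1 : (u, w) ∈ E
  · simp [h1]
  · by_cases h2 : (w, u) ∈ E
    · simp [h2]
    · simp [h, h1, h2]

theorem Z9_clique {V : List ℕ} {E : List (ℕ × ℕ)} {k : ℕ} :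
    (∃ K : Finset ℕ, (∀ v ∈ K, v ∈ V) ∧ k ≤ K.card ∧
      ∀ u ∈ K, ∀ w ∈ K, u ≠ w → adjC E u w = false) ↔ HasClique V E k := by
  constructor
  · rintro ⟨K, h1, h2, h3⟩
    obtain ⟨K', hK', hc⟩ := Finset.exists_subset_card_eq h2
    refine ⟨K', fun v hv => h1 v (hK' hv), hc, ?_⟩
    intro u hu v hv huv
    exact (Z9_adjC huv).1 (h3 u (hK' hu) v (hK' hv) huv)
  · rintro ⟨K, h1, h2, h3⟩
    refine ⟨K, h1, h2.ge, ?_⟩
    intro u hu w hw huw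
    exact (Z9_adjC huw).2 (h3 u hu w hw huw)

theorem Z9_layout (hG3 : S_G3) (hG12 : S_G12) (hR1 : S_R1) (hR2 : S_R2) (hM1 : S_M1) (hM2 : S_M2)
    (hZ1 : S_Z1) (ops : List Op) (K : ℕ) :
    ((ops.length + 1) * (2 * ops.length + 1) + K ≤ cf (ptsP ops).toFinset) ↔
      ∃ s' v, Runs ops ([], []) s' v ∧ K ≤ v := by
  obtain ⟨hR, hE⟩ := hM2 ops
  have hS := (hZ1 ops.length (kd ops) (lo ops) (re 1 ops) (re 2 ops) hR).2
  have hgood := hR1 ops.length (kd ops) (lo ops) (re 1 ops) (re 2 ops) hR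
  have h12 := hG12 (lay ops.length (kd ops) (lo ops) (re 1 ops) (re 2 ops)) hgood K
  have hS' : (ptsP ops).toFinset =
      (lay ops.length (kd ops) (lo ops) (re 1 ops) (re 2 ops)).S := hS
  rw [hG3, hS', hM1]
  refine h12.trans ?_
  constructor
  · rintro ⟨J, hJ, h⟩
    refine ⟨J, hJ, ?_⟩
    intro i hi j hj hmem
    obtain ⟨hlt, hedg⟩ := (hE i.1 j.1 i.2 j.2).1 hmem
    exact (hR2 ops.length (kd ops) (lo ops) (re 1 ops) (re 2 ops) hR i j hlt).1 (h i hi j hj hlt)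
      hedg
  · rintro ⟨J, hJ, h⟩
    refine ⟨J, hJ, ?_⟩
    intro i hi j hj hlt
    refine (hR2 ops.length (kd ops) (lo ops) (re 1 ops) (re 2 ops) hR i j hlt).2 ?_
    intro hedg
    exact h i hi j hj ((hE i.1 j.1 i.2 j.2).2 ⟨hlt, hedg⟩)

/-- Task Z9. -/
theorem t_Z9 (hG3 : S_G3) (hG12 : S_G12) (hR1 : S_R1) (hR2 : S_R2) (hM1 : S_M1) (hM2 : S_M2)
    (hW9 : S_W9) (hZ1 : S_Z1) (hZ8 : S_Z8) : S_Z9 := by
  refine hardPr_CLIQUE.trans (f := red) hZ8 ?_ ?_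
  · rintro ⟨⟨V, E⟩, k⟩ _
    exact (hZ1 _ _ _ _ _ (hM2 (prog (adjC E) V)).1).1
  · rintro ⟨⟨V, E⟩, k⟩ ⟨hg, _⟩
    have hV : V.Nodup := hg.1
    have hN : (red ((V, E), k)).1.Nodup := (hZ1 _ _ _ _ _ (hM2 (prog (adjC E) V)).1).1
    have h1 := Z9_layout hG3 hG12 hR1 hR2 hM1 hM2 hZ1 (prog (adjC E) V) (cTot (adjC E) V + k)
    have h2 := hW9 V hV (adjC E) k
    have h3 : HasClique V E k ↔ (red ((V, E), k)).2 ≤ cf (red ((V, E), k)).1.toFinset :=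
      (Z9_clique.symm.trans h2.symm).trans h1.symm
    constructor
    · rintro ⟨_, hc⟩
      exact ⟨hN, h3.1 hc⟩
    · rintro ⟨_, hc⟩
      exact ⟨hg, h3.2 hc⟩

end Pool.Agent.H606R2.CF
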