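import Pool.Agent.H606R2.CF.T_G1
import Pool.Agent.H606R2.CF.T_G2
import Pool.Agent.H606R2.CF.T_G3
import Pool.Agent.H606R2.CF.T_G4
import Pool.Agent.H606R2.CF.T_G5
import Pool.Agent.H606R2.CF.T_G6
import Pool.Agent.H606R2.CF.T_G7
import Pool.Agent.H606R2.CF.T_G8
import Pool.Agent.H606R2.CF.T_G9
import Pool.Agent.H606R2.CF.T_G10
import Pool.Agent.H606R2.CF.T_G11
import Pool.Agent.H606R2.CF.T_G12
import Pool.Agent.H606R2.CF.T_R1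
import Pool.Agent.H606R2.CF.T_R2
import Pool.Agent.H606R2.CF.T_M1
import Pool.Agent.H606R2.CF.T_M2
import Pool.Agent.H606R2.CF.T_W1
import Pool.Agent.H606R2.CF.T_W2
import Pool.Agent.H606R2.CF.T_W3
import Pool.Agent.H606R2.CF.T_W4
import Pool.Agent.H606R2.CF.T_W5
import Pool.Agent.H606R2.CF.T_W6
import Pool.Agent.H606R2.CF.T_W7
import Pool.Agent.H606R2.CF.T_W8
import Pool.Agent.H606R2.CF.T_W9
import Pool.Agent.H606R2.CF.T_Z1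
import Pool.Agent.H606R2.CF.T_Z2
import Pool.Agent.H606R2.CF.T_Z3
import Pool.Agent.H606R2.CF.T_Z4
import Pool.Agent.H606R2.CF.T_Z5
import Pool.Agent.H606R2.CF.T_Z6
import Pool.Agent.H606R2.CF.T_Z7
import Pool.Agent.H606R2.CF.T_Z8
import Pool.Agent.H606R2.CF.T_Z9
import Pool.Agent.H606R2.CF.Alg

/-!
# Computing a largest crossing family is NP-hard: assembly
-/

namespace Pool.Agent.H606R2.CF

theorem hardCF : S_Z9 := by
  have g2 : S_G2 := t_G2 t_G1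
  have g6 : S_G6 := t_G6 t_G5
  have g12 : S_G12 := t_G12 t_G1 g2 t_G4 t_G5 g6 (t_G7 t_G5 g6) (t_G8 t_G5) (t_G9 t_G5) t_G10 t_G11
  have w2 : S_W2 := t_W2 t_W1
  have w7 : S_W7 := t_W7 w2 (t_W6 t_W3 t_W4 t_W5)
  have w9 : S_W9 := t_W9 t_W1 (t_W8 w2 w7)
  have z7 : S_Z7 := t_Z7 t_M2 (t_Z4 t_Z3) t_Z5 t_Z6
  exact t_Z9 t_G3 g12 t_R1 t_R2 t_M1 t_M2 w9 (t_Z1 t_G5 t_R1) (t_Z8 t_Z2 z7)

end Pool.Agent.H606R2.CF
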