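import Pool.Agent.H606R2.CF.Stubs
import Pool.Agent.H634R2.Clique

/-!
# Statements of the tasks, group Z (complexity)
-/

namespace Pool.Agent.H606R2.CF

open Pool.Agent.NPC Pool.Agent.NPC.H634R2

/-- Adjacency in the complement of the graph with edge list `E`. -/
def adjC (E : List (ℕ × ℕ)) (u w : ℕ) : Bool :=
  !(decide (u = w)) && !(decide ((u, w) ∈ E)) && !(decide ((w, u) ∈ E))

/-- The list of points of the layout. -/
def ptsL (n : ℕ) (c l ra rb : ℕ → ℕ) : List Pt :=
  ((List.range (n + 1)).flatMap (fun i => (List.range (2 * n + 1)).flatMap (fun k =>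
    [up (4 * (2 * (n : ℤ) + 1) * 16 ^ i + (k : ℤ)) 0 (64 * (2 * (n : ℤ) + 1) * 256 ^ n),
     dn (4 * (2 * (n : ℤ) + 1) * 16 ^ i + (k : ℤ)) 0 (64 * (2 * (n : ℤ) + 1) * 256 ^ n)]))) ++
  (List.range n).flatMap (fun j =>
    let x : ℤ := (2 * n + 1) * 16 ^ (j + 1)
    let h : ℤ := if c j = 1 then 2 * 16 ^ n * ((2 * n + 1) * (16 ^ (j + 1) - 4 * 16 ^ (l j)))
      else if c j = 2 then -(2 * 16 ^ n * ((2 * n + 1) * (16 ^ (j + 1) - 4 * 16 ^ (l j)))) else 0
    [up x h (slo n j (ra j) (c j = 1)), dn x h (slo n j (rb j) (c j = 2))])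

/-- The points of a program. -/
def ptsP (ops : List Op) : List Pt := ptsL ops.length (kd ops) (lo ops) (re 1 ops) (re 2 ops)

/-- The reduction. -/
def red (I : (List ℕ × List (ℕ × ℕ)) × ℕ) : List Pt × ℕ :=
  (ptsP (prog (adjC I.1.2) I.1.1),
    ((prog (adjC I.1.2) I.1.1).length + 1) * (2 * (prog (adjC I.1.2) I.1.1).length + 1) +
      (cTot (adjC I.1.2) I.1.1 + I.2))

/-- The list of points gives the configuration. -/
def S_Z1 : Prop := ∀ n c l ra rb, Rng n l ra rb →
  (ptsL n c l ra rb).Nodup ∧ (ptsL n c l ra rb).toFinset = (lay n c l ra rb).S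

/-- The program is computable in polynomial time. -/
def S_Z2 : Prop :=
  Poly (fun I : List ℕ × List (ℕ × ℕ) => prog (adjC I.2) I.1) ∧
  Poly (fun I : List ℕ × List (ℕ × ℕ) => cTot (adjC I.2) I.1)

/-- The table is computable in polynomial time. -/
def S_Z3 : Prop := Poly tab

/-- Reaches are computable in polynomial time. -/
def S_Z4 : Prop :=
  Poly (fun p : List Op × ℕ => kd p.1 p.2) ∧ Poly (fun p : List Op × ℕ => lo p.1 p.2) ∧
  Poly (fun p : List Op × ℕ => re 1 p.1 p.2) ∧ Poly (fun p : List Op × ℕ => re 2 p.1 p.2)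

/-- Powers with a small exponent are computable in polynomial time. -/
def S_Z5 : Prop := ∀ {α : Type} [TEnc α] (e : α → ℕ), UPoly e → Poly (fun a => (16 : ℤ) ^ (e a))

/-- Multiplication and subtraction of integers are computable in polynomial time. -/
def S_Z6 : Prop := ∀ {α : Type} [TEnc α] (f g : α → ℤ), Poly f → Poly g →
  Poly (fun a => f a * g a) ∧ Poly (fun a => f a + g a) ∧ Poly (fun a => f a - g a) ∧
  Poly (fun a => -(f a))

/-- The points are computable in polynomial time. -/
def S_Z7 : Prop := Poly ptsP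

/-- The reduction is computable in polynomial time. -/
def S_Z8 : Prop := Poly red

/-- The decision problem is hard, already for lists of distinct points. -/
def S_Z9 : Prop := HardPr (fun I : List Pt × ℕ => I.1.Nodup) LargeCF

end Pool.Agent.H606R2.CF
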