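import Pool.Agent.H606R2.CF.Stubs

set_option autoImplicit false

namespace Pool.Agent.H606R2.CF

namespace G1aux

theorem mem_seg {a1 a2 b1 b2 : ℝ} {x : ℝ × ℝ} : x ∈ segment ℝ (a1, a2) (b1, b2) ↔
    ∃ u : ℝ, 0 ≤ u ∧ u ≤ 1 ∧ x = (a1 + u * (b1 - a1), a2 + u * (b2 - a2)) := by
  rw [segment_eq_image]
  constructor
  · rintro ⟨u, hu, rfl⟩
    refine ⟨u, hu.1, hu.2, ?_⟩
    ext <;> simp <;> ring
  · rintro ⟨u, h0, h1, rfl⟩
    refine ⟨u, ⟨h0, h1⟩, ?_⟩
    ext <;> simp <;> ring

theorem mem_oseg {a1 a2 b1 b2 : ℝ} {x : ℝ × ℝ} : x ∈ openSegment ℝ (a1, a2) (b1, b2) ↔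
    ∃ u : ℝ, 0 < u ∧ u < 1 ∧ x = (a1 + u * (b1 - a1), a2 + u * (b2 - a2)) := by
  rw [openSegment_eq_image]
  constructor
  · rintro ⟨u, hu, rfl⟩
    refine ⟨u, hu.1, hu.2, ?_⟩
    ext <;> simp <;> ring
  · rintro ⟨u, h0, h1, rfl⟩
    refine ⟨u, ⟨h0, h1⟩, ?_⟩
    ext <;> simp <;> ring

theorem frac {s t : ℝ} (h : s * t < 0) : s - t ≠ 0 ∧ 0 < s / (s - t) ∧ s / (s - t) < 1 := by
  rcases lt_trichotomy s 0 with h1 | h1 | h1
  · have h2 : 0 < t := by
      by_contra h3
      push Not at h3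
      nlinarith [mul_nonneg_of_nonpos_of_nonpos h1.le h3]
    have h3 : s - t < 0 := by linarith
    refine ⟨h3.ne, div_pos_of_neg_of_neg h1 h3, ?_⟩
    rw [div_lt_one_of_neg h3]
    linarith
  · rw [h1, zero_mul] at h
    exact absurd h (lt_irrefl _)
  · have h2 : t < 0 := by
      by_contra h3
      push Not at h3
      nlinarith [mul_nonneg h1.le h3]
    have h3 : 0 < s - t := by linarith
    refine ⟨h3.ne', div_pos h1 h3, ?_⟩
    rw [div_lt_one h3]
    linarith

theorem core (a1 a2 b1 b2 c1 c2 d1 d2 : ℝ) (hab : ¬ (b1 - a1 = 0 ∧ b2 - a2 = 0))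
    (hcd : ¬ (d1 - c1 = 0 ∧ d2 - c2 = 0)) :
    CrossProperly (a1, a2) (b1, b2) (c1, c2) (d1, d2) ↔
      ((b1 - a1) * (c2 - a2) - (b2 - a2) * (c1 - a1)) *
        ((b1 - a1) * (d2 - a2) - (b2 - a2) * (d1 - a1)) < 0 ∧
      ((d1 - c1) * (a2 - c2) - (d2 - c2) * (a1 - c1)) *
        ((d1 - c1) * (b2 - c2) - (d2 - c2) * (b1 - c1)) < 0 := by
  set o1 := (b1 - a1) * (c2 - a2) - (b2 - a2) * (c1 - a1) with ho1
  set o2 := (b1 - a1) * (d2 - a2) - (b2 - a2) * (d1 - a1) with ho2
  set o3 := (d1 - c1) * (a2 - c2) - (d2 - c2) * (a1 - c1) with ho3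
  set o4 := (d1 - c1) * (b2 - c2) - (d2 - c2) * (b1 - c1) with ho4
  have hΔ : o3 - o4 = -(o1 - o2) := by
    rw [ho1, ho2, ho3, ho4]; ring
  constructor
  · rintro ⟨x, hx, hxab, hxcd⟩
    obtain ⟨u, hu0, hu1, hxu⟩ := mem_oseg.1 hxab
    obtain ⟨w, hw0, hw1, hxw⟩ := mem_oseg.1 hxcd
    have e1 : a1 + u * (b1 - a1) = c1 + w * (d1 - c1) := by
      have := congrArg Prod.fst (hxu.symm.trans hxw)
      exact this
    have e2 : a2 + u * (b2 - a2) = c2 + w * (d2 - c2) := by
      have := congrArg Prod.snd (hxu.symm.trans hxw)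
      exact this
    set Δ := (b1 - a1) * (d2 - c2) - (b2 - a2) * (d1 - c1) with hD
    have f1 : o1 = -(w * Δ) := by
      rw [ho1, hD]
      linear_combination (-(b1 - a1)) * e2 + (b2 - a2) * e1
    have f2 : o2 = (1 - w) * Δ := by
      rw [ho2, hD]
      linear_combination (-(b1 - a1)) * e2 + (b2 - a2) * e1
    have f3 : o3 = u * Δ := by
      rw [ho3, hD]
      linear_combination (d1 - c1) * e2 - (d2 - c2) * e1
    have f4 : o4 = -((1 - u) * Δ) := by
      rw [ho4, hD]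
      linear_combination (d1 - c1) * e2 - (d2 - c2) * e1
    have hD0 : Δ ≠ 0 := by
      intro h0
      -- parallel segments
      set q : ℝ := (d1 - c1) ^ 2 + (d2 - c2) ^ 2 with hq
      have hq0 : 0 < q := by
        rcases not_and_or.1 hcd with h | h
        · have := sq_nonneg (d2 - c2)
          have := pow_pos (abs_pos.2 h) 2
          rw [sq_abs] at this
          linarith
        · have := sq_nonneg (d1 - c1)
          have := pow_pos (abs_pos.2 h) 2
          rw [sq_abs] at this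
          linarith
      set l : ℝ := ((b1 - a1) * (d1 - c1) + (b2 - a2) * (d2 - c2)) / q with hl
      have hlq : l * q = (b1 - a1) * (d1 - c1) + (b2 - a2) * (d2 - c2) := by
        rw [hl]
        exact div_mul_cancel₀ _ hq0.ne'
      have g1 : l * (d1 - c1) = b1 - a1 := by
        apply mul_right_cancel₀ hq0.ne'
        rw [hD] at h0
        have : l * (d1 - c1) * q = (l * q) * (d1 - c1) := by ring
        rw [this, hlq, hq]
        linear_combination (-(d2 - c2)) * h0
      have g2 : l * (d2 - c2) = b2 - a2 := by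
        apply mul_right_cancel₀ hq0.ne'
        rw [hD] at h0
        have : l * (d2 - c2) * q = (l * q) * (d2 - c2) := by ring
        rw [this, hlq, hq]
        linear_combination (d1 - c1) * h0
      set m : ℝ := min (min u (1 - u)) (min w (1 - w)) with hm
      have hm0 : 0 < m := lt_min (lt_min hu0 (by linarith)) (lt_min hw0 (by linarith))
      have m1 : m ≤ u := (min_le_left _ _).trans (min_le_left _ _)
      have m2 : m ≤ 1 - u := (min_le_left _ _).trans (min_le_right _ _)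
      have m3 : m ≤ w := (min_le_right _ _).trans (min_le_left _ _)
      have m4 : m ≤ 1 - w := (min_le_right _ _).trans (min_le_right _ _)
      have hl1 : 0 < 1 + |l| := by positivity
      set ε : ℝ := m / (1 + |l|) with hε
      have hε0 : 0 < ε := div_pos hm0 hl1
      have hεm : ε ≤ m := by
        rw [hε, div_le_iff₀ hl1]
        have := mul_nonneg hm0.le (abs_nonneg l)
        linarith
      have hεl : |ε * l| ≤ m := by
        rw [abs_mul, abs_of_pos hε0, hε, div_mul_eq_mul_div, div_le_iff₀ hl1]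
        linarith
      obtain ⟨hεl1, hεl2⟩ := abs_le.1 hεl
      have hy : ((a1 + (u + ε) * (b1 - a1), a2 + (u + ε) * (b2 - a2)) : ℝ × ℝ) ∈
          segment ℝ (a1, a2) (b1, b2) ∩ segment ℝ (c1, c2) (d1, d2) := by
        refine ⟨mem_seg.2 ⟨u + ε, by linarith, by linarith, rfl⟩,
          mem_seg.2 ⟨w + ε * l, by linarith, by linarith, ?_⟩⟩
        apply Prod.ext
        · show a1 + (u + ε) * (b1 - a1) = c1 + (w + ε * l) * (d1 - c1)
          linear_combination e1 - ε * g1
        · show a2 + (u + ε) * (b2 - a2) = c2 + (w + ε * l) * (d2 - c2)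
          linear_combination e2 - ε * g2
      rw [hx, Set.mem_singleton_iff, hxu] at hy
      have h1 : a1 + (u + ε) * (b1 - a1) = a1 + u * (b1 - a1) := congrArg Prod.fst hy
      have h2 : a2 + (u + ε) * (b2 - a2) = a2 + u * (b2 - a2) := congrArg Prod.snd hy
      apply hab
      constructor
      · have : ε * (b1 - a1) = 0 := by linarith
        rcases mul_eq_zero.1 this with h | h
        · exact absurd h hε0.ne'
        · exact h
      · have : ε * (b2 - a2) = 0 := by linarith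
        rcases mul_eq_zero.1 this with h | h
        · exact absurd h hε0.ne'
        · exact h
    have hD2 : 0 < Δ ^ 2 := by positivity
    constructor
    · rw [f1, f2]
      have h5 : 0 < w * (1 - w) * Δ ^ 2 := mul_pos (mul_pos hw0 (by linarith)) hD2
      have h6 : -(w * Δ) * ((1 - w) * Δ) = -(w * (1 - w) * Δ ^ 2) := by ring
      rw [h6]
      linarith
    · rw [f3, f4]
      have h5 : 0 < u * (1 - u) * Δ ^ 2 := mul_pos (mul_pos hu0 (by linarith)) hD2
      have h6 : u * Δ * -((1 - u) * Δ) = -(u * (1 - u) * Δ ^ 2) := by ring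
      rw [h6]
      linarith
  · rintro ⟨h12, h34⟩
    obtain ⟨hw, hw0, hw1⟩ := frac h12
    obtain ⟨hu, hu0, hu1⟩ := frac h34
    set w := o1 / (o1 - o2) with hwdef
    set u := o3 / (o3 - o4) with hudef
    have hwe : w * (o1 - o2) = o1 := div_mul_cancel₀ _ hw
    have hue : u * (o3 - o4) = o3 := div_mul_cancel₀ _ hu
    have e1 : a1 + u * (b1 - a1) = c1 + w * (d1 - c1) := by
      apply mul_right_cancel₀ hu
      have h1 : (a1 + u * (b1 - a1)) * (o3 - o4) = a1 * (o3 - o4) + o3 * (b1 - a1) := by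
        linear_combination (b1 - a1) * hue
      have h2 : (c1 + w * (d1 - c1)) * (o3 - o4) = c1 * (o3 - o4) - o1 * (d1 - c1) := by
        rw [hΔ]
        linear_combination (-(d1 - c1)) * hwe
      rw [h1, h2, ho1, ho3, ho4]
      ring
    have e2 : a2 + u * (b2 - a2) = c2 + w * (d2 - c2) := by
      apply mul_right_cancel₀ hu
      have h1 : (a2 + u * (b2 - a2)) * (o3 - o4) = a2 * (o3 - o4) + o3 * (b2 - a2) := by
        linear_combination (b2 - a2) * hue
      have h2 : (c2 + w * (d2 - c2)) * (o3 - o4) = c2 * (o3 - o4) - o1 * (d2 - c2) := by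
        rw [hΔ]
        linear_combination (-(d2 - c2)) * hwe
      rw [h1, h2, ho1, ho3, ho4]
      ring
    refine ⟨(a1 + u * (b1 - a1), a2 + u * (b2 - a2)), ?_, mem_oseg.2 ⟨u, hu0, hu1, rfl⟩,
      mem_oseg.2 ⟨w, hw0, hw1, Prod.ext e1 e2⟩⟩
    apply Set.eq_singleton_iff_unique_mem.2
    refine ⟨⟨mem_seg.2 ⟨u, hu0.le, hu1.le, rfl⟩, mem_seg.2 ⟨w, hw0.le, hw1.le, Prod.ext e1 e2⟩⟩, ?_⟩
    rintro y ⟨hy1, hy2⟩
    obtain ⟨u', -, -, hyu⟩ := mem_seg.1 hy1
    obtain ⟨w', -, -, hyw⟩ := mem_seg.1 hy2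
    have f1 : a1 + u' * (b1 - a1) = c1 + w' * (d1 - c1) := congrArg Prod.fst (hyu.symm.trans hyw)
    have f2 : a2 + u' * (b2 - a2) = c2 + w' * (d2 - c2) := congrArg Prod.snd (hyu.symm.trans hyw)
    have hu' : u' = u := by
      apply mul_right_cancel₀ hu
      rw [hue, ho3, ho4]
      linear_combination (d2 - c2) * f1 - (d1 - c1) * f2
    rw [hyu, hu']

end G1aux

theorem t_G1 : S_G1 := by
  intro a b c d hab hcd
  have h1 : ¬ ((b.1 : ℝ) - a.1 = 0 ∧ (b.2 : ℝ) - a.2 = 0) := by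
    rintro ⟨h1, h2⟩
    apply hab
    have h1' : (a.1 : ℝ) = b.1 := by linarith
    have h2' : (a.2 : ℝ) = b.2 := by linarith
    exact Prod.ext (by exact_mod_cast h1') (by exact_mod_cast h2')
  have h2 : ¬ ((d.1 : ℝ) - c.1 = 0 ∧ (d.2 : ℝ) - c.2 = 0) := by
    rintro ⟨h1, h2⟩
    apply hcd
    have h1' : (c.1 : ℝ) = d.1 := by linarith
    have h2' : (c.2 : ℝ) = d.2 := by linarith
    exact Prod.ext (by exact_mod_cast h1') (by exact_mod_cast h2')
  have h3 := G1aux.core (a.1 : ℝ) a.2 b.1 b.2 c.1 c.2 d.1 d.2 h1 h2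
  unfold toR Cr
  rw [h3]
  unfold orient
  exact_mod_cast Iff.rfl

end Pool.Agent.H606R2.CF
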