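import Pool.Agent.H606R2.CF.Stubs

/-!
# Crossing families: the explicit layout is good (task R1)
-/

namespace Pool.Agent.H606R2.CF

namespace R1x

theorem slo_facts (n j r : ℕ) (P : Prop) [Decidable P] (h1 : j ≤ r) :
    2 * (16:ℤ) ^ n < slo n j r P ∧ slo n j r P ≤ 4 * 16 ^ n := by
  unfold slo
  have hT : (0:ℤ) < 16 ^ n := by positivity
  split_ifs
  · constructor <;> linarith
  · have h3 : (16:ℤ) ^ (n + j - r) ≤ 16 ^ n := pow_le_pow_right₀ (by norm_num) (by omega)
    have h4 : (0:ℤ) < 16 ^ (n + j - r) := by positivity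
    constructor <;> linarith

theorem slo_steep (n j r : ℕ) (P : Prop) [Decidable P] (h : P) :
    slo n j r P = 4 * 16 ^ n := if_pos h

/-- the ordinate of a slot -/
def hh (n : ℕ) (c l : ℕ → ℕ) (j : ℕ) : ℤ :=
  if c j = 1 then 2 * 16 ^ n * ((2 * n + 1) * (16 ^ ((j : ℕ) + 1) - 4 * 16 ^ (l j)))
    else if c j = 2 then -(2 * 16 ^ n * ((2 * n + 1) * (16 ^ ((j : ℕ) + 1) - 4 * 16 ^ (l j)))) else 0

theorem hh_facts (n : ℕ) (c l : ℕ → ℕ) (j : ℕ) (hl : l j ≤ j) (W T u : ℤ) (hW : W = 2 * n + 1)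
    (hT : T = 16 ^ n) (hu : u = 16 ^ j) :
    (c j = 1 ∧ 0 ≤ hh n c l j ∧ hh n c l j < 2 * T * (16 * (W * u))) ∨
    (c j = 2 ∧ hh n c l j ≤ 0 ∧ -(2 * T * (16 * (W * u))) < hh n c l j) ∨
    (hh n c l j = 0) := by
  have hW0 : 0 < W := by rw [hW]; positivity
  have hT0 : 0 < T := by rw [hT]; positivity
  have hu0 : 0 < u := by rw [hu]; positivity
  have h1 : (16:ℤ) ^ (l j) ≤ u := by
    rw [hu]
    exact pow_le_pow_right₀ (by norm_num) hl
  have h2 : (0:ℤ) < 16 ^ (l j) := by positivity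
  have h3 : (16:ℤ) ^ (j + 1) = 16 * u := by rw [hu, pow_succ]; ring
  obtain ⟨H, hH⟩ : ∃ H : ℤ, H = 2 * T * (W * (16 * u - 4 * 16 ^ (l j))) := ⟨_, rfl⟩
  have h4 : 0 ≤ H := by
    rw [hH]
    have : 0 ≤ 16 * u - 4 * 16 ^ (l j) := by linarith
    positivity
  have h5 : H < 2 * T * (16 * (W * u)) := by
    have h6 : 2 * T * (16 * (W * u)) - H = 8 * (T * W * 16 ^ (l j)) := by rw [hH]; ring
    have h7 : 0 < T * W * 16 ^ (l j) := by positivity
    linarith
  unfold hh
  rw [← hT, ← hW, h3, ← hH]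
  by_cases hc1 : c j = 1
  · left
    rw [if_pos hc1]
    exact ⟨hc1, h4, h5⟩
  · right
    rw [if_neg hc1]
    by_cases hc2 : c j = 2
    · left
      rw [if_pos hc2]
      exact ⟨hc2, by linarith, by linarith⟩
    · right
      rw [if_neg hc2]

/-- arithmetic of a slot -/
theorem left_ok (T U a b h t : ℤ) (hT : 0 < T) (hU : 0 < U)
    (ha : 2 * T < a) (hb : 2 * T < b)
    (hh : (a = 4 * T ∧ 0 ≤ h ∧ h < 2 * T * (16 * U)) ∨
      (b = 4 * T ∧ h ≤ 0 ∧ -(2 * T * (16 * U)) < h) ∨ h = 0)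
    (ht : t < 5 * U) :
    a * (t - 16 * U) + h < 0 ∧ 0 < -(b * (t - 16 * U)) + h := by
  obtain ⟨d, hd⟩ : ∃ d : ℤ, d = 16 * U - t := ⟨_, rfl⟩
  have hd11 : 11 * U < d := by linarith
  have hrw : t - 16 * U = -d := by rw [hd]; ring
  rw [hrw]
  have hd0 : 0 < d := by linarith
  have h1 : 0 < a * d := mul_pos (by linarith) hd0
  have h2 : 0 < b * d := mul_pos (by linarith) hd0
  have h3 : T * (11 * U) < T * d := mul_lt_mul_of_pos_left hd11 hT
  have h4 : 0 < T * U := by positivity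
  rcases hh with ⟨h5, h6, h7⟩ | ⟨h5, h6, h7⟩ | h5
  · have h8 : a * d = 4 * (T * d) := by rw [h5]; ring
    constructor <;> linarith
  · have h8 : b * d = 4 * (T * d) := by rw [h5]; ring
    constructor <;> linarith
  · constructor <;> linarith

theorem right_ok (T U a b h t : ℤ) (hT : 0 < T) (hU : 0 < U)
    (ha : 2 * T < a) (hb : 2 * T < b)
    (hh : (a = 4 * T ∧ 0 ≤ h ∧ h < 2 * T * (16 * U)) ∨
      (b = 4 * T ∧ h ≤ 0 ∧ -(2 * T * (16 * U)) < h) ∨ h = 0)
    (ht : 64 * U ≤ t) :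
    0 < a * (t - 16 * U) + h ∧ -(b * (t - 16 * U)) + h < 0 := by
  obtain ⟨d, hd⟩ : ∃ d : ℤ, d = t - 16 * U := ⟨_, rfl⟩
  have hd48 : 48 * U ≤ d := by linarith
  rw [← hd]
  have hd0 : 0 < d := by linarith
  have h1 : 2 * T * d < a * d := mul_lt_mul_of_pos_right ha hd0
  have h2 : 2 * T * d < b * d := mul_lt_mul_of_pos_right hb hd0
  have h3 : T * (48 * U) ≤ T * d := mul_le_mul_of_nonneg_left hd48 hT.le
  have h4 : 0 < T * U := by positivity
  rcases hh with ⟨h5, h6, h7⟩ | ⟨h5, h6, h7⟩ | h5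
  · constructor <;> linarith
  · constructor <;> linarith
  · constructor <;> linarith

end R1x

open R1x in
theorem t_R1 : S_R1 := by
  intro n c l ra rb hR
  obtain ⟨T, hT⟩ : ∃ T : ℤ, T = 16 ^ n := ⟨_, rfl⟩
  obtain ⟨W, hW⟩ : ∃ W : ℤ, W = 2 * n + 1 := ⟨_, rfl⟩
  have hT0 : 0 < T := by rw [hT]; positivity
  have hT1 : 1 ≤ T := hT0
  have hW0 : 0 < W := by rw [hW]; positivity
  have hW1 : 1 ≤ W := hW0
  have hTT : (256:ℤ) ^ n = T * T := by rw [hT, ← mul_pow]; norm_num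
  have hA : (lay n c l ra rb).A = 64 * W * (T * T) := by
    rw [← hTT, hW]; rfl
  have ht : ∀ (i : Fin (n + 1)) (k : Fin (2 * n + 1)),
      (lay n c l ra rb).t i k = 4 * (W * 16 ^ (i:ℕ)) + (k:ℕ) := by
    intro i k
    rw [hW]
    change 4 * (2 * (n:ℤ) + 1) * 16 ^ (i : ℕ) + ((k : ℕ) : ℤ) = _
    ring
  have hx : ∀ j : Fin n, (lay n c l ra rb).x j = 16 * (W * 16 ^ (j:ℕ)) := by
    intro j
    rw [hW]
    change (2 * (n:ℤ) + 1) * 16 ^ ((j:ℕ) + 1) = _
    rw [pow_succ]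
    ring
  have hh' : ∀ j : Fin n, (lay n c l ra rb).h j = hh n c l j := fun j => rfl
  have ha' : ∀ j : Fin n, (lay n c l ra rb).a j = slo n j (ra j) (c j = 1) := fun j => rfl
  have hb' : ∀ j : Fin n, (lay n c l ra rb).b j = slo n j (rb j) (c j = 2) := fun j => rfl
  have ha : ∀ j : Fin n, 2 * T < (lay n c l ra rb).a j ∧ (lay n c l ra rb).a j ≤ 4 * T := by
    intro j
    rw [ha', hT]
    exact slo_facts n j (ra j) _ (hR j j.2).2.1
  have hb : ∀ j : Fin n, 2 * T < (lay n c l ra rb).b j ∧ (lay n c l ra rb).b j ≤ 4 * T := by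
    intro j
    rw [hb', hT]
    exact slo_facts n j (rb j) _ (hR j j.2).2.2.2.1
  have hslot : ∀ j : Fin n, ((lay n c l ra rb).a j = 4 * T ∧ 0 ≤ (lay n c l ra rb).h j ∧
      (lay n c l ra rb).h j < 2 * T * (16 * (W * 16 ^ (j:ℕ)))) ∨
      ((lay n c l ra rb).b j = 4 * T ∧ (lay n c l ra rb).h j ≤ 0 ∧
      -(2 * T * (16 * (W * 16 ^ (j:ℕ)))) < (lay n c l ra rb).h j) ∨
      (lay n c l ra rb).h j = 0 := by
    intro j
    rw [hh', ha', hb']
    rcases hh_facts n c l j (hR j j.2).1 W T (16 ^ (j:ℕ)) hW hT rfl with ⟨h1, h2, h3⟩ |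
      ⟨h1, h2, h3⟩ | h1
    · left
      refine ⟨?_, h2, h3⟩
      rw [hT]
      exact slo_steep _ _ _ _ h1
    · right; left
      refine ⟨?_, h2, h3⟩
      rw [hT]
      exact slo_steep _ _ _ _ h1
    · right; right
      exact h1
  have hu : ∀ j : Fin n, 16 * (16:ℤ) ^ (j:ℕ) ≤ T := by
    intro j
    rw [hT, ← pow_succ']
    exact pow_le_pow_right₀ (by norm_num) (by have := j.2; omega)
  have habs : ∀ j : Fin n, |(lay n c l ra rb).h j| < 2 * (W * (T * T)) := by
    intro j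
    have hu0 : (0:ℤ) < 16 ^ (j:ℕ) := by positivity
    have h1 : 2 * T * (16 * (W * 16 ^ (j:ℕ))) ≤ 2 * (W * (T * T)) := by
      have h2 : 2 * (W * T) * (16 * 16 ^ (j:ℕ)) ≤ 2 * (W * T) * T :=
        mul_le_mul_of_nonneg_left (hu j) (by positivity)
      linarith
    have h3 : 0 < W * (T * T) := by positivity
    rw [abs_lt]
    rcases hslot j with ⟨h4, h5, h6⟩ | ⟨h4, h5, h6⟩ | h4
    · constructor <;> linarith
    · constructor <;> linarith
    · constructor <;> linarith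
  have hkW : ∀ k : Fin (2 * n + 1), ((k:ℕ):ℤ) < W := by
    intro k
    rw [hW]
    exact_mod_cast k.2
  have hiT : ∀ i : Fin (n + 1), (16:ℤ) ^ (i:ℕ) ≤ T := by
    intro i
    rw [hT]
    exact pow_le_pow_right₀ (by norm_num) (by have := i.2; omega)
  have htb : ∀ (i : Fin (n + 1)) (k : Fin (2 * n + 1)), 0 ≤ (lay n c l ra rb).t i k ∧
      (lay n c l ra rb).t i k ≤ 5 * (W * T) := by
    intro i k
    rw [ht]
    have h1 := mul_le_mul_of_nonneg_left (hiT i) hW0.le
    have h2 := hkW k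
    have h3 : W * 1 ≤ W * T := mul_le_mul_of_nonneg_left hT1 hW0.le
    have h4 : (0:ℤ) ≤ W * 16 ^ (i:ℕ) := by positivity
    have h5 : (0:ℤ) ≤ ((k:ℕ):ℤ) := by positivity
    constructor <;> linarith
  have hTWpos : 0 < W * (T * T) := by positivity
  have hTle : T ≤ W * (T * T) := by
    have h1 : T * 1 ≤ T * T := mul_le_mul_of_nonneg_left hT1 hT0.le
    have h2 : 1 * (T * T) ≤ W * (T * T) := mul_le_mul_of_nonneg_right hW1 (by positivity)
    linarith
  refine
    { hM := le_refl _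
      tlt := ?_
      tinj := ?_
      xlt := ?_
      apos := ?_
      bpos := ?_
      left := ?_
      right := ?_
      Apos := ?_
      Ah := ?_
      Aa := ?_
      Ab := ?_
      Abig := ?_ }
  · intro i i' k k' hii
    have hii' : (i:ℕ) < (i':ℕ) := hii
    rw [ht, ht]
    have h1 : (16:ℤ) ^ ((i:ℕ) + 1) ≤ 16 ^ (i':ℕ) := pow_le_pow_right₀ (by norm_num) hii'
    rw [pow_succ] at h1
    have h2 := mul_le_mul_of_nonneg_left h1 hW0.le
    have h3 := hkW k
    have h4 : (0:ℤ) ≤ ((k':ℕ):ℤ) := by positivity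
    have h5 : (1:ℤ) ≤ 16 ^ (i:ℕ) := one_le_pow₀ (by norm_num)
    have h6 : W * 1 ≤ W * 16 ^ (i:ℕ) := mul_le_mul_of_nonneg_left h5 hW0.le
    linarith
  · intro i k k' hkk
    rw [ht, ht] at hkk
    have : ((k:ℕ):ℤ) = ((k':ℕ):ℤ) := by linarith
    exact Fin.ext (by exact_mod_cast this)
  · intro i j hij
    have hij' : (i:ℕ) < (j:ℕ) := hij
    rw [hx, hx]
    have h1 : (16:ℤ) ^ (i:ℕ) < 16 ^ (j:ℕ) := pow_lt_pow_right₀ (by norm_num) hij'
    have h2 := mul_lt_mul_of_pos_left h1 hW0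
    linarith
  · intro j
    have := (ha j).1
    linarith
  · intro j
    have := (hb j).1
    linarith
  · intro j i k hij
    have hij' : (i:ℕ) ≤ (j:ℕ) := hij
    rw [hx]
    refine left_ok T (W * 16 ^ (j:ℕ)) _ _ _ _ hT0 (by positivity) (ha j).1 (hb j).1 (hslot j) ?_
    rw [ht]
    have h1 : (16:ℤ) ^ (i:ℕ) ≤ 16 ^ (j:ℕ) := pow_le_pow_right₀ (by norm_num) hij'
    have h2 := mul_le_mul_of_nonneg_left h1 hW0.le
    have h3 := hkW k
    have h5 : (1:ℤ) ≤ 16 ^ (j:ℕ) := one_le_pow₀ (by norm_num)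
    have h6 : W * 1 ≤ W * 16 ^ (j:ℕ) := mul_le_mul_of_nonneg_left h5 hW0.le
    linarith
  · intro j i k hij
    have hij' : (j:ℕ) < (i:ℕ) := hij
    rw [hx]
    refine right_ok T (W * 16 ^ (j:ℕ)) _ _ _ _ hT0 (by positivity) (ha j).1 (hb j).1 (hslot j) ?_
    rw [ht]
    have h1 : (16:ℤ) ^ ((j:ℕ) + 1) ≤ 16 ^ (i:ℕ) := pow_le_pow_right₀ (by norm_num) hij'
    rw [pow_succ] at h1
    have h2 := mul_le_mul_of_nonneg_left h1 hW0.le
    have h4 : (0:ℤ) ≤ ((k:ℕ):ℤ) := by positivity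
    linarith
  · rw [hA]
    positivity
  · intro j
    have := habs j
    rw [hA]
    linarith
  · intro j
    have := (ha j).2
    rw [hA]
    linarith
  · intro j
    have := (hb j).2
    rw [hA]
    linarith
  · intro v j hv i k i' k' htt
    obtain ⟨v1, v2⟩ := v
    simp only at hv
    subst hv
    have h1 := htb i k
    have h2 := htb i' k'
    have h3 := habs j
    have hxj : 0 ≤ (lay n c l ra rb).x j ∧ (lay n c l ra rb).x j ≤ W * T := by
      rw [hx]
      have h4 := mul_le_mul_of_nonneg_left (hu j) hW0.le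
      have h5 : (0:ℤ) ≤ W * 16 ^ (j:ℕ) := by positivity
      constructor <;> linarith
    obtain ⟨d, hd⟩ : ∃ d : ℤ, d = 2 * (lay n c l ra rb).x j - ((lay n c l ra rb).t i k +
      (lay n c l ra rb).t i' k') := ⟨_, rfl⟩
    have hWT : 0 < W * T := by positivity
    have hd1 : |d| ≤ 10 * (W * T) := by
      rw [abs_le, hd]
      constructor <;> linarith
    have hgap : (lay n c l ra rb).A ≤ (lay n c l ra rb).A *
        ((lay n c l ra rb).t i k - (lay n c l ra rb).t i' k') := by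
      have hA0 : 0 ≤ (lay n c l ra rb).A := by rw [hA]; positivity
      have : 1 ≤ (lay n c l ra rb).t i k - (lay n c l ra rb).t i' k' := by
        have := htt
        linarith [Int.add_one_le_iff.2 this]
      exact le_mul_of_one_le_right hA0 this
    refine lt_of_lt_of_le ?_ hgap
    rw [hA]
    have key : ∀ s : ℤ, 0 < s → s ≤ 4 * T → ∀ e : ℤ, |e| ≤ 2 * |(lay n c l ra rb).h j| →
        |s * d + e| < 64 * W * (T * T) := by
      intro s hs0 hs e he
      calc |s * d + e| ≤ |s * d| + |e| := abs_add_le _ _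
        _ = s * |d| + |e| := by rw [abs_mul, abs_of_pos hs0]
        _ ≤ (4 * T) * (10 * (W * T)) + |e| := by
            have := mul_le_mul hs hd1 (abs_nonneg d) (by positivity)
            linarith
        _ < 64 * W * (T * T) := by
            have h9 : (4 * T) * (10 * (W * T)) = 40 * (W * (T * T)) := by ring
            rw [h9]
            linarith
    cases v2
    · have h10 : 2 * ((lay n c l ra rb).pt (Sum.inr j, false)).2 -
          ((lay n c l ra rb).t i k + (lay n c l ra rb).t i' k') *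
          ((lay n c l ra rb).pt (Sum.inr j, false)).1 =
          -((lay n c l ra rb).b j * d + 2 * (lay n c l ra rb).h j) := by
        simp only [Lay.pt, dn]
        rw [hd]
        ring
      rw [h10, abs_neg]
      refine key _ (by linarith [(hb j).1]) (hb j).2 _ ?_
      rw [abs_mul]
      norm_num
    · have h10 : 2 * ((lay n c l ra rb).pt (Sum.inr j, true)).2 -
          ((lay n c l ra rb).t i k + (lay n c l ra rb).t i' k') *
          ((lay n c l ra rb).pt (Sum.inr j, true)).1 =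
          ((lay n c l ra rb).a j * d + -(2 * (lay n c l ra rb).h j)) := by
        simp only [Lay.pt, up]
        rw [hd]
        ring
      rw [h10]
      refine key _ (by linarith [(ha j).1]) (ha j).2 _ ?_
      rw [abs_neg, abs_mul]
      norm_num

end Pool.Agent.H606R2.CF
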