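import Pool.Agent.H606R2.CF.StubsZ

/-! # The list of points gives the configuration -/

namespace Pool.Agent.H606R2.CF

open Pool.Agent.NPC Pool.Agent.NPC.H634R2

private theorem z1_cast (L : List ℕ) : (do
    let a ← L
    pure ((a : ℕ) : ℤ) : List ℤ) = L.map (fun a : ℕ => (a : ℤ)) := by
  show List.flatMap (fun a : ℕ => [(a : ℤ)]) L = _
  induction L with
  | nil => rfl
  | cons a L ih => rw [List.flatMap_cons, ih, List.map_cons]; rfl

private theorem z1_mem (n : ℕ) (c l ra rb : ℕ → ℕ) (p : Pt) :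
    p ∈ ptsL n c l ra rb ↔ ∃ v : (lay n c l ra rb).Ix × Bool, (lay n c l ra rb).pt v = p := by
  unfold ptsL
  rw [List.mem_append, List.mem_flatMap, List.mem_flatMap, z1_cast]
  constructor
  · rintro (⟨i, hi, hp⟩ | ⟨j, hj, hp⟩)
    · rw [List.mem_flatMap] at hp
      obtain ⟨k, hk, hp⟩ := hp
      rw [List.mem_map] at hk
      obtain ⟨k, hk, rfl⟩ := hk
      rw [List.mem_range] at hi hk
      rw [List.mem_cons, List.mem_singleton] at hp
      rcases hp with rfl | rfl
      · exact ⟨(Sum.inl (⟨i, hi⟩, ⟨k, hk⟩), true), rfl⟩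
      · exact ⟨(Sum.inl (⟨i, hi⟩, ⟨k, hk⟩), false), rfl⟩
    · rw [List.mem_range] at hj
      simp only [] at hp
      rw [List.mem_cons, List.mem_singleton] at hp
      rcases hp with rfl | rfl
      · exact ⟨(Sum.inr ⟨j, hj⟩, true), rfl⟩
      · exact ⟨(Sum.inr ⟨j, hj⟩, false), rfl⟩
  · rintro ⟨⟨(⟨i, k⟩ | j), b⟩, rfl⟩
    · left
      refine ⟨i.val, List.mem_range.2 i.2, ?_⟩
      rw [List.mem_flatMap]
      refine ⟨(k.val : ℤ), List.mem_map.2 ⟨k.val, List.mem_range.2 k.2, rfl⟩, ?_⟩
      cases b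
      · exact List.mem_cons_of_mem _ (List.mem_singleton.2 rfl)
      · exact List.mem_cons_self
    · right
      refine ⟨j.val, List.mem_range.2 j.2, ?_⟩
      cases b
      · exact List.mem_cons_of_mem _ (List.mem_singleton.2 rfl)
      · exact List.mem_cons_self

private theorem z1_len (n : ℕ) (c l ra rb : ℕ → ℕ) :
    (ptsL n c l ra rb).length = 2 * ((n + 1) * (2 * n + 1) + n) := by
  unfold ptsL
  rw [z1_cast]
  simp only [List.length_append, List.length_map, List.length_flatMap, List.length_cons, List.length_nil,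
    List.map_const', List.length_range, List.sum_replicate, smul_eq_mul]
  ring

theorem t_Z1 (h5 : S_G5) (h1 : S_R1) : S_Z1 := by
  intro n c l ra rb hr
  have hS : (ptsL n c l ra rb).toFinset = (lay n c l ra rb).S := by
    ext p
    rw [List.mem_toFinset, z1_mem]
    unfold Lay.S
    rw [Finset.mem_image]
    constructor
    · rintro ⟨v, hv⟩
      exact ⟨v, Finset.mem_univ _, hv⟩
    · rintro ⟨v, _, hv⟩
      exact ⟨v, hv⟩
  refine ⟨?_, hS⟩
  have hc := (h5 _ (h1 n c l ra rb hr)).2
  rw [← hS, List.card_toFinset] at hc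
  have hl : (ptsL n c l ra rb).dedup.length = (ptsL n c l ra rb).length := by
    rw [hc, z1_len]
    rfl
  have he := (List.dedup_sublist (ptsL n c l ra rb)).eq_of_length hl
  rw [← he]
  exact List.nodup_dedup _

end Pool.Agent.H606R2.CF
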